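import Pool.Agent.Helper88.SCN.Defs

/-! # Module CON: the constellation lemma (Haxell) -/

set_option autoImplicit false

namespace Pool.Agent.Helper88.SCN

open Finset
open scoped Classical

section

variable {V ι : Type}

/-- `M` is an independent transversal inside `L` of the blocks in `J`. -/
private def LT (b : V → ι) (adj : V → V → Prop) (L : Finset V) (J : Finset ι)
    (M : Finset V) : Prop :=
  M ⊆ L ∧ (∀ x ∈ M, ∀ y ∈ M, b x = b y → x = y) ∧ M.image b = J ∧
    ∀ x ∈ M, ∀ y ∈ M, ¬ adj x y

private def FF (b : V → ι) (adj : V → V → Prop) (L : Finset V) (J : Finset ι)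
    (X Y : Finset V) (M : Finset V) : Prop :=
  LT b adj L J M ∧ Y ⊆ M ∧ ∀ x ∈ X, ∀ m ∈ M, m ∉ Y → ¬ adj x m

private theorem loop [Fintype V] [Fintype ι] {b : V → ι} {adj : V → V → Prop}
    (hS : Sys b adj) (L : Finset V) (J : Finset ι) (i0 : ι) (hi0 : i0 ∉ J)
    (hno : ¬ ∃ M, LT b adj L (insert i0 J) M) (n : ℕ) :
    ∀ X Y : Finset V, Fintype.card ι - Y.card = n → (∃ M, FF b adj L J X Y M) →
      X.card ≤ Y.card →
      (∀ M, FF b adj L J X Y M → ∀ c ∈ Y, ∀ z ∈ L, b z = b c → (∀ x ∈ X ∪ Y, ¬ adj x z) →
        ∃ m ∈ M, adj z m) →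
      ∃ (I : Finset ι) (X Y : Finset V), I.Nonempty ∧ (∀ y ∈ Y, y ∈ L ∧ b y ∈ I) ∧
      (∀ y ∈ Y, ∀ y' ∈ Y, b y = b y' → y = y') ∧ (∀ y ∈ Y, ∀ y' ∈ Y, ¬ adj y y') ∧
      Y.card + 1 = I.card ∧ X.card + 1 ≤ I.card ∧
      ∀ z ∈ L, b z ∈ I → ∃ x ∈ X ∪ Y, adj x z := by
  induction n using Nat.strong_induction_on with
  | _ n ih =>
  intro X Y hn hne hXY hd
  obtain ⟨M0, hM0⟩ := hne
  have hMJ : ∀ M, FF b adj L J X Y M → ∀ m ∈ M, b m ∈ J := by
    intro M hM m hm
    rw [← hM.1.2.2.1]
    exact mem_image_of_mem b hm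
  have hYI : (Y.image b).card = Y.card := by
    apply Finset.card_image_of_injOn
    intro x hx y hy hxy
    exact hM0.1.2.1 x (hM0.2.1 hx) y (hM0.2.1 hy) hxy
  have hi0Y : i0 ∉ Y.image b := by
    intro h
    obtain ⟨y, hy, hy'⟩ := mem_image.1 h
    exact hi0 (hy' ▸ hMJ M0 hM0 y (hM0.2.1 hy))
  have hIcard : (insert i0 (Y.image b)).card = Y.card + 1 := by
    rw [card_insert_of_notMem hi0Y, hYI]
  by_cases hdom : ∀ z ∈ L, b z ∈ insert i0 (Y.image b) → ∃ x ∈ X ∪ Y, adj x z
  · refine ⟨insert i0 (Y.image b), X, Y, insert_nonempty _ _, ?_, ?_, ?_, hIcard.symm, ?_, hdom⟩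
    · intro y hy
      exact ⟨hM0.1.1 (hM0.2.1 hy), mem_insert_of_mem (mem_image_of_mem b hy)⟩
    · intro y hy y' hy' h
      exact hM0.1.2.1 y (hM0.2.1 hy) y' (hM0.2.1 hy') h
    · intro y hy y' hy'
      exact hM0.1.2.2.2 y (hM0.2.1 hy) y' (hM0.2.1 hy')
    · omega
  · push Not at hdom
    obtain ⟨z, hzL, hzI, hzu⟩ := hdom
    have hself : ∀ x, ¬ adj x x := fun x hx => hS.ne x x hx rfl
    -- every `M` meets the neighbourhood of `z`
    have hmeet : ∀ M, FF b adj L J X Y M → ∃ m ∈ M, adj z m := by
      intro M hM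
      rcases mem_insert.1 hzI with h | h
      · by_contra hcon
        push Not at hcon
        apply hno
        refine ⟨insert z M, ?_, ?_, ?_, ?_⟩
        · exact insert_subset hzL hM.1.1
        · intro x hx y hy hxy
          rcases mem_insert.1 hx with rfl | hx1
          · rcases mem_insert.1 hy with rfl | hy1
            · rfl
            · exact absurd (hMJ M hM y hy1) (by rw [← hxy, h]; exact hi0)
          · rcases mem_insert.1 hy with rfl | hy1
            · exact absurd (hMJ M hM x hx1) (by rw [hxy, h]; exact hi0)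
            · exact hM.1.2.1 x hx1 y hy1 hxy
        · rw [image_insert, hM.1.2.2.1, h]
        · intro x hx y hy hxy
          rcases mem_insert.1 hx with rfl | hx1
          · rcases mem_insert.1 hy with rfl | hy1
            · exact hself _ hxy
            · exact hcon y hy1 hxy
          · rcases mem_insert.1 hy with rfl | hy1
            · exact hcon x hx1 (hS.symm _ _ hxy)
            · exact hM.1.2.2.2 x hx1 y hy1 hxy
      · obtain ⟨c, hc, hbc⟩ := mem_image.1 h
        exact hd M hM c hc z hzL hbc.symm hzu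
    -- choose `M1` minimal
    obtain ⟨M1, hM1, hmin⟩ : ∃ M1, FF b adj L J X Y M1 ∧ ∀ M, FF b adj L J X Y M →
        (M1.filter (fun m => adj z m)).card ≤ (M.filter (fun m => adj z m)).card := by
      obtain ⟨M1, hM1, hmin⟩ := Finset.exists_min_image
        (univ.filter (fun M : Finset V => FF b adj L J X Y M))
        (fun M => (M.filter (fun m => adj z m)).card) ⟨M0, by simpa using hM0⟩
      refine ⟨M1, by simpa using hM1, fun M hM => hmin M (by simpa using hM)⟩
    set C := M1.filter (fun m => adj z m) with hC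
    have hCM : C ⊆ M1 := filter_subset _ _
    have hCne : C.Nonempty := by
      obtain ⟨m, hm, hzm⟩ := hmeet M1 hM1
      exact ⟨m, mem_filter.2 ⟨hm, hzm⟩⟩
    have hCY : Disjoint Y C := by
      rw [disjoint_left]
      intro y hy hyC
      exact hzu y (mem_union_right _ hy) (hS.symm _ _ (mem_filter.1 hyC).2)
    have hsub : ∀ M, FF b adj L J (insert z X) (Y ∪ C) M → FF b adj L J X Y M := by
      intro M hM
      refine ⟨hM.1, subset_union_left.trans hM.2.1, ?_⟩
      intro x hx m hm hmY hxm
      by_cases hmC : m ∈ C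
      · exact hM1.2.2 x hx m (hCM hmC) hmY hxm
      · exact hM.2.2 x (mem_insert_of_mem hx) m hm (by
          intro h
          rcases mem_union.1 h with h | h
          · exact hmY h
          · exact hmC h) hxm
    have hYcard : (Y ∪ C).card = Y.card + C.card := card_union_of_disjoint hCY
    have hCpos : 0 < C.card := card_pos.2 hCne
    have hYle : (Y ∪ C).card ≤ Fintype.card ι := by
      have h1 : ((Y ∪ C).image b).card = (Y ∪ C).card := by
        apply Finset.card_image_of_injOn
        intro x hx y hy hxy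
        have hx' : x ∈ M1 := by
          rcases mem_union.1 (mem_coe.1 hx) with h | h
          · exact hM1.2.1 h
          · exact hCM h
        have hy' : y ∈ M1 := by
          rcases mem_union.1 (mem_coe.1 hy) with h | h
          · exact hM1.2.1 h
          · exact hCM h
        exact hM1.1.2.1 x hx' y hy' hxy
      rw [← h1]
      exact card_le_univ _
    refine ih (Fintype.card ι - (Y ∪ C).card) (by omega) (insert z X) (Y ∪ C) rfl ?_ ?_ ?_
    · refine ⟨M1, hM1.1, union_subset hM1.2.1 hCM, ?_⟩
      intro x hx m hm hmY hxm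
      rcases mem_insert.1 hx with rfl | hx1
      · exact hmY (mem_union_right _ (mem_filter.2 ⟨hm, hxm⟩))
      · exact hM1.2.2 x hx1 m hm (fun h => hmY (mem_union_left _ h)) hxm
    · have := card_insert_le z X
      omega
    · intro M hM c hc w hwL hwc hwu
      have hM' := hsub M hM
      rcases mem_union.1 hc with hcY | hcC
      · refine hd M hM' c hcY w hwL hwc ?_
        intro x hx
        apply hwu
        rcases mem_union.1 hx with h | h
        · exact mem_union_left _ (mem_insert_of_mem h)
        · exact mem_union_right _ (mem_union_left _ h)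
      · by_contra hcon
        push Not at hcon
        have hcM : c ∈ M := hM.2.1 (mem_union_right _ hcC)
        have hcY : c ∉ Y := fun h => (disjoint_left.1 hCY) h hcC
        have hzc : adj z c := (mem_filter.1 hcC).2
        have hzw : ¬ adj z w := hwu z (mem_union_left _ (mem_insert_self _ _))
        have hFM : FF b adj L J X Y (insert w (M.erase c)) := by
          refine ⟨⟨?_, ?_, ?_, ?_⟩, ?_, ?_⟩
          · exact insert_subset hwL ((erase_subset _ _).trans hM'.1.1)
          · intro x hx y hy hxy
            rcases mem_insert.1 hx with rfl | hx1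
            · rcases mem_insert.1 hy with rfl | hy1
              · rfl
              · exact absurd (hM'.1.2.1 c hcM y (mem_of_mem_erase hy1) (hwc.symm.trans hxy))
                  (ne_of_mem_erase hy1).symm
            · rcases mem_insert.1 hy with rfl | hy1
              · exact absurd (hM'.1.2.1 x (mem_of_mem_erase hx1) c hcM (hxy.trans hwc))
                  (ne_of_mem_erase hx1)
              · exact hM'.1.2.1 x (mem_of_mem_erase hx1) y (mem_of_mem_erase hy1) hxy
          · rw [← hM'.1.2.2.1, image_insert]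
            ext j
            simp only [mem_insert, mem_image, mem_erase]
            constructor
            · rintro (rfl | ⟨m, ⟨_, hm⟩, rfl⟩)
              · exact ⟨c, hcM, hwc.symm⟩
              · exact ⟨m, hm, rfl⟩
            · rintro ⟨m, hm, rfl⟩
              by_cases hmc : m = c
              · left
                rw [hmc, hwc]
              · exact Or.inr ⟨m, ⟨hmc, hm⟩, rfl⟩
          · intro x hx y hy hxy
            rcases mem_insert.1 hx with rfl | hx1
            · rcases mem_insert.1 hy with rfl | hy1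
              · exact hself _ hxy
              · exact hcon y (mem_of_mem_erase hy1) hxy
            · rcases mem_insert.1 hy with rfl | hy1
              · exact hcon x (mem_of_mem_erase hx1) (hS.symm _ _ hxy)
              · exact hM'.1.2.2.2 x (mem_of_mem_erase hx1) y (mem_of_mem_erase hy1) hxy
          · intro y hy
            refine mem_insert_of_mem (mem_erase.2 ⟨?_, hM'.2.1 hy⟩)
            rintro rfl
            exact hcY hy
          · intro x hx m hm hmY hxm
            rcases mem_insert.1 hm with rfl | hm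
            · exact hwu x (mem_union_left _ (mem_insert_of_mem hx)) hxm
            · exact hM'.2.2 x hx m (mem_of_mem_erase hm) hmY hxm
        have h1 := hmin _ hFM
        have h2 : (insert w (M.erase c)).filter (fun m => adj z m) ⊆ C.erase c := by
          intro m hm
          obtain ⟨hm1, hm2⟩ := mem_filter.1 hm
          rcases mem_insert.1 hm1 with rfl | hm1
          · exact absurd hm2 hzw
          · refine mem_erase.2 ⟨ne_of_mem_erase hm1, ?_⟩
            by_contra hmC
            refine hM.2.2 z (mem_insert_self _ _) m (mem_of_mem_erase hm1) ?_ hm2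
            intro h
            rcases mem_union.1 h with h | h
            · exact hzu m (mem_union_right _ h) (hS.symm _ _ hm2)
            · exact hmC h
        have h3 := card_le_card h2
        rw [card_erase_of_mem hcC] at h3
        omega

end

theorem constel {V ι : Type} [Fintype V] [Fintype ι] {b : V → ι} {adj : V → V → Prop}
    (hS : Sys b adj) (L : Finset V) (hno : ¬ ∃ T : ι → V, IsIT b adj T ∧ ∀ i, T i ∈ L) :
    ∃ (I : Finset ι) (X Y : Finset V), I.Nonempty ∧ (∀ y ∈ Y, y ∈ L ∧ b y ∈ I) ∧
      (∀ y ∈ Y, ∀ y' ∈ Y, b y = b y' → y = y') ∧ (∀ y ∈ Y, ∀ y' ∈ Y, ¬ adj y y') ∧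
      Y.card + 1 = I.card ∧ X.card + 1 ≤ I.card ∧
      ∀ z ∈ L, b z ∈ I → ∃ x ∈ X ∪ Y, adj x z := by
  have h0 : ¬ ∃ M, LT b adj L (univ : Finset ι) M := by
    rintro ⟨M, h1, h2, h3, h4⟩
    apply hno
    have h5 : ∀ i : ι, ∃ x ∈ M, b x = i := by
      intro i
      have : i ∈ M.image b := by rw [h3]; exact mem_univ i
      obtain ⟨x, hx, hx'⟩ := mem_image.1 this
      exact ⟨x, hx, hx'⟩
    choose T hT hT' using h5
    exact ⟨T, ⟨hT', fun i j => h4 _ (hT i) _ (hT j)⟩, fun i => h1 (hT i)⟩
  obtain ⟨J, i0, hi0, ⟨M, hM⟩, hno'⟩ : ∃ (J : Finset ι) (i0 : ι), i0 ∉ J ∧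
      (∃ M, LT b adj L J M) ∧ ¬ ∃ M, LT b adj L (insert i0 J) M := by
    by_contra hcon
    push Not at hcon
    apply h0
    refine Finset.induction_on (univ : Finset ι) ?_ ?_
    · exact ⟨∅, by simp [LT]⟩
    · intro i J hi hJ
      exact hcon J i hi hJ
  refine loop hS L J i0 hi0 hno' _ ∅ ∅ rfl ⟨M, hM, by simp, by simp⟩ (by simp) ?_
  intro M _ c hc
  simp at hc

end Pool.Agent.Helper88.SCN
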