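import Pool.Agent.Helper88.SCN.Stage1

/-! # Module COU: counting uncovered vertices and missing colours, assignment of tasks -/

set_option autoImplicit false

namespace Pool.Agent.Helper88.SCN

open Finset
open scoped Classical

/-- As many uncovered vertices as missing colours in every block. -/
theorem uncovered_eq {V ι : Type} [Fintype V] [Fintype ι] {b : V → ι} {adj : V → V → Prop}
    (k : ℕ) (φ : V → Option ℕ) (hφ : PCol b adj k φ)
    (hblk : ∀ i, (univ.filter (fun v => b v = i)).card = k) (i : ι) :
    (univ.filter (fun x => b x = i ∧ φ x = none)).card =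
      ((range k).filter (fun c => Vac b φ i c)).card := by
  have h1 : (univ.filter (fun x => b x = i ∧ φ x = none)).card +
      (univ.filter (fun x => b x = i ∧ ¬ φ x = none)).card = k := by
    rw [← hblk i, ← filter_filter, ← filter_filter]
    exact card_filter_add_card_filter_not _
  have h2 : ((range k).filter (fun c => Vac b φ i c)).card +
      ((range k).filter (fun c => ¬ Vac b φ i c)).card = k := by
    conv_rhs => rw [← card_range k]
    exact card_filter_add_card_filter_not _
  have h3 : (range k).filter (fun c => ¬ Vac b φ i c) =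
      (univ.filter (fun x => b x = i ∧ ¬ φ x = none)).image (fun x => (φ x).getD 0) := by
    ext c
    simp only [mem_filter, mem_range, mem_image, mem_univ, true_and]
    constructor
    · rintro ⟨hc, hv⟩
      unfold Vac at hv
      push Not at hv
      obtain ⟨x, hx, hxc⟩ := hv
      exact ⟨x, ⟨hx, by rw [hxc]; simp⟩, by rw [hxc]; rfl⟩
    · rintro ⟨x, ⟨hx, hn⟩, hc⟩
      obtain ⟨c', hc'⟩ := Option.ne_none_iff_exists'.1 hn
      have h4 : c' = c := by
        rw [hc'] at hc
        exact hc
      subst h4
      exact ⟨hφ.lt x c' hc', fun hv => hv x hx hc'⟩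
  have h4 : ((range k).filter (fun c => ¬ Vac b φ i c)).card =
      (univ.filter (fun x => b x = i ∧ ¬ φ x = none)).card := by
    rw [h3]
    refine card_image_of_injOn fun x hx y hy hxy => ?_
    simp only [coe_filter, mem_univ, true_and, Set.mem_ofPred_eq] at hx hy
    obtain ⟨c, hc⟩ := Option.ne_none_iff_exists'.1 hx.2
    obtain ⟨c', hc'⟩ := Option.ne_none_iff_exists'.1 hy.2
    have h5 : c = c' := by
      have h6 : (φ x).getD 0 = (φ y).getD 0 := hxy
      rw [hc, hc'] at h6
      exact h6
    subst h5
    exact hφ.inj x y c hc hc' (hx.1.trans hy.1.symm)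
  omega

/-- Every uncovered vertex gets its own missing colour of its block. -/
theorem assign {V ι : Type} [Fintype V] [Fintype ι] {b : V → ι} {adj : V → V → Prop}
    (k : ℕ) (φ : V → Option ℕ) (hφ : PCol b adj k φ)
    (hblk : ∀ i, (univ.filter (fun v => b v = i)).card = k) :
    ∃ cc : V → ℕ, (∀ x, φ x = none → cc x < k ∧ Vac b φ (b x) (cc x)) ∧
      ∀ x y, φ x = none → φ y = none → b x = b y → cc x = cc y → x = y := by
  have h1 : ∀ i : ι, ∃ F : V → ℕ, (∀ x, b x = i → φ x = none → F x < k ∧ Vac b φ i (F x)) ∧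
      ∀ x y, b x = i → b y = i → φ x = none → φ y = none → F x = F y → x = y := by
    intro i
    let e := Finset.equivOfCardEq (uncovered_eq k φ hφ hblk i)
    refine ⟨fun x => if h : x ∈ univ.filter (fun x => b x = i ∧ φ x = none) then
      (e ⟨x, h⟩).1 else 0, ?_, ?_⟩
    · intro x hx hn
      have h : x ∈ univ.filter (fun x => b x = i ∧ φ x = none) :=
        mem_filter.2 ⟨mem_univ _, hx, hn⟩
      simp only [dif_pos h]
      have h2 := (e ⟨x, h⟩).2
      rw [mem_filter, mem_range] at h2
      exact h2
    · intro x y hx hy hnx hny hxy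
      have h : x ∈ univ.filter (fun x => b x = i ∧ φ x = none) :=
        mem_filter.2 ⟨mem_univ _, hx, hnx⟩
      have h' : y ∈ univ.filter (fun x => b x = i ∧ φ x = none) :=
        mem_filter.2 ⟨mem_univ _, hy, hny⟩
      simp only [dif_pos h, dif_pos h'] at hxy
      have h2 := e.injective (Subtype.ext hxy)
      exact congrArg Subtype.val h2
  choose F hF1 hF2 using h1
  refine ⟨fun x => F (b x) x, fun x hn => hF1 (b x) x rfl hn, fun x y hx hy hb hxy => ?_⟩
  have h2 : F (b x) x = F (b x) y := by
    have h3 : F (b x) x = F (b y) y := hxy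
    rw [h3, hb]
  exact hF2 (b x) x y rfl hb.symm hx hy h2

/-- The two bounds on uncovered vertices. -/
theorem uncovered_le {V ι : Type} [Fintype V] [Fintype ι] {b : V → ι} {adj : V → V → Prop}
    (k N : ℕ) (g : ι → ℕ) (hN : 0 < N) (hk : 8 * N ≤ k) (φ : V → Option ℕ)
    (hφ : PCol b adj k φ)
    (hblk : ∀ i, (univ.filter (fun v => b v = i)).card = k)
    (hvac : ∀ i c, c < k → Vac b φ i c → cand k N g c i)
    (hR : ∀ v, R b adj (univ.filter (fun x => φ x = none)) v ≤ 1 / 2) :
    (∀ i, ((univ.filter (fun x => b x = i ∧ φ x = none)).card : ℝ) ≤ k / N) ∧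
    ∀ v, ((univ.filter (fun x => adj v x ∧ φ x = none)).card : ℝ) ≤ k / N := by
  have hN' : (0 : ℝ) < N := by exact_mod_cast hN
  have hk' : (8 : ℝ) * N ≤ k := by exact_mod_cast hk
  have hk0 : (0 : ℝ) < k := by linarith
  have h1 : ∀ i, ((univ.filter (fun x => b x = i ∧ φ x = none)).card : ℝ) ≤ k / N := by
    intro i
    rw [uncovered_eq k φ hφ hblk i]
    have h2 : ((range k).filter (fun c => Vac b φ i c)).card ≤ k / (2 * N) + 1 := by
      rw [← card_range (k / (2 * N) + 1)]
      refine card_le_card_of_injOn (fun c => c / N) (fun c hc => ?_) (fun c hc c' hc' hcc => ?_)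
      · rw [mem_coe, mem_filter, mem_range] at hc
        obtain ⟨h3, h4⟩ := hvac i c hc.1 hc.2
        rw [mem_coe, mem_range]
        refine Nat.lt_succ_of_le ?_
        show c / N ≤ k / (2 * N)
        rw [← Nat.div_div_eq_div_mul]
        exact Nat.div_le_div_right (by omega)
      · rw [mem_coe, mem_filter, mem_range] at hc hc'
        obtain ⟨-, h4⟩ := hvac i c hc.1 hc.2
        obtain ⟨-, h4'⟩ := hvac i c' hc'.1 hc'.2
        have h5 : c / N = c' / N := hcc
        rw [← Nat.div_add_mod c N, ← Nat.div_add_mod c' N, h5, h4, h4']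
    have h3 : ((k / (2 * N) : ℕ) : ℝ) ≤ k / (2 * N) := by
      refine Nat.cast_div_le.trans ?_
      push_cast
      exact le_rfl
    have h4 : (((range k).filter (fun c => Vac b φ i c)).card : ℝ) ≤
        ((k / (2 * N) : ℕ) : ℝ) + 1 := by exact_mod_cast h2
    have h5 : (1 : ℝ) ≤ k / (2 * N) := by
      rw [le_div_iff₀ (by positivity)]
      linarith
    have h6 : (k : ℝ) / N = k / (2 * N) + k / (2 * N) := by
      field_simp
      ring
    rw [h6]
    linarith
  refine ⟨h1, fun v => ?_⟩
  have h2 := hR v
  unfold R at h2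
  have h3 : ∀ x ∈ (univ.filter (fun x => φ x = none)).filter (fun x => adj v x),
      (N : ℝ) / k ≤ 1 / (u b (univ.filter (fun x => φ x = none)) (b x) : ℝ) := by
    intro x hx
    rw [mem_filter, mem_filter] at hx
    have h4 : (0 : ℝ) < (u b (univ.filter (fun x => φ x = none)) (b x) : ℝ) := by
      have h5 : 0 < u b (univ.filter (fun x => φ x = none)) (b x) :=
        card_pos.2 ⟨x, mem_filter.2 ⟨mem_filter.2 hx.1, rfl⟩⟩
      exact_mod_cast h5
    have h6 : (u b (univ.filter (fun x => φ x = none)) (b x) : ℝ) ≤ k / N := by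
      refine le_trans (le_of_eq ?_) (h1 (b x))
      unfold u
      rw [filter_filter]
      congr 2
      refine filter_congr fun y _ => ?_
      exact and_comm
    rw [le_div_iff₀ h4]
    calc (N : ℝ) / k * (u b (univ.filter (fun x => φ x = none)) (b x) : ℝ)
        ≤ N / k * (k / N) := mul_le_mul_of_nonneg_left h6 (by positivity)
      _ = 1 := by field_simp
  have h7 := (sum_le_sum h3).trans h2
  rw [sum_const, nsmul_eq_mul, filter_filter] at h7
  have h8 : (univ.filter (fun x => φ x = none ∧ adj v x)).card =
      (univ.filter (fun x => adj v x ∧ φ x = none)).card := by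
    congr 1
    exact filter_congr fun y _ => and_comm
  rw [h8] at h7
  have h9 : ((univ.filter (fun x => adj v x ∧ φ x = none)).card : ℝ) * (N / k) ≤ 1 / 2 := h7
  rw [le_div_iff₀ hN']
  have h10 : ((univ.filter (fun x => adj v x ∧ φ x = none)).card : ℝ) * N =
      ((univ.filter (fun x => adj v x ∧ φ x = none)).card : ℝ) * (N / k) * k := by
    field_simp
  rw [h10]
  nlinarith

end Pool.Agent.Helper88.SCN
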