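import Pool.Agent.Helper88.SCN.Defs

/-! # Module DEF: a defective partition of the blocks -/

set_option autoImplicit false

namespace Pool.Agent.Helper88.SCN

open Finset
open scoped Classical

section

variable {V ι : Type} [Fintype V] {b : V → ι} {adj : V → V → Prop}

/-- number of edges leaving the block `i` into blocks of colour `a` -/
private noncomputable def defE (b : V → ι) (adj : V → V → Prop) {N : ℕ} (g : ι → Fin N) (i : ι)
    (a : Fin N) : ℕ :=
  ∑ x : V, ∑ y : V, if b x = i ∧ adj x y ∧ g (b y) = a then 1 else 0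

/-- number of monochromatic edges not meeting the block `i` -/
private noncomputable def defC (b : V → ι) (adj : V → V → Prop) {N : ℕ} (g : ι → Fin N) (i : ι) :
    ℕ :=
  ∑ x : V, ∑ y : V, if (b x ≠ i ∧ b y ≠ i) ∧ adj x y ∧ g (b x) = g (b y) then 1 else 0

/-- number of monochromatic edges -/
private noncomputable def defW (b : V → ι) (adj : V → V → Prop) {N : ℕ} (g : ι → Fin N) : ℕ :=
  ∑ x : V, ∑ y : V, if adj x y ∧ g (b x) = g (b y) then 1 else 0

private theorem defW_eq (hS : Sys b adj) {N : ℕ} (g : ι → Fin N) (i : ι) :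
    defW b adj g = 2 * defE b adj g i (g i) + defC b adj g i := by
  have h1 : defE b adj g i (g i) =
      ∑ x : V, ∑ y : V, if b y = i ∧ adj x y ∧ g (b x) = g i then 1 else 0 := by
    unfold defE
    rw [sum_comm]
    refine sum_congr rfl fun x _ => sum_congr rfl fun y _ => ?_
    by_cases h : adj x y
    · simp [h, hS.symm _ _ h]
    · have h' : ¬ adj y x := fun h' => h (hS.symm _ _ h')
      simp [h, h']
  have h2 : defW b adj g = defE b adj g i (g i) +
      (∑ x : V, ∑ y : V, if b y = i ∧ adj x y ∧ g (b x) = g i then 1 else 0) +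
        defC b adj g i := by
    unfold defW defE defC
    rw [← sum_add_distrib, ← sum_add_distrib]
    refine sum_congr rfl fun x _ => ?_
    rw [← sum_add_distrib, ← sum_add_distrib]
    refine sum_congr rfl fun y _ => ?_
    by_cases h : adj x y
    · have hne := hS.ne _ _ h
      by_cases hx : b x = i
      · have hy : b y ≠ i := fun hy => hne (hx.trans hy.symm)
        simp only [h, hx, hy, true_and, ne_eq, not_true_eq_false, false_and, if_false,
          add_zero]
        refine if_congr ⟨fun h => h.symm, fun h => h.symm⟩ rfl rfl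
      · by_cases hy : b y = i
        · simp [h, hx, hy]
        · simp [h, hx, hy]
    · simp [h]
  rw [h2, ← h1]
  ring

private theorem defE_update (hS : Sys b adj) {N : ℕ} (g : ι → Fin N) (i : ι) (a c : Fin N) :
    defE b adj (Function.update g i a) i c = defE b adj g i c := by
  unfold defE
  refine sum_congr rfl fun x _ => sum_congr rfl fun y _ => ?_
  refine if_congr ?_ rfl rfl
  constructor
  · rintro ⟨h1, h2, h3⟩
    have hy : b y ≠ i := fun hy => hS.ne _ _ h2 (h1.trans hy.symm)
    rw [Function.update_of_ne hy] at h3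
    exact ⟨h1, h2, h3⟩
  · rintro ⟨h1, h2, h3⟩
    have hy : b y ≠ i := fun hy => hS.ne _ _ h2 (h1.trans hy.symm)
    refine ⟨h1, h2, ?_⟩
    rw [Function.update_of_ne hy]
    exact h3

private theorem defC_update {N : ℕ} (g : ι → Fin N) (i : ι) (a : Fin N) :
    defC b adj (Function.update g i a) i = defC b adj g i := by
  unfold defC
  refine sum_congr rfl fun x _ => sum_congr rfl fun y _ => ?_
  refine if_congr ?_ rfl rfl
  constructor
  · rintro ⟨⟨h1, h1'⟩, h2, h3⟩
    rw [Function.update_of_ne h1, Function.update_of_ne h1'] at h3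
    exact ⟨⟨h1, h1'⟩, h2, h3⟩
  · rintro ⟨⟨h1, h1'⟩, h2, h3⟩
    refine ⟨⟨h1, h1'⟩, h2, ?_⟩
    rw [Function.update_of_ne h1, Function.update_of_ne h1']
    exact h3

private theorem defE_eq {N : ℕ} (g : ι → Fin N) (i : ι) (a : Fin N) :
    defE b adj g i a = ∑ v ∈ univ.filter (fun v => b v = i),
      (univ.filter (fun x => adj v x ∧ g (b x) = a)).card := by
  unfold defE
  rw [sum_filter]
  refine sum_congr rfl fun x _ => ?_
  by_cases hx : b x = i
  · simp only [hx, true_and, if_true]
    rw [← Finset.card_filter]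
  · simp [hx]

end

theorem defective {V ι : Type} [Fintype V] [Fintype ι] {b : V → ι} {adj : V → V → Prop}
    (hS : Sys b adj) (k N : ℕ) (hN : 0 < N)
    (hblk : ∀ i, (univ.filter (fun v => b v = i)).card = k)
    (hdeg : ∀ v, ((univ.filter (fun x => adj v x)).card : ℝ) ≤ (k : ℝ) / 2) :
    ∃ g : ι → ℕ, (∀ i, g i < N) ∧ ∀ i,
      ∑ v ∈ univ.filter (fun v => b v = i),
        ((univ.filter (fun x => adj v x ∧ g (b x) = g i)).card : ℝ) ≤ (k : ℝ) ^ 2 / (2 * N) := by
  have : NeZero N := ⟨hN.ne'⟩
  obtain ⟨g, -, hg⟩ := Finset.exists_min_image (univ : Finset (ι → Fin N)) (defW b adj)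
    ⟨fun _ => 0, mem_univ _⟩
  refine ⟨fun i => (g i : ℕ), fun i => (g i).2, fun i => ?_⟩
  have h1 : ∀ a, defE b adj g i (g i) ≤ defE b adj g i a := by
    intro a
    have h2 := hg (Function.update g i a) (mem_univ _)
    rw [defW_eq hS g i, defW_eq hS (Function.update g i a) i, defE_update hS, defC_update,
      Function.update_self] at h2
    omega
  have h2 : N * defE b adj g i (g i) ≤ ∑ a : Fin N, defE b adj g i a := by
    calc N * defE b adj g i (g i) = ∑ _a : Fin N, defE b adj g i (g i) := by simp
      _ ≤ _ := sum_le_sum fun a _ => h1 a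
  have h3 : ∑ a : Fin N, defE b adj g i a =
      ∑ v ∈ univ.filter (fun v => b v = i), (univ.filter (fun x => adj v x)).card := by
    rw [sum_congr rfl fun a _ => defE_eq g i a, sum_comm]
    refine sum_congr rfl fun v _ => ?_
    have h4 := Finset.card_eq_sum_card_fiberwise (s := univ.filter (fun x => adj v x))
      (t := (univ : Finset (Fin N))) (f := fun x => g (b x)) (fun x _ => mem_coe.2 (mem_univ _))
    rw [h4]
    refine sum_congr rfl fun a _ => ?_
    rw [filter_filter]
  have h4 : ∑ v ∈ univ.filter (fun v => b v = i),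
      ((univ.filter (fun x => adj v x ∧ (g (b x) : ℕ) = g i)).card : ℝ) =
        (defE b adj g i (g i) : ℝ) := by
    rw [defE_eq, Nat.cast_sum]
    refine sum_congr rfl fun v _ => ?_
    congr 2
    refine filter_congr fun x _ => ?_
    rw [Fin.ext_iff]
  have h5 : (N : ℝ) * defE b adj g i (g i) ≤ (k : ℝ) * (k / 2) := by
    have h6 : (N : ℝ) * defE b adj g i (g i) ≤
        ∑ v ∈ univ.filter (fun v => b v = i), ((univ.filter (fun x => adj v x)).card : ℝ) := by
      rw [h3] at h2
      exact_mod_cast h2
    refine h6.trans ((sum_le_sum fun v _ => hdeg v).trans ?_)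
    rw [sum_const, hblk i, nsmul_eq_mul]
  rw [h4, le_div_iff₀ (by positivity)]
  nlinarith

end Pool.Agent.Helper88.SCN
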