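import Pool.Agent.Helper88.SCN.Weighted

/-! # Module LIS: Haxell's theorem for lists with a conflict relation -/

set_option autoImplicit false

namespace Pool.Agent.Helper88.SCN

open Finset
open scoped Classical

theorem haxell_lists {τ A : Type} [Fintype τ] [Fintype A] (L : τ → Finset A)
    (Q : τ → A → τ → A → Prop) (hsymm : ∀ s a t c, Q s a t c → Q t c s a)
    (hne : ∀ s a t c, Q s a t c → s ≠ t) (l : ℝ) (hl : 0 < l) (hL : ∀ s, l ≤ (L s).card)
    (hQ : ∀ s, ∀ a ∈ L s,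
      ((univ.filter (fun p : τ × A => p.2 ∈ L p.1 ∧ Q s a p.1 p.2)).card : ℝ) ≤ l / 2) :
    ∃ f : τ → A, (∀ s, f s ∈ L s) ∧ ∀ s t, ¬ Q s (f s) t (f t) := by
  have hS : Sys (fun p : {p : τ × A // p.2 ∈ L p.1} => p.1.1)
      (fun p q => Q p.1.1 p.1.2 q.1.1 q.1.2) :=
    ⟨fun x y h => hsymm _ _ _ _ h, fun x y h => hne _ _ _ _ h⟩
  have hpos : ∀ s, (0 : ℝ) < (L s).card := fun s => lt_of_lt_of_le hl (hL s)
  have hy1 : ∀ s, ∑ x ∈ univ.filter (fun x : {p : τ × A // p.2 ∈ L p.1} => x.1.1 = s),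
      1 / ((L x.1.1).card : ℝ) = 1 := by
    intro s
    have h1 : ∑ x ∈ univ.filter (fun x : {p : τ × A // p.2 ∈ L p.1} => x.1.1 = s),
        1 / ((L x.1.1).card : ℝ) =
        ∑ x ∈ univ.filter (fun x : {p : τ × A // p.2 ∈ L p.1} => x.1.1 = s),
        1 / ((L s).card : ℝ) := by
      refine sum_congr rfl fun x hx => ?_
      rw [(mem_filter.1 hx).2]
    rw [h1, sum_const, nsmul_eq_mul]
    have h2 : (univ.filter (fun x : {p : τ × A // p.2 ∈ L p.1} => x.1.1 = s)).card =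
        (L s).card := by
      refine card_bij' (fun x _ => x.1.2) (fun a ha => ⟨(s, a), ha⟩) ?_ ?_ ?_ ?_
      · intro x hx
        have h3 := (mem_filter.1 hx).2
        have h4 := x.2
        rw [h3] at h4
        exact h4
      · intro a ha
        simp
      · intro x hx
        have h3 := (mem_filter.1 hx).2
        refine Subtype.ext (Prod.ext ?_ rfl)
        exact h3.symm
      · intro a ha
        rfl
    rw [h2]
    exact mul_one_div_cancel (hpos s).ne'
  have hyN : ∀ z : {p : τ × A // p.2 ∈ L p.1},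
      ∑ x ∈ univ.filter (fun x : {p : τ × A // p.2 ∈ L p.1} => Q z.1.1 z.1.2 x.1.1 x.1.2),
      1 / ((L x.1.1).card : ℝ) ≤ 1 / 2 := by
    intro z
    have h1 : ∀ x ∈ univ.filter (fun x : {p : τ × A // p.2 ∈ L p.1} =>
        Q z.1.1 z.1.2 x.1.1 x.1.2), 1 / ((L x.1.1).card : ℝ) ≤ 1 / l := fun x _ =>
      one_div_le_one_div_of_le hl (hL _)
    refine (sum_le_sum h1).trans ?_
    rw [sum_const, nsmul_eq_mul]
    have h2 : (univ.filter (fun x : {p : τ × A // p.2 ∈ L p.1} =>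
        Q z.1.1 z.1.2 x.1.1 x.1.2)).card ≤
        (univ.filter (fun p : τ × A => p.2 ∈ L p.1 ∧ Q z.1.1 z.1.2 p.1 p.2)).card := by
      refine card_le_card_of_injOn (fun x => x.1) ?_ ?_
      · intro x hx
        have h3 := (mem_filter.1 (mem_coe.1 hx)).2
        exact mem_coe.2 (mem_filter.2 ⟨mem_univ _, x.2, h3⟩)
      · intro x _ y _ h
        exact Subtype.ext h
    have h3 : ((univ.filter (fun x : {p : τ × A // p.2 ∈ L p.1} =>
        Q z.1.1 z.1.2 x.1.1 x.1.2)).card : ℝ) ≤ l / 2 :=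
      le_trans (by exact_mod_cast h2) (hQ z.1.1 z.1.2 z.2)
    calc ((univ.filter (fun x : {p : τ × A // p.2 ∈ L p.1} =>
        Q z.1.1 z.1.2 x.1.1 x.1.2)).card : ℝ) * (1 / l) ≤ l / 2 * (1 / l) :=
          mul_le_mul_of_nonneg_right h3 (by positivity)
      _ = 1 / 2 := by field_simp
  obtain ⟨T, hT, -⟩ := weighted hS (fun p => 1 / ((L p.1.1).card : ℝ))
    (fun x => by positivity) hy1 hyN (fun _ => 0)
  refine ⟨fun s => (T s).1.2, fun s => ?_, fun s t h => ?_⟩
  · have h1 : (T s).1.1 = s := hT.1 s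
    have h2 := (T s).2
    rw [h1] at h2
    exact h2
  · have h1 : (T s).1.1 = s := hT.1 s
    have h2 : (T t).1.1 = t := hT.1 t
    refine hT.2 s t ?_
    change Q (T s).1.1 (T s).1.2 (T t).1.1 (T t).1.2
    rw [h1, h2]
    exact h

end Pool.Agent.Helper88.SCN
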