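import Pool.Agent.Helper88.SCN.Conf

/-! # Module REC: the final recolouring is correct -/

set_option autoImplicit false

namespace Pool.Agent.Helper88.SCN

open Finset
open scoped Classical

/-- The final colouring: the uncovered vertex `x` gets the colour of `f x`, and `f x` gets the
missing colour `cc x`. -/
private noncomputable def Rec_psi {V : Type} (φ : V → Option ℕ) (cc : V → ℕ) (f : V → V)
    (x : V) : ℕ :=
  if φ x = none then (φ (f x)).getD 0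
  else if h : ∃ y, φ y = none ∧ f y = x then cc h.choose else (φ x).getD 0

private theorem Rec_spec {V : Type} {φ : V → Option ℕ} {cc : V → ℕ} {f : V → V}
    (hf : ∀ x, φ x = none → φ (f x) ≠ none) (v : V) :
    (φ v = none ∧ φ (f v) = some (Rec_psi φ cc f v)) ∨
    (∃ x, φ x = none ∧ f x = v ∧ Rec_psi φ cc f v = cc x) ∨
    (φ v = some (Rec_psi φ cc f v) ∧ ∀ x, φ x = none → f x ≠ v) := by
  unfold Rec_psi
  by_cases h1 : φ v = none
  · left
    rw [if_pos h1]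
    obtain ⟨c, hc⟩ := Option.ne_none_iff_exists'.1 (hf v h1)
    exact ⟨h1, by rw [hc]; rfl⟩
  · right
    rw [if_neg h1]
    by_cases h2 : ∃ y, φ y = none ∧ f y = v
    · left
      rw [dif_pos h2]
      exact ⟨h2.choose, h2.choose_spec.1, h2.choose_spec.2, rfl⟩
    · right
      rw [dif_neg h2]
      obtain ⟨c, hc⟩ := Option.ne_none_iff_exists'.1 h1
      refine ⟨by rw [hc]; rfl, fun x hx hxv => h2 ⟨x, hx, hxv⟩⟩

theorem recolour {V ι : Type} [Fintype V] [Fintype ι] {b : V → ι} {adj : V → V → Prop}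
    (hS : Sys b adj) (k : ℕ) (q : ℝ) (φ : V → Option ℕ) (cc : V → ℕ) (hφ : PCol b adj k φ)
    (hcc : ∀ x, φ x = none → cc x < k ∧ Vac b φ (b x) (cc x))
    (hcinj : ∀ x y, φ x = none → φ y = none → b x = b y → cc x = cc y → x = y)
    (f : V → V) (hf : ∀ x, φ x = none → f x ∈ LL b adj q φ cc x)
    (hQ : ∀ x y, φ x = none → φ y = none → ¬ QQ adj φ cc x (f x) y (f y)) :
    ∃ ψ : V → Fin k, (∀ x y, adj x y → ψ x ≠ ψ y) ∧ ∀ x y, b x = b y → ψ x = ψ y → x = y := by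
  have hL : ∀ x, φ x = none → b (f x) = b x ∧ φ (f x) ≠ none ∧
      (∀ z, φ z = some (cc x) → ¬ adj (f x) z) ∧ (∀ z, adj x z → φ z ≠ φ (f x)) := by
    intro x hx
    have h1 := hf x hx
    unfold LL at h1
    rw [Finset.mem_filter] at h1
    exact ⟨h1.2.1, h1.2.2.1, h1.2.2.2.1, h1.2.2.2.2.1⟩
  have hspec := fun v => Rec_spec (cc := cc) (fun x hx => (hL x hx).2.1) v
  set Ψ := Rec_psi φ cc f with hΨ
  have hlt : ∀ v, Ψ v < k := by
    intro v
    rcases hspec v with ⟨_, h⟩ | ⟨x, hx, _, h⟩ | ⟨h, _⟩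
    · exact hφ.lt _ _ h
    · rw [h]
      exact (hcc x hx).1
    · exact hφ.lt _ _ h
  refine ⟨fun v => ⟨Ψ v, hlt v⟩, fun v w hvw heq => ?_, fun v w hbvw heq => ?_⟩
  · have hE : Ψ v = Ψ w := congrArg Fin.val heq
    have hne : b v ≠ b w := hS.ne v w hvw
    have hwv := hS.symm v w hvw
    rcases hspec v with ⟨hv, h1⟩ | ⟨x, hx, hxv, h1⟩ | ⟨h1, h1'⟩
    · rcases hspec w with ⟨hw, h2⟩ | ⟨y, hy, hyw, h2⟩ | ⟨h2, _⟩
      · exact hQ v w hv hw ⟨fun h => hne (congrArg b h), Or.inl ⟨hvw, by rw [h1, h2, hE]⟩⟩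
      · refine hQ v y hv hy ⟨fun h => hne ?_, Or.inr (Or.inr (Or.inl ⟨by rw [hyw]; exact hvw, by
          rw [h1, hE, h2]⟩))⟩
        rw [h, ← hyw]
        exact (hL y hy).1.symm
      · exact (hL v hv).2.2.2 w hvw (by rw [h1, h2, hE])
    · rcases hspec w with ⟨hw, h2⟩ | ⟨y, hy, hyw, h2⟩ | ⟨h2, _⟩
      · refine hQ w x hw hx ⟨fun h => hne ?_, Or.inr (Or.inr (Or.inl ⟨by rw [hxv]; exact hwv, by
          rw [h2, ← hE, h1]⟩))⟩
        rw [h, ← hxv]
        exact (hL x hx).1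
      · refine hQ x y hx hy ⟨fun h => hne ?_, Or.inr (Or.inl ⟨by rw [hxv, hyw]; exact hvw, by
          rw [← h1, hE, h2]⟩)⟩
        rw [← hxv, ← hyw, h]
      · exact (hL x hx).2.2.1 w (by rw [h2, ← hE, h1]) (by rw [hxv]; exact hvw)
    · rcases hspec w with ⟨hw, h2⟩ | ⟨y, hy, hyw, h2⟩ | ⟨h2, _⟩
      · exact (hL w hw).2.2.2 v hwv (by rw [h1, h2, hE])
      · exact (hL y hy).2.2.1 v (by rw [h1, hE, h2]) (by rw [hyw]; exact hwv)
      · exact hφ.proper v w (Ψ v) h1 (by rw [h2, hE]) hvw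
  · have hE : Ψ v = Ψ w := congrArg Fin.val heq
    rcases hspec v with ⟨hv, h1⟩ | ⟨x, hx, hxv, h1⟩ | ⟨h1, h1'⟩
    · rcases hspec w with ⟨hw, h2⟩ | ⟨y, hy, hyw, h2⟩ | ⟨h2, h2'⟩
      · by_contra hvw
        have h3 : f v = f w := hφ.inj _ _ (Ψ v) h1 (by rw [h2, hE]) (by
          rw [(hL v hv).1, (hL w hw).1, hbvw])
        exact hQ v w hv hw ⟨hvw, Or.inr (Or.inr (Or.inr (Or.inr h3)))⟩
      · exfalso
        refine (hcc y hy).2 (f v) ?_ (by rw [h1, hE, h2])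
        rw [(hL v hv).1, hbvw, ← hyw, (hL y hy).1]
      · exfalso
        exact h2' v hv (hφ.inj _ _ (Ψ v) h1 (by rw [h2, hE]) (by rw [(hL v hv).1, hbvw]))
    · rcases hspec w with ⟨hw, h2⟩ | ⟨y, hy, hyw, h2⟩ | ⟨h2, h2'⟩
      · exfalso
        refine (hcc x hx).2 (f w) ?_ (by rw [h2, ← hE, h1])
        rw [(hL w hw).1, ← hbvw, ← hxv, (hL x hx).1]
      · rw [← hxv, ← hyw, hcinj x y hx hy (by
          rw [← (hL x hx).1, ← (hL y hy).1, hxv, hyw, hbvw]) (by rw [← h1, hE, h2])]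
      · exfalso
        refine (hcc x hx).2 w ?_ (by rw [h2, ← hE, h1])
        rw [← hbvw, ← hxv, (hL x hx).1]
    · rcases hspec w with ⟨hw, h2⟩ | ⟨y, hy, hyw, h2⟩ | ⟨h2, h2'⟩
      · exfalso
        exact h1' w hw (hφ.inj _ _ (Ψ v) (by rw [h2, hE]) h1 (by rw [(hL w hw).1, hbvw]))
      · exfalso
        refine (hcc y hy).2 v ?_ (by rw [h1, hE, h2])
        rw [hbvw, ← hyw, (hL y hy).1]
      · exact hφ.inj _ _ (Ψ v) h1 (by rw [h2, hE]) hbvw

end Pool.Agent.Helper88.SCN
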