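import Pool.Agent.Helper88.SCN.Const
import Pool.Agent.Helper88.SCN.Recol
import Pool.Agent.Helper88.SCN.Lists
import Pool.Agent.Helper88.SCN.Count
import Pool.Agent.Helper88.SCN.Defect

/-! # Assembly, block systems -/

set_option autoImplicit false

namespace Pool.Agent.Helper88.SCN

open Finset
open scoped Classical

theorem final {V ι : Type} [Fintype V] [Fintype ι] [Nonempty V] [Nonempty ι] {b : V → ι}
    {adj : V → V → Prop} (hS : Sys b adj) (k N m : ℕ) (ε κ η d h lam mu g1 g2 : ℝ)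
    (hC : Cst (Fintype.card V) k N m ε κ η d h lam mu g1 g2)
    (hcard : Fintype.card ι ≤ Fintype.card V)
    (hblk : ∀ i, (univ.filter (fun v => b v = i)).card = k)
    (hdeg : ∀ v, ((univ.filter (fun x => adj v x)).card : ℝ) ≤ (1 / 2 - ε / 6) * k) :
    ∃ ψ : V → Fin k, (∀ x y, adj x y → ψ x ≠ ψ y) ∧ ∀ x y, b x = b y → ψ x = ψ y → x = y := by
  have hε := hC.ε0
  have hε1 := hC.ε1
  have hN0 := hC.N0
  have hk0 : (0 : ℝ) ≤ k := Nat.cast_nonneg k
  obtain ⟨g, hg, hgdef⟩ := defective hS k N hN0 hblk (fun v => (hdeg v).trans (by nlinarith))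
  obtain ⟨φ, hφ, hvac, hR⟩ := stage1 hS k N m g ε κ η d h lam mu g1 g2 hC hg hcard hblk hdeg
  obtain ⟨cc, hcc, hcinj⟩ := assign k φ hφ hblk
  obtain ⟨hunc, hunc'⟩ := uncovered_le k N g hN0 hC.k8 φ hφ hblk
    (fun i c hc hv => (hvac i c hc hv).1) hR
  have hvacc : ∀ i, (((range k).filter (fun c => Vac b φ i c)).card : ℝ) ≤ k / N := by
    intro i
    rw [← uncovered_eq k φ hφ hblk i]
    exact hunc i
  have hdef : ∀ i c, c < k → Vac b φ i c → ∑ v ∈ univ.filter (fun v => b v = i),
        ((univ.filter (fun x => adj v x ∧ Vac b φ (b x) c)).card : ℝ) ≤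
          (k : ℝ) ^ 2 / (2 * N) := by
    intro i c hc hv
    refine le_trans (Finset.sum_le_sum fun v _ => ?_) (hgdef i)
    exact_mod_cast Finset.card_le_card (by
      intro x hx
      simp only [mem_filter, mem_univ, true_and] at hx ⊢
      refine ⟨hx.1, ?_⟩
      have h1 := (hvac i c hc hv).1.2
      have h2 := (hvac (b x) c hc hx.2).1.2
      rw [← h1, ← h2])
  let L : {x // φ x = none} → Finset V := fun x => LL b adj (12 * k / (ε * N)) φ cc x.1
  obtain ⟨f, hf, hfQ⟩ := haxell_lists (τ := {x // φ x = none}) (A := V) L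
    (fun s a t c => QQ adj φ cc s.1 a t.1 c)
    (by
      rintro s a t c ⟨h1, h2⟩
      refine ⟨h1.symm, ?_⟩
      rcases h2 with h2 | h2 | h2 | h2 | h2
      · exact Or.inl ⟨hS.symm _ _ h2.1, h2.2.symm⟩
      · exact Or.inr (Or.inl ⟨hS.symm _ _ h2.1, h2.2.symm⟩)
      · exact Or.inr (Or.inr (Or.inr (Or.inl ⟨hS.symm _ _ h2.1, h2.2⟩)))
      · exact Or.inr (Or.inr (Or.inl ⟨hS.symm _ _ h2.1, h2.2⟩))
      · exact Or.inr (Or.inr (Or.inr (Or.inr h2.symm))))
    (by
      rintro s a t c ⟨h1, _⟩ h2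
      exact h1 (congrArg Subtype.val h2))
    (ε / 12 * k)
    (by
      have : (0 : ℝ) < k := by
        have := hC.k8
        have h2 : 0 < k := by omega
        exact_mod_cast h2
      positivity)
    (fun s => LL_large hS k N ε hε hε1 hC.Nε hC.k8 φ cc hφ hblk hdeg
      (fun i c hc hv => (hvac i c hc hv).2) hdef hunc hvacc s.1 (hcc s.1 s.2))
    (by
      intro s a ha
      have h1 := QQ_few hS k N ε hε hε1 hC.Nε hC.k8 φ cc hφ hcc hcinj hunc hunc' s.1 a s.2 ha
      have h2 : ((univ.filter (fun p : {x // φ x = none} × V => p.2 ∈ L p.1 ∧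
          QQ adj φ cc s.1 a p.1.1 p.2)).card : ℝ) ≤
          ((univ.filter (fun p : V × V => φ p.1 = none ∧
            p.2 ∈ LL b adj (12 * k / (ε * N)) φ cc p.1 ∧
            QQ adj φ cc s.1 a p.1 p.2)).card : ℝ) := by
        refine Nat.cast_le.2 ?_
        exact Finset.card_le_card_of_injOn
          (fun p : {x // φ x = none} × V => ((p.1.1, p.2) : V × V))
          (by
            intro p hp
            simp only [coe_filter, mem_univ, true_and, Set.mem_ofPred_eq] at hp ⊢
            exact ⟨p.1.2, hp⟩)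
          (by
            intro p _ q _ hpq
            simp only [Prod.mk.injEq] at hpq
            exact Prod.ext (Subtype.ext hpq.1) hpq.2)
      linarith)
  refine recolour hS k (12 * k / (ε * N)) φ cc hφ hcc hcinj
    (fun x => if hx : φ x = none then f ⟨x, hx⟩ else x) ?_ ?_
  · intro x hx
    simp only [hx, dite_true]
    exact hf ⟨x, hx⟩
  · intro x y hx hy
    simp only [hx, hy, dite_true]
    exact hfQ ⟨x, hx⟩ ⟨y, hy⟩

end Pool.Agent.Helper88.SCN
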