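import Pool.Agent.Helper88.SCN.Prune

/-! # Module CNF: the conflicts of the final phase are few -/

set_option autoImplicit false

namespace Pool.Agent.Helper88.SCN

open Finset
open scoped Classical

/-- Conflicts between the choice `t` for the uncovered vertex `x` and the choice `t'` for `x'`. -/
def QQ {V : Type} (adj : V → V → Prop) (φ : V → Option ℕ) (cc : V → ℕ) (x t x' t' : V) : Prop :=
  x ≠ x' ∧ ((adj x x' ∧ φ t = φ t') ∨ (adj t t' ∧ cc x = cc x') ∨
    (adj x t' ∧ φ t = some (cc x')) ∨ (adj t x' ∧ φ t' = some (cc x)) ∨ t = t')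

theorem QQ_few {V ι : Type} [Fintype V] [Fintype ι] {b : V → ι} {adj : V → V → Prop}
    (hS : Sys b adj) (k N : ℕ) (ε : ℝ) (hε : 0 < ε) (hε1 : ε ≤ 1) (hN : 1000 / ε ^ 2 ≤ N)
    (hk : 8 * N ≤ k) (φ : V → Option ℕ) (cc : V → ℕ) (hφ : PCol b adj k φ)
    (hcc : ∀ x, φ x = none → cc x < k ∧ Vac b φ (b x) (cc x))
    (hcinj : ∀ x y, φ x = none → φ y = none → b x = b y → cc x = cc y → x = y)
    (hunc : ∀ i, ((univ.filter (fun x => b x = i ∧ φ x = none)).card : ℝ) ≤ k / N)
    (hunc' : ∀ v, ((univ.filter (fun x => adj v x ∧ φ x = none)).card : ℝ) ≤ k / N)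
    (x t : V) (hx : φ x = none) (ht : t ∈ LL b adj (12 * k / (ε * N)) φ cc x) :
    ((univ.filter (fun p : V × V => φ p.1 = none ∧
      p.2 ∈ LL b adj (12 * k / (ε * N)) φ cc p.1 ∧ QQ adj φ cc x t p.1 p.2)).card : ℝ) ≤
      ε / 24 * k := by
  have hNr : (0 : ℝ) < N := lt_of_lt_of_le (by positivity) hN
  have hkr : (0 : ℝ) < k := by
    have : (8 : ℝ) * N ≤ k := by exact_mod_cast hk
    linarith
  set q : ℝ := 12 * k / (ε * N) with hqdef
  -- properties of the lists
  have hL : ∀ y s, s ∈ LL b adj q φ cc y → b s = b y ∧ φ s ≠ none := by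
    intro y s hs
    have h := (mem_filter.1 hs).2
    exact ⟨h.1, h.2.1⟩
  obtain ⟨-, -, ht1, ht2, -, -, ht5, ht6⟩ :
      True ∧ True ∧ b t = b x ∧ φ t ≠ none ∧ True ∧ True ∧
      ((univ.filter (fun z => adj t z ∧ Vac b φ (b z) (cc x))).card : ℝ) ≤ q ∧
      ((univ.filter (fun z => adj x z ∧ ∀ c, φ t = some c → Vac b φ (b z) c)).card : ℝ) ≤ q := by
    have h := (mem_filter.1 ht).2
    exact ⟨trivial, trivial, h.1, h.2.1, trivial, trivial, h.2.2.2.2.1, h.2.2.2.2.2⟩
  -- the five types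
  set P1 : Finset (V × V) := univ.filter (fun p : V × V => φ p.1 = none ∧
    p.2 ∈ LL b adj q φ cc p.1 ∧ adj x p.1 ∧ φ t = φ p.2) with hP1
  set P2 : Finset (V × V) := univ.filter (fun p : V × V => φ p.1 = none ∧
    p.2 ∈ LL b adj q φ cc p.1 ∧ adj t p.2 ∧ cc x = cc p.1) with hP2
  set P3 : Finset (V × V) := univ.filter (fun p : V × V => φ p.1 = none ∧
    p.2 ∈ LL b adj q φ cc p.1 ∧ adj x p.2 ∧ φ t = some (cc p.1)) with hP3
  set P4 : Finset (V × V) := univ.filter (fun p : V × V => φ p.1 = none ∧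
    p.2 ∈ LL b adj q φ cc p.1 ∧ adj t p.1 ∧ φ p.2 = some (cc x)) with hP4
  set P5 : Finset (V × V) := univ.filter (fun p : V × V => φ p.1 = none ∧
    p.2 ∈ LL b adj q φ cc p.1 ∧ t = p.2) with hP5
  have h1 : (P1.card : ℝ) ≤ k / N := by
    refine le_trans ?_ (hunc' x)
    have : P1.card ≤ (univ.filter (fun y => adj x y ∧ φ y = none)).card := by
      refine card_le_card_of_injOn Prod.fst ?_ ?_
      · intro p hp
        have h := (mem_filter.1 hp).2
        rw [mem_coe, mem_filter]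
        exact ⟨mem_univ _, h.2.2.1, h.1⟩
      · intro p hp p' hp' hpp
        have h := (mem_filter.1 hp).2
        have h' := (mem_filter.1 hp').2
        obtain ⟨c, hc⟩ := Option.ne_none_iff_exists'.1 ht2
        refine Prod.ext hpp (hφ.inj p.2 p'.2 c ?_ ?_ ?_)
        · rw [← h.2.2.2, hc]
        · rw [← h'.2.2.2, hc]
        · rw [(hL _ _ h.2.1).1, (hL _ _ h'.2.1).1, hpp]
    exact_mod_cast this
  have h2 : (P2.card : ℝ) ≤ q := by
    refine le_trans ?_ ht5
    have : P2.card ≤ (univ.filter (fun z => adj t z ∧ Vac b φ (b z) (cc x))).card := by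
      refine card_le_card_of_injOn Prod.snd ?_ ?_
      · intro p hp
        have h := (mem_filter.1 hp).2
        rw [mem_coe, mem_filter]
        refine ⟨mem_univ _, h.2.2.1, ?_⟩
        rw [(hL _ _ h.2.1).1, h.2.2.2]
        exact (hcc p.1 h.1).2
      · intro p hp p' hp' hpp
        have h := (mem_filter.1 hp).2
        have h' := (mem_filter.1 hp').2
        refine Prod.ext (hcinj p.1 p'.1 h.1 h'.1 ?_ ?_) hpp
        · rw [← (hL _ _ h.2.1).1, ← (hL _ _ h'.2.1).1, hpp]
        · rw [← h.2.2.2, ← h'.2.2.2]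
    exact_mod_cast this
  have h3 : (P3.card : ℝ) ≤ q := by
    refine le_trans ?_ ht6
    have : P3.card ≤
        (univ.filter (fun z => adj x z ∧ ∀ c, φ t = some c → Vac b φ (b z) c)).card := by
      refine card_le_card_of_injOn Prod.snd ?_ ?_
      · intro p hp
        have h := (mem_filter.1 hp).2
        rw [mem_coe, mem_filter]
        refine ⟨mem_univ _, h.2.2.1, ?_⟩
        intro c hc
        rw [h.2.2.2] at hc
        rw [(hL _ _ h.2.1).1, ← Option.some.inj hc]
        exact (hcc p.1 h.1).2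
      · intro p hp p' hp' hpp
        have h := (mem_filter.1 hp).2
        have h' := (mem_filter.1 hp').2
        refine Prod.ext (hcinj p.1 p'.1 h.1 h'.1 ?_ ?_) hpp
        · rw [← (hL _ _ h.2.1).1, ← (hL _ _ h'.2.1).1, hpp]
        · exact Option.some.inj (h.2.2.2.symm.trans h'.2.2.2)
    exact_mod_cast this
  have h4 : (P4.card : ℝ) ≤ k / N := by
    refine le_trans ?_ (hunc' t)
    have : P4.card ≤ (univ.filter (fun y => adj t y ∧ φ y = none)).card := by
      refine card_le_card_of_injOn Prod.fst ?_ ?_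
      · intro p hp
        have h := (mem_filter.1 hp).2
        rw [mem_coe, mem_filter]
        exact ⟨mem_univ _, h.2.2.1, h.1⟩
      · intro p hp p' hp' hpp
        have h := (mem_filter.1 hp).2
        have h' := (mem_filter.1 hp').2
        refine Prod.ext hpp (hφ.inj p.2 p'.2 (cc x) h.2.2.2 h'.2.2.2 ?_)
        rw [(hL _ _ h.2.1).1, (hL _ _ h'.2.1).1, hpp]
    exact_mod_cast this
  have h5 : (P5.card : ℝ) ≤ k / N := by
    refine le_trans ?_ (hunc (b t))
    have : P5.card ≤ (univ.filter (fun y => b y = b t ∧ φ y = none)).card := by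
      refine card_le_card_of_injOn Prod.fst ?_ ?_
      · intro p hp
        have h := (mem_filter.1 hp).2
        rw [mem_coe, mem_filter]
        refine ⟨mem_univ _, ?_, h.1⟩
        rw [h.2.2, (hL _ _ h.2.1).1]
      · intro p hp p' hp' hpp
        have h := (mem_filter.1 hp).2
        have h' := (mem_filter.1 hp').2
        exact Prod.ext hpp (h.2.2.symm.trans h'.2.2)
    exact_mod_cast this
  have hsub : univ.filter (fun p : V × V => φ p.1 = none ∧
      p.2 ∈ LL b adj q φ cc p.1 ∧ QQ adj φ cc x t p.1 p.2) ⊆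
      P1 ∪ (P2 ∪ (P3 ∪ (P4 ∪ P5))) := by
    intro p hp
    obtain ⟨g1, g2, -, g3⟩ := (mem_filter.1 hp).2
    simp only [mem_union]
    rcases g3 with g3 | g3 | g3 | g3 | g3
    · exact Or.inl (mem_filter.2 ⟨mem_univ _, g1, g2, g3⟩)
    · exact Or.inr (Or.inl (mem_filter.2 ⟨mem_univ _, g1, g2, g3⟩))
    · exact Or.inr (Or.inr (Or.inl (mem_filter.2 ⟨mem_univ _, g1, g2, g3⟩)))
    · exact Or.inr (Or.inr (Or.inr (Or.inl (mem_filter.2 ⟨mem_univ _, g1, g2, g3⟩))))
    · exact Or.inr (Or.inr (Or.inr (Or.inr (mem_filter.2 ⟨mem_univ _, g1, g2, g3⟩))))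
  have hcard : (univ.filter (fun p : V × V => φ p.1 = none ∧
      p.2 ∈ LL b adj q φ cc p.1 ∧ QQ adj φ cc x t p.1 p.2)).card ≤
      P1.card + (P2.card + (P3.card + (P4.card + P5.card))) := by
    refine (card_le_card hsub).trans ?_
    refine (card_union_le _ _).trans (Nat.add_le_add_left ?_ _)
    refine (card_union_le _ _).trans (Nat.add_le_add_left ?_ _)
    refine (card_union_le _ _).trans (Nat.add_le_add_left ?_ _)
    exact card_union_le _ _
  have hcard' : ((univ.filter (fun p : V × V => φ p.1 = none ∧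
      p.2 ∈ LL b adj q φ cc p.1 ∧ QQ adj φ cc x t p.1 p.2)).card : ℝ) ≤
      (P1.card : ℝ) + ((P2.card : ℝ) + ((P3.card : ℝ) + ((P4.card : ℝ) + P5.card))) := by
    exact_mod_cast hcard
  have hfin : 3 * ((k : ℝ) / N) + 2 * q ≤ ε / 24 * k := by
    have e1 : 3 * ((k : ℝ) / N) + 2 * q = (3 * ε + 24) / (ε * N) * k := by
      rw [hqdef]
      field_simp
      norm_num
    rw [e1]
    refine mul_le_mul_of_nonneg_right ?_ hkr.le
    rw [div_le_iff₀ (by positivity)]
    have e2 : 1000 ≤ N * ε ^ 2 := by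
      rwa [div_le_iff₀ (by positivity)] at hN
    nlinarith
  linarith

end Pool.Agent.Helper88.SCN
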