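import Pool.Agent.Helper88.SCN.Step

/-! # Module CST: the constants exist -/

set_option autoImplicit false

namespace Pool.Agent.Helper88.SCN

theorem consts (ε : ℝ) (hε : 0 < ε) (hε1 : ε ≤ 1) :
    ∃ C : ℝ, 0 < C ∧ ∀ n k : ℕ, 0 < n → k ≤ n → C * Real.log (2 * n) ^ 2 ≤ k →
      ∃ (N m : ℕ) (κ η d h lam mu g1 g2 : ℝ), Cst n k N m ε κ η d h lam mu g1 g2 := by
  obtain ⟨N, hN⟩ := exists_nat_ge (1000 / ε ^ 2)
  have hN1 : (1000 : ℝ) ≤ N := by
    refine le_trans ?_ hN
    rw [le_div_iff₀ (by positivity)]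
    nlinarith [pow_le_one₀ (n := 2) hε.le hε1]
  have hN0 : (0 : ℝ) < N := by linarith
  have hN2 : 1000 ≤ ε ^ 2 * N := by
    rw [div_le_iff₀ (by positivity)] at hN
    linarith
  set κ : ℝ := ε / 20 / (4 * N) with hκ
  have hκ0 : 0 < κ := by positivity
  have hκ1 : κ ≤ 1 := by
    rw [hκ, div_div, div_le_one (by positivity)]
    nlinarith
  set η : ℝ := κ * ε / 400 with hη
  have hη0 : 0 < η := by positivity
  have hη1 : η ≤ ε / 400 := by
    rw [hη]
    have : κ * ε ≤ 1 * ε := mul_le_mul_of_nonneg_right hκ1 hε.le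
    linarith
  have hη2 : η ≤ 1 := by linarith
  set mu : ℝ := ε / 20 / (16 * N) with hmu
  have hmu0 : 0 < mu := by positivity
  set c1 : ℝ := 49 * 14400 * 16 / (ε ^ 2 * κ ^ 3 * η ^ 2) with hc1
  set c2 : ℝ := 32 / (η ^ 2 * κ) with hc2
  set c3 : ℝ := 2 / mu ^ 2 with hc3
  set c4 : ℝ := 32 * N with hc4
  set c5 : ℝ := 8 / κ with hc5
  have h1 : 0 < c1 := by positivity
  have h2 : 0 < c2 := by positivity
  have h3 : 0 < c3 := by positivity
  have h4 : 0 < c4 := by positivity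
  have h5 : 0 < c5 := by positivity
  refine ⟨c1 + c2 + c3 + c4 + c5, by positivity, fun n k hn hkn hk => ?_⟩
  have hn1 : (1 : ℝ) ≤ n := by exact_mod_cast hn
  set L : ℝ := Real.log (2 * n) with hL
  have hL2 : 1 / 2 ≤ L := by
    have h6 : Real.log 2 ≤ L := Real.log_le_log (by norm_num) (by linarith)
    have := Real.log_two_gt_d9
    linarith
  have hL0 : 0 < L := by linarith
  have hLL : L / 2 ≤ L ^ 2 := by nlinarith only [hL2, hL0]
  have hL4 : 1 / 4 ≤ L ^ 2 := by nlinarith only [hL2, hL0]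
  have hL2' : 0 < L ^ 2 := by positivity
  -- consequences of the lower bound on `k`
  have hk' : c1 * L ^ 2 + c2 * L ^ 2 + c3 * L ^ 2 + c4 * L ^ 2 + c5 * L ^ 2 ≤ k := by
    refine le_trans (le_of_eq ?_) hk
    ring
  have k1 : c1 * L ^ 2 ≤ k := by
    linarith [mul_pos h2 hL2', mul_pos h3 hL2', mul_pos h4 hL2', mul_pos h5 hL2']
  have k2 : c2 * L ^ 2 ≤ k := by
    linarith [mul_pos h1 hL2', mul_pos h3 hL2', mul_pos h4 hL2', mul_pos h5 hL2']
  have k3 : c3 * L ^ 2 ≤ k := by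
    linarith [mul_pos h1 hL2', mul_pos h2 hL2', mul_pos h4 hL2', mul_pos h5 hL2']
  have k4 : c4 * L ^ 2 ≤ k := by
    linarith [mul_pos h1 hL2', mul_pos h2 hL2', mul_pos h3 hL2', mul_pos h5 hL2']
  have k5 : c5 * L ^ 2 ≤ k := by
    linarith [mul_pos h1 hL2', mul_pos h2 hL2', mul_pos h3 hL2', mul_pos h4 hL2']
  have k8 : (8 * N : ℝ) ≤ k := by
    have : c4 * (1 / 4) ≤ c4 * L ^ 2 := mul_le_mul_of_nonneg_left hL4 h4.le
    rw [hc4] at this k4
    linarith
  have hk0 : (0 : ℝ) < k := by linarith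
  have kκ : 2 ≤ κ * k := by
    have h6 : c5 * (1 / 4) ≤ c5 * L ^ 2 := mul_le_mul_of_nonneg_left hL4 h5.le
    have h7 : c5 * κ = 8 := by rw [hc5]; field_simp
    have h8 : c5 * (1 / 4) * κ ≤ k * κ := mul_le_mul_of_nonneg_right (h6.trans k5) hκ0.le
    linarith
  have hηκ : 0 < η ^ 2 * κ := by positivity
  have hηκ1 : η ^ 2 * κ ≤ 1 := by
    have : η ^ 2 ≤ 1 := pow_le_one₀ hη0.le hη2
    exact (mul_le_mul this hκ1 hκ0.le zero_le_one).trans (by norm_num)
  set t : ℝ := η ^ 2 * κ * k / (16 * L) with ht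
  have ht0 : 0 < t := by positivity
  have ht1 : 1 ≤ t := by
    rw [ht, le_div_iff₀ (by positivity)]
    have h6 : c2 * (L / 2) ≤ c2 * L ^ 2 := mul_le_mul_of_nonneg_left hLL h2.le
    have h7 : c2 * (η ^ 2 * κ) = 32 := by rw [hc2]; field_simp
    have h8 : c2 * (L / 2) * (η ^ 2 * κ) ≤ k * (η ^ 2 * κ) :=
      mul_le_mul_of_nonneg_right (h6.trans k2) hηκ.le
    have h9 : c2 * (L / 2) * (η ^ 2 * κ) = 16 * L := by
      rw [mul_right_comm, h7]
      ring
    linarith
  set m : ℕ := ⌊t⌋₊ with hm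
  have hm1 : 1 ≤ m := Nat.le_floor (by exact_mod_cast ht1)
  have hm1' : (1 : ℝ) ≤ m := by exact_mod_cast hm1
  have hmt : (m : ℝ) ≤ t := Nat.floor_le ht0.le
  have hmt' : t < m + 1 := Nat.lt_floor_add_one t
  have hmt2 : t ≤ 2 * m := by linarith
  have htk : t ≤ k := by
    rw [ht, div_le_iff₀ (by positivity)]
    have h6 : (1 : ℝ) ≤ 16 * L := by linarith
    linarith [mul_le_mul_of_nonneg_right hηκ1 hk0.le, mul_le_mul_of_nonneg_left h6 hk0.le]
  set h : ℝ := 16 * L / (η ^ 2 * κ) with hh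
  have hh0 : 0 < h := by positivity
  have hht : h * t = k := by
    rw [hh, ht]
    field_simp
  set lam : ℝ := ε * κ ^ 2 * k / (49 * 120 * h) with hlam
  have hlam0 : 0 < lam := by positivity
  refine ⟨N, m, κ, η, 2 * (2 * η) / (κ * k), h, lam, mu, 49 * h * lam ^ 2 / (κ * k) ^ 2, mu ^ 2,
    hε, hε1, by exact_mod_cast hN0, hN, hm1, by exact_mod_cast k8, hκ, kκ, hη0, by linarith,
    rfl, ?_, ?_, ?_, ?_, hlam0, ?_, rfl, ?_, hmu, rfl, ?_⟩
  · -- small
    have h6 : 2 * (2 * η) / (κ * k) * k = ε / 100 := by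
      rw [hη]
      field_simp
      norm_num
    have hN3 : 1000 ≤ ε * N := by
      have h9 : ε ^ 2 ≤ ε := by nlinarith only [hε, hε1]
      exact hN2.trans (mul_le_mul_of_nonneg_right h9 hN0.le)
    have h7 : 2 / (N : ℝ) ≤ ε / 500 := by
      rw [div_le_div_iff₀ hN0 (by norm_num)]
      linarith
    have h8 : 4 / (k : ℝ) ≤ ε / 500 := by
      rw [div_le_div_iff₀ hk0 (by norm_num)]
      linarith [mul_le_mul_of_nonneg_left k8 hε.le]
    rw [h6]
    linarith
  · -- big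
    have h6 : 4 * L ≤ η ^ 2 * κ * k / (4 * m) := by
      rw [le_div_iff₀ (by positivity)]
      have h7 : t * (16 * L) = η ^ 2 * κ * k := by
        rw [ht]
        field_simp
      linarith [mul_le_mul_of_nonneg_right hmt hL0.le]
    have h7 : Real.exp (-(η ^ 2 * κ * k / (4 * m))) ≤ Real.exp (-(4 * L)) :=
      Real.exp_le_exp.2 (by linarith)
    have h8 : Real.exp L = 2 * n := by
      rw [hL, Real.exp_log (by positivity)]
    have h9 : 2 * (m : ℝ) * ((n : ℝ) + n) ≤ Real.exp (2 * L) := by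
      rw [show 2 * L = L + L by ring, Real.exp_add, h8]
      have h10 : (m : ℝ) ≤ n := hmt.trans (htk.trans (by exact_mod_cast hkn))
      linarith [mul_le_mul_of_nonneg_right h10 (by linarith : (0 : ℝ) ≤ n)]
    calc 2 * (m : ℝ) * ((n : ℝ) + n) * Real.exp (-(η ^ 2 * κ * k / (4 * m)))
        ≤ Real.exp (2 * L) * Real.exp (-(4 * L)) :=
          mul_le_mul h9 h7 (Real.exp_pos _).le (Real.exp_pos _).le
      _ = Real.exp (-(2 * L)) := by rw [← Real.exp_add]; ring_nf
      _ < 1 := by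
          rw [Real.exp_lt_one_iff]
          linarith
  · -- hh
    rw [div_le_iff₀ (by positivity), ← hht]
    exact mul_le_mul_of_nonneg_left hmt2 hh0.le
  · -- h1
    rw [hh, le_div_iff₀ hηκ]
    linarith
  · -- lam1
    have h6 : lam * (7 * h / (κ * k)) = ε * κ / 840 := by
      rw [hlam]
      field_simp
      norm_num
    rw [h6]
    have h7 : ε * κ ≤ 1 * 1 := mul_le_mul hε1 hκ1 hκ0.le zero_le_one
    linarith
  · -- dev
    have h6 : (k : ℝ) * (49 * h * lam ^ 2 / (κ * k) ^ 2) = lam * (ε / 120) := by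
      have h7 : 49 * h * lam = ε * κ ^ 2 * k / 120 := by
        rw [hlam]
        field_simp
      have h8 : (k : ℝ) * (49 * h * lam ^ 2 / (κ * k) ^ 2) =
          (49 * h * lam) * lam / (κ ^ 2 * k) := by
        field_simp
      rw [h8, h7]
      field_simp
    have h9 : L ≤ lam * (ε / 120) := by
      have h10 : lam * (ε / 120) = k * L / (c1 * L ^ 2) := by
        rw [hlam, hh, hc1]
        field_simp
        norm_num
      rw [h10, le_div_iff₀ (by positivity)]
      linarith [mul_le_mul_of_nonneg_right k1 hL0.le]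
    rw [h6]
    linarith
  · -- logn
    have h6 : c3 * (L / 2) ≤ c3 * L ^ 2 := mul_le_mul_of_nonneg_left hLL h3.le
    have h7 : c3 * mu ^ 2 = 2 := by rw [hc3]; field_simp
    have h8 : c3 * (L / 2) * mu ^ 2 ≤ k * mu ^ 2 :=
      mul_le_mul_of_nonneg_right (h6.trans k3) (by positivity)
    have h9 : c3 * (L / 2) * mu ^ 2 = L := by
      rw [mul_right_comm, h7]
      ring
    linarith

end Pool.Agent.Helper88.SCN
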