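import Pool.Agent.Helper88.SCN.Defs

/-! # Module DST: one step of the second exponential functional -/

set_option autoImplicit false

namespace Pool.Agent.Helper88.SCN

open Finset
open scoped Classical

private theorem dst_u {V ι : Type} [Fintype V] {b : V → ι} (X : Finset V) (i : ι) (T : ι → V)
    (vac : ι → Prop) (hb : b (T i) = i) (hX : T i ∈ X) :
    (u b (next b X T vac) i : ℝ) = u b X i - (if vac i then 0 else 1) := by
  by_cases h : vac i
  · rw [if_pos h, sub_zero]
    congr 1
    unfold u
    congr 1
    ext x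
    simp only [next, mem_filter]
    constructor
    · rintro ⟨⟨h1, _⟩, h2⟩
      exact ⟨h1, h2⟩
    · rintro ⟨h1, h2⟩
      refine ⟨⟨h1, ?_⟩, h2⟩
      rw [h2]
      exact fun h3 => h3.2 h
  · rw [if_neg h]
    have h1 : X.filter (fun x => b x = i) =
        insert (T i) ((next b X T vac).filter (fun x => b x = i)) := by
      ext x
      simp only [next, mem_filter, mem_insert]
      constructor
      · rintro ⟨h1, h2⟩
        by_cases hx : x = T i
        · exact Or.inl hx
        · refine Or.inr ⟨⟨h1, ?_⟩, h2⟩
          rw [h2]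
          exact fun h3 => hx h3.1.symm
      · rintro (rfl | ⟨⟨h1, _⟩, h2⟩)
        · exact ⟨hX, hb⟩
        · exact ⟨h1, h2⟩
    have h2 : T i ∉ (next b X T vac).filter (fun x => b x = i) := by
      simp only [next, mem_filter]
      rintro ⟨⟨_, h3⟩, _⟩
      apply h3
      rw [hb]
      exact ⟨rfl, h⟩
    unfold u
    rw [h1, card_insert_of_notMem h2]
    push_cast
    ring

private theorem dst_K (k N : ℕ) {ι : Type} (g : ι → ℕ) (c : ℕ) (i : ι) :
    (K k N g (c + 1) i : ℝ) = K k N g c i + (if cand k N g c i then 1 else 0) := by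
  unfold K
  rw [range_add_one, filter_insert]
  by_cases h : cand k N g c i
  · rw [if_pos h, if_pos h, card_insert_of_notMem]
    · push_cast
      ring
    · simp
  · rw [if_neg h, if_neg h, add_zero]

theorem d_step {V ι : Type} [Fintype V] [Fintype ι] {b : V → ι} (k N : ℕ) (g : ι → ℕ)
    (β mu : ℝ) (c : ℕ) (X : Finset V) (i : ι) (vac : (ι → V) → ι → Prop) (ν : (ι → V) → ℝ)
    (hν : IsProb ν) (hβ : 0 ≤ β) (hβ1 : β ≤ 1) (hmu : 0 ≤ mu) (hmu1 : mu ≤ 1)
    (hT : ∀ T, ν T ≠ 0 → (∀ i, b (T i) = i) ∧ ∀ i, T i ∈ X)
    (hvac : ∀ T i, vac T i → cand k N g c i)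
    (hp : cand k N g c i → β ≤ Pr ν (fun T => vac T i)) :
    Ex ν (fun T => Real.exp (mu * D b k N g β (c + 1) (next b X T (vac T)) i)) ≤
      Real.exp (mu * D b k N g β c X i) * Real.exp (mu ^ 2) := by
  have hD : ∀ T, ν T ≠ 0 → D b k N g β (c + 1) (next b X T (vac T)) i =
      D b k N g β c X i + β * (if cand k N g c i then 1 else 0) -
        (if vac T i then 1 else 0) := by
    intro T h
    obtain ⟨h1, h2⟩ := hT T h
    unfold D
    rw [dst_K, dst_u X i T (vac T) (h1 i) (h2 i)]
    by_cases hv : vac T i
    · rw [if_pos hv, if_pos hv]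
      push_cast
      ring
    · rw [if_neg hv, if_neg hv]
      push_cast
      ring
  by_cases hc : cand k N g c i
  · have hp' := hp hc
    set p := Pr ν (fun T => vac T i) with hpdef
    set D0 := D b k N g β c X i with hD0
    have e1 : Ex ν (fun T => Real.exp (mu * D b k N g β (c + 1) (next b X T (vac T)) i)) =
        Real.exp (mu * (D0 + β)) * (1 - (1 - Real.exp (-mu)) * p) := by
      have e2 : ∀ T, ν T * Real.exp (mu * D b k N g β (c + 1) (next b X T (vac T)) i) =
          Real.exp (mu * (D0 + β)) * (ν T - (1 - Real.exp (-mu)) *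
            (ν T * (if vac T i then 1 else 0))) := by
        intro T
        by_cases h : ν T = 0
        · rw [h]; ring
        · rw [hD T h, if_pos hc]
          by_cases hv : vac T i
          · rw [if_pos hv]
            have : mu * (D0 + β * 1 - 1) = mu * (D0 + β) + (-mu) := by ring
            rw [this, Real.exp_add]
            ring
          · rw [if_neg hv]
            have : mu * (D0 + β * 1 - 0) = mu * (D0 + β) := by ring
            rw [this]
            ring
      unfold Ex
      rw [sum_congr rfl fun T _ => e2 T, ← mul_sum, sum_sub_distrib, ← mul_sum, hν.sum]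
      rfl
    rw [e1]
    have h1 : Real.exp (-mu) ≤ 1 - mu + mu ^ 2 := by
      have h := Real.abs_exp_sub_one_sub_id_le (x := -mu) (by rw [abs_neg, abs_of_nonneg hmu]; exact hmu1)
      have := (abs_le.1 h).2
      nlinarith
    have h2 : 0 ≤ 1 - Real.exp (-mu) := by
      have : Real.exp (-mu) ≤ 1 := by
        rw [Real.exp_le_one_iff]
        linarith
      linarith
    have h3 : 1 - (1 - Real.exp (-mu)) * p ≤ Real.exp (-β * mu + β * mu ^ 2) := by
      have h4 : 1 - (1 - Real.exp (-mu)) * p ≤ 1 - (1 - Real.exp (-mu)) * β := by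
        have := mul_le_mul_of_nonneg_left hp' h2
        linarith
      have h5 : 1 - (1 - Real.exp (-mu)) * β ≤ 1 + (-β * mu + β * mu ^ 2) := by
        have := mul_le_mul_of_nonneg_right h1 hβ
        nlinarith
      have h6 := Real.add_one_le_exp (-β * mu + β * mu ^ 2)
      linarith
    calc Real.exp (mu * (D0 + β)) * (1 - (1 - Real.exp (-mu)) * p)
        ≤ Real.exp (mu * (D0 + β)) * Real.exp (-β * mu + β * mu ^ 2) :=
          mul_le_mul_of_nonneg_left h3 (Real.exp_nonneg _)
      _ = Real.exp (mu * D0) * Real.exp (β * mu ^ 2) := by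
          rw [← Real.exp_add, ← Real.exp_add]
          congr 1
          ring
      _ ≤ Real.exp (mu * D0) * Real.exp (mu ^ 2) := by
          apply mul_le_mul_of_nonneg_left _ (Real.exp_nonneg _)
          apply Real.exp_le_exp.2
          nlinarith [sq_nonneg mu]
  · have e1 : Ex ν (fun T => Real.exp (mu * D b k N g β (c + 1) (next b X T (vac T)) i)) =
        Real.exp (mu * D b k N g β c X i) := by
      have e2 : ∀ T, ν T * Real.exp (mu * D b k N g β (c + 1) (next b X T (vac T)) i) =
          ν T * Real.exp (mu * D b k N g β c X i) := by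
        intro T
        by_cases h : ν T = 0
        · rw [h]; ring
        · rw [hD T h, if_neg hc, if_neg (fun h' => hc (hvac T i h'))]
          congr 2
          ring
      unfold Ex
      rw [sum_congr rfl fun T _ => e2 T, ← sum_mul, hν.sum, one_mul]
    rw [e1]
    have h1 : 1 ≤ Real.exp (mu ^ 2) := Real.one_le_exp (sq_nonneg mu)
    nlinarith [Real.exp_nonneg (mu * D b k N g β c X i)]

end Pool.Agent.Helper88.SCN
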