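import Mathlib

/-!
# Strong colouring with `(2 + ε) Δ` colours when `Δ ≥ C log² n`: definitions

`V` is the vertex set, `b : V → ι` gives the block of a vertex, `adj` is the adjacency relation
(edges inside blocks are deleted beforehand).
-/

set_option autoImplicit false

namespace Pool.Agent.Helper88.SCN

open Finset
open scoped Classical

/-- Symmetric adjacency without edges inside blocks. -/
structure Sys {V ι : Type} (b : V → ι) (adj : V → V → Prop) : Prop where
  symm : ∀ x y, adj x y → adj y x
  ne : ∀ x y, adj x y → b x ≠ b y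

/-- `T` is an independent transversal. -/
def IsIT {V ι : Type} (b : V → ι) (adj : V → V → Prop) (T : ι → V) : Prop :=
  (∀ i, b (T i) = i) ∧ ∀ i j, ¬ adj (T i) (T j)

/-- A finite probability distribution. -/
structure IsProb {Ω : Type} [Fintype Ω] (ν : Ω → ℝ) : Prop where
  nonneg : ∀ T, 0 ≤ ν T
  sum : ∑ T, ν T = 1

/-- Expectation. -/
noncomputable def Ex {Ω : Type} [Fintype Ω] (ν : Ω → ℝ) (f : Ω → ℝ) : ℝ := ∑ T, ν T * f T

/-- Probability. -/
noncomputable def Pr {Ω : Type} [Fintype Ω] (ν : Ω → ℝ) (E : Ω → Prop) : ℝ :=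
  Ex ν (fun T => if E T then 1 else 0)

section

variable {V ι : Type} [Fintype V] [Fintype ι]

/-- Number of elements of `X` in the block `i`. -/
noncomputable def u (b : V → ι) (X : Finset V) (i : ι) : ℕ := (X.filter (fun x => b x = i)).card

/-- Weighted number of neighbours in `X`: every `x` counts `1 / (number of elements of X in the
block of x)`. -/
noncomputable def R (b : V → ι) (adj : V → V → Prop) (X : Finset V) (v : V) : ℝ :=
  ∑ x ∈ X.filter (fun x => adj v x), 1 / (u b X (b x) : ℝ)

/-- Number of blocks `i` such that `T i` is a neighbour of `v`. -/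
noncomputable def hits (adj : V → V → Prop) (T : ι → V) (v : V) : ℕ :=
  (univ.filter (fun i => adj v (T i))).card

/-- In step `c` the block `i` may be left out. -/
def cand (k N : ℕ) (g : ι → ℕ) (c : ℕ) (i : ι) : Prop := 2 * c < k ∧ c % N = g i

/-- At least `(1/2 + β) k` vertices of the block `i` have no neighbour in `T`. -/
def good (b : V → ι) (adj : V → V → Prop) (k : ℕ) (β : ℝ) (T : ι → V) (i : ι) : Prop :=
  (1 / 2 + β) * k ≤ ((univ.filter (fun v => b v = i ∧ ∀ j, ¬ adj v (T j))).card : ℝ)

/-- Number of steps before `c` in which the block `i` may be left out. -/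
noncomputable def K (k N : ℕ) (g : ι → ℕ) (c : ℕ) (i : ι) : ℕ :=
  ((range c).filter (fun c' => cand k N g c' i)).card

/-- The factor accounting for the possible drift up to step `c`. -/
noncomputable def B (k N : ℕ) (g : ι → ℕ) (d : ℝ) (c : ℕ) (i : ι) : ℝ :=
  (1 + 4 / (k : ℝ)) ^ (K k N g c i) * (1 + d) ^ c

/-- The first functional: `Σ 1 / (u B)` over the neighbours of `v` in `X`. -/
noncomputable def Psi (b : V → ι) (adj : V → V → Prop) (k N : ℕ) (g : ι → ℕ) (d : ℝ) (c : ℕ)
    (X : Finset V) (v : V) : ℝ :=
  ∑ x ∈ X.filter (fun x => adj v x), 1 / ((u b X (b x) : ℝ) * B k N g d c (b x))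

/-- The second functional: expected minus actual number of blocks left out. -/
noncomputable def D (b : V → ι) (k N : ℕ) (g : ι → ℕ) (β : ℝ) (c : ℕ) (X : Finset V)
    (i : ι) : ℝ :=
  β * K k N g c i - ((u b X i : ℝ) + c - k)

/-- The unused vertices after a step with transversal `T`, in which the blocks with `vac i` are
left out. -/
noncomputable def next (b : V → ι) (X : Finset V) (T : ι → V) (vac : ι → Prop) : Finset V :=
  X.filter (fun x => ¬ (T (b x) = x ∧ ¬ vac (b x)))

/-- The potential. -/
noncomputable def Phi (b : V → ι) (adj : V → V → Prop) (k N : ℕ) (g : ι → ℕ)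
    (d β ψ lam mu g1 g2 : ℝ) (c : ℕ) (X : Finset V) : ℝ :=
  (∑ v, Real.exp (lam * (Psi b adj k N g d c X v - ψ) - c * g1)) / (Fintype.card V : ℝ) +
  (∑ i, Real.exp (mu * D b k N g β c X i - c * g2)) / (Fintype.card ι : ℝ)

end

end Pool.Agent.Helper88.SCN
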