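import Pool.Agent.Helper88.SCN.Weighted

/-! # Module DIS: a distribution on independent transversals with prescribed marginals -/

set_option autoImplicit false

namespace Pool.Agent.Helper88.SCN

open Finset
open scoped Classical

private lemma dist_sum_T {V ι : Type} [Fintype V] [Fintype ι] {b : V → ι} {T : ι → V}
    (hT : ∀ i, b (T i) = i) (g : V → ℝ) :
    ∑ x, (if T (b x) = x then g x else 0) = ∑ i, g (T i) := by
  rw [← Finset.sum_filter]
  refine Finset.sum_nbij' b T ?_ ?_ ?_ ?_ ?_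
  · intro x _; simp
  · intro i _; simp [hT]
  · intro x hx; exact (Finset.mem_filter.mp hx).2
  · intro i _; exact hT i
  · intro x hx; rw [(Finset.mem_filter.mp hx).2]

/-- The indicator vector of a transversal. -/
private noncomputable def distE {V ι : Type} (b : V → ι) (T : ι → V) : V → ℝ :=
  fun x => if T (b x) = x then 1 else 0

private lemma dist_mem_hull {V ι : Type} [Fintype V] [Fintype ι] {b : V → ι} {adj : V → V → Prop}
    (hS : Sys b adj) (y : V → ℝ) (hy0 : ∀ x, 0 ≤ y x)
    (hy1 : ∀ i, ∑ x ∈ univ.filter (fun x => b x = i), y x = 1)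
    (hyN : ∀ z, ∑ x ∈ univ.filter (fun x => adj z x), y x ≤ 1 / 2) :
    y ∈ convexHull ℝ (distE b '' {T | IsIT b adj T}) := by
  by_contra hy
  have hfin : (distE b '' {T | IsIT b adj T}).Finite := Set.Finite.image _ (Set.toFinite _)
  have hcl : IsClosed (convexHull ℝ (distE b '' {T | IsIT b adj T})) := hfin.isClosed_convexHull ℝ
  obtain ⟨f, c, hf1, hf2⟩ := geometric_hahn_banach_closed_point
    (convex_convexHull ℝ (distE b '' {T | IsIT b adj T})) hcl hy
  have hfz : ∀ z : V → ℝ, f z = ∑ x, f (Pi.single x 1) * z x := by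
    intro z
    have h1 : z = ∑ x, z x • (Pi.single x (1 : ℝ) : V → ℝ) := by
      ext v
      simp [Finset.sum_apply, Pi.single_apply]
    conv_lhs => rw [h1]
    rw [map_sum]
    refine Finset.sum_congr rfl fun x _ => ?_
    rw [map_smul, smul_eq_mul, mul_comm]
  have hysum : ∑ x, y x = Fintype.card ι := by
    have := Finset.sum_fiberwise_of_maps_to (s := (univ : Finset V)) (t := (univ : Finset ι))
      (g := b) (fun _ _ => Finset.mem_univ _) y
    rw [← this]
    rw [Finset.sum_congr rfl (fun i _ => hy1 i)]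
    simp
  have key : ∀ N : ℕ, (N : ℝ) * (f y - c) ≤ Fintype.card ι := by
    intro N
    obtain ⟨T, hT, hw⟩ := weighted hS y hy0 hy1 hyN
      (fun x => ⌊(N : ℝ) * f (Pi.single x 1)⌋)
    have h1 : ∑ x, ((⌊(N : ℝ) * f (Pi.single x 1)⌋ : ℤ) : ℝ) * y x ≥
        (N : ℝ) * f y - Fintype.card ι := by
      rw [hfz y, ← hysum, Finset.mul_sum, ← Finset.sum_sub_distrib]
      refine Finset.sum_le_sum fun x _ => ?_
      have := (Int.sub_one_lt_floor ((N : ℝ) * f (Pi.single x 1))).le
      nlinarith [hy0 x, this]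
    have h2 : ∑ i, ((⌊(N : ℝ) * f (Pi.single (T i) 1)⌋ : ℤ) : ℝ) ≤ (N : ℝ) * f (distE b T) := by
      have h3 : f (distE b T) = ∑ i, f (Pi.single (T i) 1) := by
        rw [hfz, ← dist_sum_T hT.1 (fun x => f (Pi.single x 1))]
        refine Finset.sum_congr rfl fun x _ => ?_
        simp [distE]
      rw [h3, Finset.mul_sum]
      exact Finset.sum_le_sum fun i _ => Int.floor_le _
    have h4 : f (distE b T) < c :=
      hf1 _ (subset_convexHull ℝ _ ⟨T, hT, rfl⟩)
    have h5 : (N : ℝ) * f (distE b T) ≤ N * c :=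
      mul_le_mul_of_nonneg_left h4.le (Nat.cast_nonneg N)
    have := hw
    linarith
  have hpos : 0 < f y - c := by linarith
  obtain ⟨N, hN⟩ := exists_nat_gt ((Fintype.card ι : ℝ) / (f y - c))
  have h6 := key N
  rw [div_lt_iff₀ hpos] at hN
  linarith

theorem exists_dist {V ι : Type} [Fintype V] [Fintype ι] {b : V → ι} {adj : V → V → Prop}
    (hS : Sys b adj) (y : V → ℝ) (hy0 : ∀ x, 0 ≤ y x)
    (hy1 : ∀ i, ∑ x ∈ univ.filter (fun x => b x = i), y x = 1)
    (hyN : ∀ z, ∑ x ∈ univ.filter (fun x => adj z x), y x ≤ 1 / 2) :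
    ∃ ν : (ι → V) → ℝ, IsProb ν ∧ (∀ T, ν T ≠ 0 → IsIT b adj T) ∧
      ∀ x, Pr ν (fun T => T (b x) = x) = y x := by
  have hmem := dist_mem_hull hS y hy0 hy1 hyN
  set P : Set (V → ℝ) := {z | ∃ ν : (ι → V) → ℝ, IsProb ν ∧ (∀ T, ν T ≠ 0 → IsIT b adj T) ∧
      ∀ x, Pr ν (fun T => T (b x) = x) = z x} with hP
  have hsub : distE b '' {T | IsIT b adj T} ⊆ P := by
    rintro z ⟨T, hT, rfl⟩
    refine ⟨fun T' => if T' = T then 1 else 0, ⟨?_, ?_⟩, ?_, ?_⟩
    · intro T'; split_ifs <;> norm_num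
    · simp
    · intro T' hT'
      by_cases h : T' = T
      · rw [h]; exact hT
      · simp [h] at hT'
    · intro x
      simp only [Pr, Ex, distE]
      rw [Finset.sum_eq_single T]
      · simp
      · intro T' _ h
        simp [h]
      · intro h
        exact absurd (Finset.mem_univ T) h
  have hconv : Convex ℝ P := by
    rintro z ⟨ν, hν, hν2, hν3⟩ z' ⟨ν', hν', hν2', hν3'⟩ a a' ha ha' haa
    refine ⟨fun T => a * ν T + a' * ν' T, ⟨?_, ?_⟩, ?_, ?_⟩
    · intro T
      exact add_nonneg (mul_nonneg ha (hν.nonneg T)) (mul_nonneg ha' (hν'.nonneg T))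
    · rw [Finset.sum_add_distrib, ← Finset.mul_sum, ← Finset.mul_sum, hν.sum, hν'.sum]
      linarith
    · intro T hT
      by_cases h : ν T = 0
      · refine hν2' T ?_
        intro h'
        apply hT
        simp [h, h']
      · exact hν2 T h
    · intro x
      have h1 := hν3 x
      have h2 := hν3' x
      simp only [Pr, Ex] at h1 h2 ⊢
      simp only [Pi.add_apply, Pi.smul_apply, smul_eq_mul]
      rw [← h1, ← h2, Finset.mul_sum, Finset.mul_sum, ← Finset.sum_add_distrib]
      refine Finset.sum_congr rfl fun T _ => ?_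
      ring
  obtain ⟨ν, h1, h2, h3⟩ := convexHull_min hsub hconv hmem
  exact ⟨ν, h1, h2, h3⟩

end Pool.Agent.Helper88.SCN
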