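import Pool.Agent.Helper88.SCN.Defs

/-! # Module GOO: every block is good with probability at least `ε / 20` -/

set_option autoImplicit false

namespace Pool.Agent.Helper88.SCN

open Finset
open scoped Classical

theorem good_prob {V ι : Type} [Fintype V] [Fintype ι] {b : V → ι} {adj : V → V → Prop}
    (hS : Sys b adj) (k : ℕ) (ε δ : ℝ) (X : Finset V) (ν : (ι → V) → ℝ) (hν : IsProb ν)
    (hk : 0 < k) (hε : 0 < ε) (hε1 : ε ≤ 1) (hδ : 0 ≤ δ) (hδε : δ ≤ ε / 100)
    (hblk : ∀ i, (univ.filter (fun v => b v = i)).card = k)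
    (hR : ∀ v, R b adj X v ≤ 1 / 2 - ε / 10)
    (hT : ∀ T, ν T ≠ 0 → IsIT b adj T ∧ ∀ i, T i ∈ X)
    (hmarg : ∀ x ∈ X, Pr ν (fun T => T (b x) = x) ≤ (1 + δ) / u b X (b x)) (i : ι) :
    ε / 20 ≤ Pr ν (fun T => good b adj k (ε / 20) T i) := by
  have hk' : (0 : ℝ) < k := by exact_mod_cast hk
  set Vi : Finset V := univ.filter (fun v => b v = i) with hVi
  set dom : (ι → V) → ℝ := fun T => ((Vi.filter (fun v => ∃ j, adj v (T j))).card : ℝ) with hdom
  -- the number of dominated vertices
  have hgood : ∀ T, good b adj k (ε / 20) T i ↔ dom T ≤ (1 / 2 - ε / 20) * k := by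
    intro T
    unfold good
    have h1 : (univ.filter (fun v => b v = i ∧ ∀ j, ¬ adj v (T j))) =
        Vi.filter (fun v => ¬ ∃ j, adj v (T j)) := by
      ext v
      simp [hVi]
    have h2 := card_filter_add_card_filter_not (s := Vi) (fun v => ∃ j, adj v (T j))
    rw [h1]
    have h3 : ((Vi.filter (fun v => ∃ j, adj v (T j))).card : ℝ) +
        ((Vi.filter (fun v => ¬ ∃ j, adj v (T j))).card : ℝ) = k := by
      rw [← hblk i]
      exact_mod_cast h2
    rw [hdom]
    simp only
    constructor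
    · intro h; linarith
    · intro h; linarith
  -- pointwise bound
  have hpt : ∀ T, ν T ≠ 0 → dom T ≤ ∑ v ∈ Vi, ∑ x ∈ X.filter (fun x => adj v x),
      (if T (b x) = x then (1 : ℝ) else 0) := by
    intro T hT0
    obtain ⟨hIT, hTX⟩ := hT T hT0
    rw [hdom]
    simp only
    rw [card_filter]
    push_cast
    refine sum_le_sum fun v _ => ?_
    split_ifs with h
    · obtain ⟨j, hj⟩ := h
      have h1 : T j ∈ X.filter (fun x => adj v x) := mem_filter.2 ⟨hTX j, hj⟩
      have h2 := single_le_sum (f := fun x => (if T (b x) = x then (1 : ℝ) else 0))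
        (fun x _ => by split_ifs <;> norm_num) h1
      rw [hIT.1 j, if_pos rfl] at h2
      exact h2
    · exact sum_nonneg fun x _ => by split_ifs <;> norm_num
  have hE : Ex ν dom ≤ (1 + δ) * k * (1 / 2 - ε / 10) := by
    have h1 : Ex ν dom ≤ ∑ v ∈ Vi, ∑ x ∈ X.filter (fun x => adj v x),
        Pr ν (fun T => T (b x) = x) := by
      have e : ∑ v ∈ Vi, ∑ x ∈ X.filter (fun x => adj v x), Pr ν (fun T => T (b x) = x) =
          ∑ T, ν T * ∑ v ∈ Vi, ∑ x ∈ X.filter (fun x => adj v x),
            (if T (b x) = x then (1 : ℝ) else 0) := by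
        simp only [Pr, Ex]
        rw [sum_congr rfl fun v _ => sum_comm, sum_comm]
        refine sum_congr rfl fun T _ => ?_
        rw [mul_sum]
        refine sum_congr rfl fun v _ => ?_
        rw [mul_sum]
      rw [e, Ex]
      refine sum_le_sum fun T _ => ?_
      by_cases h0 : ν T = 0
      · rw [h0, zero_mul, zero_mul]
      · exact mul_le_mul_of_nonneg_left (hpt T h0) (hν.nonneg T)
    refine h1.trans ?_
    have h2 : ∀ v ∈ Vi, ∑ x ∈ X.filter (fun x => adj v x), Pr ν (fun T => T (b x) = x) ≤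
        (1 + δ) * (1 / 2 - ε / 10) := by
      intro v _
      calc ∑ x ∈ X.filter (fun x => adj v x), Pr ν (fun T => T (b x) = x)
          ≤ ∑ x ∈ X.filter (fun x => adj v x), (1 + δ) * (1 / (u b X (b x) : ℝ)) := by
            refine sum_le_sum fun x hx => ?_
            rw [mul_one_div]
            exact hmarg x (mem_filter.1 hx).1
        _ = (1 + δ) * R b adj X v := by rw [← mul_sum, R]
        _ ≤ (1 + δ) * (1 / 2 - ε / 10) := mul_le_mul_of_nonneg_left (hR v) (by linarith)
    refine (sum_le_sum h2).trans ?_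
    rw [sum_const, hVi, hblk i, nsmul_eq_mul]
    apply le_of_eq
    ring
  -- Markov
  have hM : (1 - Pr ν (fun T => good b adj k (ε / 20) T i)) * ((1 / 2 - ε / 20) * k) ≤ Ex ν dom := by
    have e : (1 - Pr ν (fun T => good b adj k (ε / 20) T i)) * ((1 / 2 - ε / 20) * k) =
        ∑ T, ν T * ((1 - if good b adj k (ε / 20) T i then (1 : ℝ) else 0) *
          ((1 / 2 - ε / 20) * k)) := by
      have e1 : 1 - Pr ν (fun T => good b adj k (ε / 20) T i) =
          ∑ T, ν T * (1 - if good b adj k (ε / 20) T i then (1 : ℝ) else 0) := by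
        simp only [mul_sub, sum_sub_distrib, mul_one]
        rw [hν.sum]
        rfl
      rw [e1, sum_mul]
      refine sum_congr rfl fun T _ => ?_
      ring
    rw [e, Ex]
    refine sum_le_sum fun T _ => ?_
    refine mul_le_mul_of_nonneg_left ?_ (hν.nonneg T)
    split_ifs with h
    · rw [sub_self, zero_mul]
      exact Nat.cast_nonneg _
    · rw [hgood, not_le] at h
      linarith
  have h3 := hM.trans hE
  by_contra hcon
  rw [not_le] at hcon
  have h4 : (1 - ε / 20) * ((1 / 2 - ε / 20) * k) < (1 - Pr ν (fun T => good b adj k (ε / 20) T i)) *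
      ((1 / 2 - ε / 20) * k) := by
    refine mul_lt_mul_of_pos_right (by linarith) ?_
    refine mul_pos (by linarith) hk'
  have h5 : (1 + δ) * k * (1 / 2 - ε / 10) ≤ (1 - ε / 20) * ((1 / 2 - ε / 20) * k) := by
    have h6 : (1 + δ) * (1 / 2 - ε / 10) ≤ (1 + ε / 100) * (1 / 2 - ε / 10) :=
      mul_le_mul_of_nonneg_right (by linarith) (by linarith)
    have h7 : (1 + ε / 100) * (1 / 2 - ε / 10) ≤ (1 - ε / 20) * (1 / 2 - ε / 20) := by
      nlinarith [sq_nonneg ε]
    have h8 := mul_le_mul_of_nonneg_right (h6.trans h7) hk'.le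
    linarith
  linarith

end Pool.Agent.Helper88.SCN
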