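import Pool.Agent.Helper88.SCN.Asm
import Pool.Agent.Helper95.SC.Main1
import Pool.Agent.Helper95.SC.K33

/-! # Assembly, graph version -/

set_option autoImplicit false

namespace Pool.Agent.Helper88.SCN

open Finset
open scoped Classical

/-- Version for a product of blocks. -/
theorem sys_of_big (ε : ℝ) (hε : 0 < ε) (hε1 : ε ≤ 1) :
    ∃ C : ℝ, 0 < C ∧ ∀ (W : Type) [Fintype W] (G : SimpleGraph W) (Δ k : ℕ), 0 < k →
      (∀ w, (G.neighborSet w).ncard ≤ Δ) → (2 + ε) * Δ ≤ k → k ≤ Fintype.card W →
      C * Real.log (2 * Fintype.card W) ^ 2 ≤ k → SC.Sys G k := by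
  obtain ⟨C, hC, h⟩ := consts ε hε hε1
  refine ⟨C, hC, ?_⟩
  intro W _ G Δ k hk hΔ hΔk hkn hlog κ _ _ e
  have hn : 0 < Fintype.card W := lt_of_lt_of_le hk hkn
  obtain ⟨N, m, κ', η, d, h', lam, mu, g1, g2, hc⟩ := h (Fintype.card W) k hn hkn hlog
  have : Nonempty W := Fintype.card_pos_iff.1 hn
  have : Nonempty κ := ⟨(e (Classical.arbitrary W)).1⟩
  let adj : W → W → Prop := fun x y => G.Adj x y ∧ (e x).1 ≠ (e y).1
  have hS : Sys (fun w => (e w).1) adj :=
    ⟨fun x y hxy => ⟨hxy.1.symm, hxy.2.symm⟩, fun x y hxy => hxy.2⟩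
  have hcardW : Fintype.card W = Fintype.card κ * k := by
    rw [Fintype.card_congr e, Fintype.card_prod, Fintype.card_fin]
  obtain ⟨ψ, h1, h2⟩ := final (ι := κ) hS k N m ε κ' η d h' lam mu g1 g2 hc
    (by rw [hcardW]; exact Nat.le_mul_of_pos_right _ hk)
    (by
      intro i
      have : (univ.filter (fun v : W => (e v).1 = i)) =
          (univ : Finset (Fin k)).image (fun j => e.symm (i, j)) := by
        ext v
        simp only [mem_filter, mem_univ, true_and, mem_image]
        constructor
        · rintro rfl
          exact ⟨(e v).2, by simp⟩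
        · rintro ⟨j, rfl⟩
          simp
      have key : (univ.filter (fun v : W => (e v).1 = i)).card = k := by
        rw [this, Finset.card_image_of_injective, card_univ, Fintype.card_fin]
        intro a b' hab
        have := e.symm.injective hab
        simpa using this
      convert key)
    (by
      intro v
      have h3 : (univ.filter (fun x => adj v x)).card ≤ (G.neighborSet v).ncard := by
        rw [← Set.ncard_coe_finset]
        apply Set.ncard_le_ncard _ (Set.toFinite _)
        intro x hx
        simp only [coe_filter, mem_univ, true_and, Set.mem_ofPred_eq] at hx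
        exact hx.1
      have h4 : ((univ.filter (fun x => adj v x)).card : ℝ) ≤ Δ := by
        exact_mod_cast h3.trans (hΔ v)
      have hk0 : (0 : ℝ) < k := by exact_mod_cast hk
      have hΔ0 : (0 : ℝ) ≤ Δ := Nat.cast_nonneg _
      have h5 : (1 : ℝ) ≤ (1 / 2 - ε / 6) * (2 + ε) := by nlinarith
      have h6 : (Δ : ℝ) ≤ (1 / 2 - ε / 6) * k := by
        calc (Δ : ℝ) ≤ (1 / 2 - ε / 6) * (2 + ε) * Δ := by nlinarith
          _ = (1 / 2 - ε / 6) * ((2 + ε) * Δ) := by ring
          _ ≤ (1 / 2 - ε / 6) * k := by
            apply mul_le_mul_of_nonneg_left hΔk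
            linarith
      refine le_trans ?_ (h4.trans h6)
      exact le_of_eq (by congr!))
  refine ⟨ψ, ?_, h2⟩
  intro x y hxy hc'
  by_cases hb : (e x).1 = (e y).1
  · exact hxy.ne (h2 x y hb hc')
  · exact h1 x y ⟨hxy, hb⟩ hc'

theorem strong_main (ε : ℝ) (hε : 0 < ε) :
    ∃ C : ℝ, 0 < C ∧ ∀ (V : Type) [Fintype V] (G : SimpleGraph V) (Δ k : ℕ), 0 < k →
      (∀ v, (G.neighborSet v).ncard ≤ Δ) → (2 + ε) * Δ ≤ k →
      C * Real.log (Fintype.card V) ^ 2 ≤ k → SC.StronglyColourable G k := by
  obtain ⟨C, hC, h⟩ := sys_of_big (min ε 1) (lt_min hε one_pos) (min_le_right _ _)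
  refine ⟨9 * C, by positivity, ?_⟩
  intro V _ G Δ k hk hΔ hΔk hlog
  unfold SC.StronglyColourable
  set n := Fintype.card V with hn
  set r := k * ((n + k - 1) / k) - n with hr
  apply SC.strongOn_of_sys
  have hcardW : Fintype.card (V ⊕ Fin r) = n + r := by
    rw [Fintype.card_sum, Fintype.card_fin]
  have hnr : n + r = k * ((n + k - 1) / k) := by
    have h1 : n ≤ k * ((n + k - 1) / k) := by
      have h2 := Nat.div_add_mod (n + k - 1) k
      have h3 := Nat.mod_lt (n + k - 1) hk
      omega
    omega
  have hnr2 : n + r ≤ n + k - 1 := by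
    rw [hnr]
    exact Nat.mul_div_le _ _
  by_cases hkn : k < n
  · apply h (V ⊕ Fin r) (SC.pad G r) Δ k hk
    · intro w
      cases w with
      | inl v =>
        refine le_trans (le_of_eq ?_) (hΔ v)
        have : (SC.pad G r).neighborSet (Sum.inl v) = Sum.inl '' (G.neighborSet v) := by
          ext w
          simp only [SimpleGraph.mem_neighborSet, Set.mem_image]
          constructor
          · intro hw
            obtain ⟨a, b', h1, h2, h3⟩ := SC.pad_adj G r _ _ hw
            have : v = a := Sum.inl_injective h1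
            subst this
            exact ⟨b', h3, h2.symm⟩
          · rintro ⟨b', hb', rfl⟩
            exact (SC.pad_adj_inl G r v b').2 hb'
        rw [this, Set.ncard_image_of_injective _ Sum.inl_injective]
      | inr a =>
        have : (SC.pad G r).neighborSet (Sum.inr a) = ∅ := by
          ext w
          simp only [SimpleGraph.mem_neighborSet, Set.mem_empty_iff_false, iff_false]
          intro hw
          obtain ⟨a', b', h1, h2, h3⟩ := SC.pad_adj G r _ _ hw
          cases h1
        rw [this]
        simp
    · refine le_trans ?_ hΔk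
      apply mul_le_mul_of_nonneg_right _ (Nat.cast_nonneg _)
      have := min_le_left ε 1
      linarith
    · rw [hcardW, hnr]
      apply Nat.le_mul_of_pos_right
      apply Nat.div_pos _ hk
      omega
    · rw [hcardW]
      have hn2 : 2 ≤ n := by omega
      have hn2' : (2 : ℝ) ≤ n := by exact_mod_cast hn2
      have h1 : (2 : ℝ) * ((n + r : ℕ) : ℝ) ≤ (n : ℝ) ^ 3 := by
        have h2 : ((n + r : ℕ) : ℝ) ≤ 2 * n := by
          have : n + r ≤ 2 * n := by omega
          exact_mod_cast this
        nlinarith [mul_nonneg (sub_nonneg.2 hn2') (sub_nonneg.2 hn2')]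
      have h3 : Real.log (2 * ((n + r : ℕ) : ℝ)) ≤ 3 * Real.log n := by
        calc Real.log (2 * ((n + r : ℕ) : ℝ)) ≤ Real.log ((n : ℝ) ^ 3) := by
              apply Real.log_le_log _ h1
              have : 0 < n + r := by omega
              have : (0 : ℝ) < ((n + r : ℕ) : ℝ) := by exact_mod_cast this
              positivity
          _ = 3 * Real.log n := by
              rw [Real.log_pow]
              norm_num
      have h4 : 0 ≤ Real.log (2 * ((n + r : ℕ) : ℝ)) := by
        apply Real.log_nonneg
        have : 1 ≤ n + r := by omega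
        have : (1 : ℝ) ≤ ((n + r : ℕ) : ℝ) := by exact_mod_cast this
        linarith
      calc C * Real.log (2 * ((n + r : ℕ) : ℝ)) ^ 2 ≤ C * (3 * Real.log n) ^ 2 := by
            apply mul_le_mul_of_nonneg_left _ hC.le
            exact pow_le_pow_left₀ h4 h3 2
        _ = 9 * C * Real.log n ^ 2 := by ring
        _ ≤ k := hlog
  · -- one block
    push Not at hkn
    intro κ _ _ e
    refine ⟨fun w => (e w).2, ?_, ?_⟩
    all_goals
      have hsub : ∀ i j : κ, i = j := by
        have h1 : Fintype.card κ * k = n + r := by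
          rw [← hcardW, Fintype.card_congr e, Fintype.card_prod, Fintype.card_fin]
        have h2 : Fintype.card κ ≤ 1 := by
          by_contra hcon
          push Not at hcon
          have h3 : 2 * k ≤ Fintype.card κ * k := Nat.mul_le_mul_right k hcon
          omega
        exact fun i j => Fintype.card_le_one_iff.1 h2 i j
    · intro u v huv huv'
      have : u = v := e.injective (Prod.ext (hsub _ _) huv')
      exact huv.ne this
    · intro u v _ huv'
      exact e.injective (Prod.ext (hsub _ _) huv')

end Pool.Agent.Helper88.SCN
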