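import Pool.Agent.Helper88.SCN.Defs

/-! # Module PAR: a partition into `m` classes splitting many weight functions evenly -/

set_option autoImplicit false

namespace Pool.Agent.Helper88.SCN

open Finset
open scoped Classical

private theorem par_one {V : Type} [Fintype V] (w : V → ℝ) (M : ℝ) (m : ℕ) (hm : 0 < m)
    (hM : 0 ≤ M) (hw0 : ∀ x, 0 ≤ w x) (hwM : ∀ x, w x ≤ M) (hw1 : ∑ x, w x ≤ 1) (s : ℝ)
    (hs : ∀ x, |s * w x| ≤ 1) (a : Fin m) :
    ∑ f : V → Fin m, Real.exp (s * ((∑ x ∈ univ.filter (fun x => f x = a), w x) - (∑ x, w x) / m)) ≤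
      (m : ℝ) ^ (Fintype.card V) * Real.exp (s ^ 2 * M / m) := by
  have hm' : (0 : ℝ) < m := by exact_mod_cast hm
  have h1 : ∀ f : V → Fin m, Real.exp (s * ((∑ x ∈ univ.filter (fun x => f x = a), w x) -
      (∑ x, w x) / m)) = Real.exp (-(s * ((∑ x, w x) / m))) *
        ∏ x, Real.exp (if f x = a then s * w x else 0) := by
    intro f
    rw [← Real.exp_sum, ← Real.exp_add]
    congr 1
    rw [sum_filter, mul_sub, mul_sum]
    have : ∀ x, s * (if f x = a then w x else 0) = if f x = a then s * w x else 0 := by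
      intro x; split_ifs <;> simp
    rw [sum_congr rfl fun x _ => this x]
    ring
  rw [sum_congr rfl fun f _ => h1 f, ← mul_sum]
  have h2 : ∑ f : V → Fin m, ∏ x, Real.exp (if f x = a then s * w x else 0) =
      ∏ x, ∑ c : Fin m, Real.exp (if c = a then s * w x else 0) := by
    rw [prod_univ_sum]
    refine sum_congr ?_ fun f _ => rfl
    rw [Fintype.piFinset_univ]
  rw [h2]
  have h3 : ∀ x, ∑ c : Fin m, Real.exp (if c = a then s * w x else 0) ≤
      m * Real.exp ((s * w x + s ^ 2 * (M * w x)) / m) := by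
    intro x
    have e1 : ∑ c : Fin m, Real.exp (if c = a then s * w x else 0) =
        (Real.exp (s * w x) - 1) + m := by
      have : ∀ c : Fin m, Real.exp (if c = a then s * w x else 0) =
          (if c = a then Real.exp (s * w x) - 1 else 0) + 1 := by
        intro c
        split_ifs <;> simp
      rw [sum_congr rfl fun c _ => this c, sum_add_distrib, sum_ite_eq']
      simp
    rw [e1]
    have e2 : Real.exp (s * w x) - 1 ≤ s * w x + (s * w x) ^ 2 := by
      have := (abs_le.1 (Real.abs_exp_sub_one_sub_id_le (hs x))).2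
      linarith
    have e3 : (s * w x) ^ 2 ≤ s ^ 2 * (M * w x) := by
      have : w x ^ 2 ≤ M * w x := by
        rw [sq]
        exact mul_le_mul_of_nonneg_right (hwM x) (hw0 x)
      rw [mul_pow]
      exact mul_le_mul_of_nonneg_left this (sq_nonneg s)
    have e4 := Real.add_one_le_exp ((s * w x + s ^ 2 * (M * w x)) / m)
    have e5 : (m : ℝ) * ((s * w x + s ^ 2 * (M * w x)) / m + 1) =
        s * w x + s ^ 2 * (M * w x) + m := by
      field_simp
    nlinarith [mul_le_mul_of_nonneg_left e4 hm'.le]
  have h4 : ∏ x, ∑ c : Fin m, Real.exp (if c = a then s * w x else 0) ≤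
      ∏ x, (m * Real.exp ((s * w x + s ^ 2 * (M * w x)) / m)) :=
    prod_le_prod (fun x _ => sum_nonneg fun c _ => (Real.exp_pos _).le) fun x _ => h3 x
  have h5 : ∏ x, ((m : ℝ) * Real.exp ((s * w x + s ^ 2 * (M * w x)) / m)) =
      (m : ℝ) ^ (Fintype.card V) *
        Real.exp ((s * (∑ x, w x) + s ^ 2 * (M * ∑ x, w x)) / m) := by
    rw [prod_mul_distrib, prod_const, card_univ, ← Real.exp_sum, ← sum_div, sum_add_distrib,
      ← mul_sum, ← mul_sum, ← mul_sum]
  calc Real.exp (-(s * ((∑ x, w x) / m))) *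
        ∏ x, ∑ c : Fin m, Real.exp (if c = a then s * w x else 0)
      ≤ Real.exp (-(s * ((∑ x, w x) / m))) * ((m : ℝ) ^ (Fintype.card V) *
        Real.exp ((s * (∑ x, w x) + s ^ 2 * (M * ∑ x, w x)) / m)) := by
        refine mul_le_mul_of_nonneg_left ?_ (Real.exp_pos _).le
        rw [← h5]
        exact h4
    _ = (m : ℝ) ^ (Fintype.card V) * Real.exp (s ^ 2 * (M * ∑ x, w x) / m) := by
        rw [mul_left_comm, ← Real.exp_add]
        congr 2
        field_simp
        ring
    _ ≤ (m : ℝ) ^ (Fintype.card V) * Real.exp (s ^ 2 * M / m) := by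
        refine mul_le_mul_of_nonneg_left (Real.exp_le_exp.2 ?_) (by positivity)
        refine div_le_div_of_nonneg_right ?_ hm'.le
        refine mul_le_mul_of_nonneg_left ?_ (sq_nonneg s)
        calc M * ∑ x, w x ≤ M * 1 := mul_le_mul_of_nonneg_left hw1 hM
          _ = M := mul_one M

theorem partition {V J : Type} [Fintype V] [Fintype J] (w : J → V → ℝ) (M η : ℝ) (m : ℕ)
    (hm : 0 < m) (hM : 0 < M) (hη : 0 < η) (hη1 : η ≤ 1) (hw0 : ∀ j x, 0 ≤ w j x)
    (hwM : ∀ j x, w j x ≤ M) (hw1 : ∀ j, ∑ x, w j x ≤ 1)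
    (hbig : 2 * (m : ℝ) * (Fintype.card J : ℝ) * Real.exp (-(η ^ 2 / (4 * M * m))) < 1) :
    ∃ f : V → Fin m, ∀ j a,
      |(∑ x ∈ univ.filter (fun x => f x = a), w j x) - (∑ x, w j x) / m| ≤ η / m := by
  by_contra hcon
  simp only [not_exists, not_forall, not_le] at hcon
  have hm' : (0 : ℝ) < m := by exact_mod_cast hm
  set s : ℝ := η / (2 * M) with hs
  have hs0 : 0 < s := by rw [hs]; positivity
  have hsw : ∀ (τ : ℝ), |τ| = 1 → ∀ j x, |τ * s * w j x| ≤ 1 := by
    intro τ hτ j x
    rw [mul_assoc, abs_mul, hτ, one_mul, abs_of_nonneg (mul_nonneg hs0.le (hw0 j x))]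
    calc s * w j x ≤ s * M := mul_le_mul_of_nonneg_left (hwM j x) hs0.le
      _ = η / 2 := by rw [hs]; field_simp
      _ ≤ 1 := by linarith
  set S : J → Fin m → (V → Fin m) → ℝ := fun j a f =>
    (∑ x ∈ univ.filter (fun x => f x = a), w j x) - (∑ x, w j x) / m with hS
  set N : ℝ := (m : ℝ) ^ (Fintype.card V) with hN
  have hN0 : 0 < N := by rw [hN]; positivity
  have hplus : ∀ j a, ∑ f : V → Fin m, Real.exp (s * S j a f) ≤ N * Real.exp (s ^ 2 * M / m) := by
    intro j a
    exact par_one (w j) M m hm hM.le (hw0 j) (hwM j) (hw1 j) s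
      (fun x => by simpa using hsw 1 (by simp) j x) a
  have hminus : ∀ j a, ∑ f : V → Fin m, Real.exp (-s * S j a f) ≤
      N * Real.exp (s ^ 2 * M / m) := by
    intro j a
    have := par_one (w j) M m hm hM.le (hw0 j) (hwM j) (hw1 j) (-s)
      (fun x => by simpa using hsw (-1) (by simp) j x) a
    rwa [neg_sq] at this
  have hlow : ∀ f : V → Fin m, Real.exp (s * (η / m)) ≤
      ∑ j, ∑ a, (Real.exp (s * S j a f) + Real.exp (-s * S j a f)) := by
    intro f
    obtain ⟨j, a, hja⟩ := hcon f
    have h1 : Real.exp (s * (η / m)) ≤ Real.exp (s * S j a f) + Real.exp (-s * S j a f) := by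
      rcases le_or_gt 0 (S j a f) with h0 | h0
      · have h2 : η / m < S j a f := by
          have := hja
          change η / m < |S j a f| at this
          rwa [abs_of_nonneg h0] at this
        have h3 := Real.exp_le_exp.2 (mul_le_mul_of_nonneg_left h2.le hs0.le)
        have h4 := Real.exp_pos (-s * S j a f)
        linarith
      · have h2 : η / m < -S j a f := by
          have := hja
          change η / m < |S j a f| at this
          rwa [abs_of_neg h0] at this
        have h3 := Real.exp_le_exp.2 (mul_le_mul_of_nonneg_left h2.le hs0.le)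
        have h4 := Real.exp_pos (s * S j a f)
        have h5 : s * -S j a f = -s * S j a f := by ring
        rw [h5] at h3
        linarith
    refine h1.trans ?_
    have hnn : ∀ j a, 0 ≤ Real.exp (s * S j a f) + Real.exp (-s * S j a f) := fun j a =>
      (add_pos (Real.exp_pos _) (Real.exp_pos _)).le
    refine (single_le_sum (f := fun a => Real.exp (s * S j a f) + Real.exp (-s * S j a f))
      (fun a _ => hnn j a) (mem_univ a)).trans ?_
    exact single_le_sum (f := fun j => ∑ a, (Real.exp (s * S j a f) + Real.exp (-s * S j a f)))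
      (fun j _ => sum_nonneg fun a _ => hnn j a) (mem_univ j)
  have hsum : N * Real.exp (s * (η / m)) ≤
      2 * m * (Fintype.card J) * (N * Real.exp (s ^ 2 * M / m)) := by
    calc N * Real.exp (s * (η / m)) = ∑ _f : V → Fin m, Real.exp (s * (η / m)) := by
          rw [sum_const, card_univ, Fintype.card_fun, Fintype.card_fin, nsmul_eq_mul, hN]
          push_cast
          rfl
      _ ≤ ∑ f : V → Fin m, ∑ j, ∑ a, (Real.exp (s * S j a f) + Real.exp (-s * S j a f)) :=
          sum_le_sum fun f _ => hlow f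
      _ = ∑ j, ∑ a, ∑ f : V → Fin m, (Real.exp (s * S j a f) + Real.exp (-s * S j a f)) := by
          rw [sum_comm]
          refine sum_congr rfl fun j _ => ?_
          rw [sum_comm]
      _ ≤ ∑ _j : J, ∑ _a : Fin m, 2 * (N * Real.exp (s ^ 2 * M / m)) := by
          refine sum_le_sum fun j _ => sum_le_sum fun a _ => ?_
          rw [sum_add_distrib]
          have h1 := hplus j a
          have h2 := hminus j a
          linarith
      _ = 2 * m * (Fintype.card J) * (N * Real.exp (s ^ 2 * M / m)) := by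
          rw [sum_const, sum_const, card_univ, card_univ, Fintype.card_fin, nsmul_eq_mul,
            nsmul_eq_mul]
          ring
  have h6 : Real.exp (s ^ 2 * M / m) =
      Real.exp (-(η ^ 2 / (4 * M * m))) * Real.exp (s * (η / m)) := by
    rw [← Real.exp_add]
    congr 1
    rw [hs]
    field_simp
    ring
  rw [h6] at hsum
  have hE := Real.exp_pos (s * (η / m))
  have h7 : N * Real.exp (s * (η / m)) ≤ (2 * m * (Fintype.card J) *
      Real.exp (-(η ^ 2 / (4 * M * m)))) * (N * Real.exp (s * (η / m))) := by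
    calc _ ≤ _ := hsum
      _ = _ := by ring
  have h8 : 0 < N * Real.exp (s * (η / m)) := mul_pos hN0 hE
  have h9 := mul_lt_mul_of_pos_right hbig h8
  rw [one_mul] at h9
  exact absurd h7 (not_le.2 h9)

end Pool.Agent.Helper88.SCN
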