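import Pool.Agent.Helper88.SCN.Dist
import Pool.Agent.Helper88.SCN.Part

/-! # Module ONE: a spread distribution on independent transversals inside `X` with almost
uniform marginals -/

set_option autoImplicit false

namespace Pool.Agent.Helper88.SCN

open Finset
open scoped Classical

/-- the weights for the partition -/
private noncomputable def one_w {V ι : Type} [Fintype V] [Fintype ι] (b : V → ι)
    (adj : V → V → Prop) (X : Finset V) : V ⊕ ι → V → ℝ
  | Sum.inl v, x => if x ∈ X ∧ adj v x then 1 / (u b X (b x) : ℝ) else 0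
  | Sum.inr i, x => if x ∈ X ∧ b x = i then 1 / (u b X (b x) : ℝ) else 0

private theorem one_count {V ι : Type} [Fintype V] [Fintype ι] (b : V → ι) (X Y : Finset V) (i : ι)
    : ∑ x, (if x ∈ Y ∧ b x = i then 1 / (u b X (b x) : ℝ) else 0) = (u b Y i : ℝ) / u b X i := by
  rw [← sum_filter]
  have h1 : ∀ x ∈ univ.filter (fun x => x ∈ Y ∧ b x = i), 1 / (u b X (b x) : ℝ) = 1 / u b X i := by
    intro x hx
    rw [(mem_filter.1 hx).2.2]
  rw [sum_congr rfl h1, sum_const, nsmul_eq_mul, mul_one_div]
  congr 3
  ext x
  simp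

theorem oneStep {V ι : Type} [Fintype V] [Fintype ι] {b : V → ι} {adj : V → V → Prop}
    (hS : Sys b adj) (k m : ℕ) (κ η ε h : ℝ) (X : Finset V) (hk : 0 < k) (hm : 0 < m)
    (hκ : 0 < κ) (hη : 0 < η) (hηε : η ≤ ε / 15) (hε : ε ≤ 1)
    (hu0 : ∀ i, κ * k ≤ u b X i) (hu1 : ∀ i, u b X i ≤ k)
    (hR : ∀ v, R b adj X v ≤ 1 / 2 - ε / 10)
    (hbig : 2 * (m : ℝ) * ((Fintype.card V : ℝ) + Fintype.card ι) *
      Real.exp (-(η ^ 2 * κ * k / (4 * m))) < 1)
    (hh : (k : ℝ) / (2 * m) ≤ h) :
    ∃ ν : (ι → V) → ℝ, IsProb ν ∧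
      (∀ T, ν T ≠ 0 → IsIT b adj T ∧ (∀ i, T i ∈ X) ∧ ∀ v, (hits adj T v : ℝ) ≤ h) ∧
      ∀ x ∈ X, (1 - 2 * η) / u b X (b x) ≤ Pr ν (fun T => T (b x) = x) ∧
        Pr ν (fun T => T (b x) = x) ≤ (1 + 2 * η) / u b X (b x) := by
  have hk' : (0 : ℝ) < k := by exact_mod_cast hk
  have hm' : (0 : ℝ) < m := by exact_mod_cast hm
  have hκk : 0 < κ * k := mul_pos hκ hk'
  have hu : ∀ i, (0 : ℝ) < u b X i := fun i => hκk.trans_le (hu0 i)
  have hη1 : η ≤ 1 / 15 := by linarith
  -- the partition
  obtain ⟨f, hf⟩ := partition (one_w b adj X) (1 / (κ * k)) η m hm (by positivity) hη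
    (by linarith) (by
      rintro (v | i) x
      · simp only [one_w]
        split_ifs
        · exact (one_div_pos.2 (hu _)).le
        · exact le_refl _
      · simp only [one_w]
        split_ifs
        · exact (one_div_pos.2 (hu _)).le
        · exact le_refl _) (by
      rintro (v | i) x
      · simp only [one_w]
        split_ifs
        · exact one_div_le_one_div_of_le hκk (hu0 _)
        · positivity
      · simp only [one_w]
        split_ifs
        · exact one_div_le_one_div_of_le hκk (hu0 _)
        · positivity) (by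
      rintro (v | i)
      · simp only [one_w]
        have h1 : ∑ x, (if x ∈ X ∧ adj v x then 1 / (u b X (b x) : ℝ) else 0) = R b adj X v := by
          rw [← sum_filter, R]
          refine sum_congr ?_ fun _ _ => rfl
          ext x
          simp
        rw [h1]
        have := hR v
        linarith
      · simp only [one_w]
        rw [one_count, div_self (hu i).ne']) (by
      rw [Fintype.card_sum]
      push_cast
      have e : η ^ 2 / (4 * (1 / (κ * k)) * m) = η ^ 2 * κ * k / (4 * m) := by
        field_simp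
      rw [e]
      exact hbig)
  -- the classes
  set Xa : Fin m → Finset V := fun a => X.filter (fun x => f x = a) with hXa
  have hXaX : ∀ a, Xa a ⊆ X := fun a => filter_subset _ _
  have hsumR : ∀ v, ∑ x, one_w b adj X (Sum.inl v) x = R b adj X v := by
    intro v
    simp only [one_w]
    rw [← sum_filter, R]
    refine sum_congr ?_ fun _ _ => rfl
    ext x
    simp
  have hsum1 : ∀ i, ∑ x, one_w b adj X (Sum.inr i) x = 1 := by
    intro i
    simp only [one_w]
    rw [one_count, div_self (hu i).ne']
  have hua : ∀ a i, (1 - η) * u b X i / m ≤ u b (Xa a) i ∧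
      (u b (Xa a) i : ℝ) ≤ (1 + η) * u b X i / m := by
    intro a i
    have h1 := hf (Sum.inr i) a
    rw [hsum1 i] at h1
    have h2 : ∑ x ∈ univ.filter (fun x => f x = a), one_w b adj X (Sum.inr i) x =
        (u b (Xa a) i : ℝ) / u b X i := by
      rw [← one_count, sum_filter]
      refine sum_congr rfl fun x _ => ?_
      simp only [one_w, hXa, mem_filter]
      by_cases h3 : f x = a
      · simp [h3]
      · simp [h3]
    rw [h2, abs_le] at h1
    have h3 := hu i
    constructor
    · have h4 : (1 - η) / m ≤ (u b (Xa a) i : ℝ) / u b X i := by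
        rw [sub_div]
        linarith [h1.1]
      rw [div_le_div_iff₀ hm' h3] at h4
      rw [div_le_iff₀ hm']
      exact h4
    · have h4 : (u b (Xa a) i : ℝ) / u b X i ≤ (1 + η) / m := by
        rw [add_div]
        linarith [h1.2]
      rw [div_le_div_iff₀ h3 hm'] at h4
      rw [le_div_iff₀ hm']
      exact h4
  have huapos : ∀ a i, (0 : ℝ) < u b (Xa a) i := by
    intro a i
    refine lt_of_lt_of_le ?_ (hua a i).1
    have := hu i
    have h1 : 0 < 1 - η := by linarith
    positivity
  have hRa : ∀ a v, ∑ x ∈ (Xa a).filter (fun x => adj v x), 1 / (u b X (b x) : ℝ) ≤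
      (R b adj X v + η) / m := by
    intro a v
    have h1 := hf (Sum.inl v) a
    rw [hsumR v, abs_le] at h1
    have h2 : ∑ x ∈ univ.filter (fun x => f x = a), one_w b adj X (Sum.inl v) x =
        ∑ x ∈ (Xa a).filter (fun x => adj v x), 1 / (u b X (b x) : ℝ) := by
      rw [sum_filter, sum_filter, hXa, sum_filter, ← sum_subset (subset_univ X)]
      · refine sum_congr rfl fun x hx => ?_
        simp only [one_w]
        by_cases h3 : f x = a
        · simp [h3, hx]
        · simp [h3]
      · intro x _ hx
        simp only [one_w]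
        simp [hx]
    rw [h2] at h1
    rw [add_div]
    linarith [h1.2]
  -- the distributions on the classes
  have hdist : ∀ a : Fin m, ∃ ν : (ι → V) → ℝ, IsProb ν ∧ (∀ T, ν T ≠ 0 → IsIT b adj T) ∧
      ∀ x, Pr ν (fun T => T (b x) = x) = if x ∈ Xa a then 1 / (u b (Xa a) (b x) : ℝ) else 0 := by
    intro a
    refine exists_dist hS (fun x => if x ∈ Xa a then 1 / (u b (Xa a) (b x) : ℝ) else 0) ?_ ?_ ?_
    · intro x
      split_ifs
      · exact (one_div_pos.2 (huapos a _)).le
      · exact le_refl _
    · intro i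
      rw [sum_filter]
      have h1 : ∀ x, (if b x = i then (if x ∈ Xa a then 1 / (u b (Xa a) (b x) : ℝ) else 0) else 0) =
          if x ∈ Xa a ∧ b x = i then 1 / (u b (Xa a) (b x) : ℝ) else 0 := by
        intro x
        by_cases h2 : b x = i <;> by_cases h3 : x ∈ Xa a <;> simp [h2, h3]
      rw [sum_congr rfl fun x _ => h1 x, one_count, div_self (huapos a i).ne']
    · intro z
      have h1 : ∑ x ∈ univ.filter (fun x => adj z x),
          (if x ∈ Xa a then 1 / (u b (Xa a) (b x) : ℝ) else 0) =
          ∑ x ∈ (Xa a).filter (fun x => adj z x), 1 / (u b (Xa a) (b x) : ℝ) := by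
        rw [← sum_filter]
        refine sum_congr ?_ fun _ _ => rfl
        ext x
        simp [and_comm]
      rw [h1]
      have h2 : ∀ x ∈ (Xa a).filter (fun x => adj z x), 1 / (u b (Xa a) (b x) : ℝ) ≤
          (m / (1 - η)) * (1 / (u b X (b x) : ℝ)) := by
        intro x _
        have h3 := (hua a (b x)).1
        have h4 := hu (b x)
        have h5 : 0 < 1 - η := by linarith
        rw [div_mul_div_comm, mul_one]
        rw [div_le_div_iff₀ (huapos a _) (by positivity)]
        rw [div_le_iff₀ hm'] at h3
        linarith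
      refine (sum_le_sum h2).trans ?_
      rw [← mul_sum]
      have h5 : 0 < 1 - η := by linarith
      have h6 := hRa a z
      have h7 := hR z
      calc (m / (1 - η)) * ∑ x ∈ (Xa a).filter (fun x => adj z x), 1 / (u b X (b x) : ℝ)
          ≤ (m / (1 - η)) * ((R b adj X z + η) / m) :=
            mul_le_mul_of_nonneg_left h6 (by positivity)
        _ = (R b adj X z + η) / (1 - η) := by field_simp
        _ ≤ 1 / 2 := by
            rw [div_le_iff₀ h5]
            linarith
  choose νa hνa1 hνa2 hνa3 using hdist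
  have hPr : ∀ (E : (ι → V) → Prop), Pr (fun T => (1 / m) * ∑ a, νa a T) E =
      (1 / m) * ∑ a, Pr (νa a) E := by
    intro E
    simp only [Pr, Ex]
    rw [mul_sum, sum_congr rfl fun T _ => (mul_assoc (1 / (m : ℝ)) (∑ a, νa a T) _), ← mul_sum,
      ← mul_sum]
    congr 1
    rw [sum_comm]
    refine sum_congr rfl fun T _ => ?_
    rw [sum_mul]
  refine ⟨fun T => (1 / m) * ∑ a, νa a T, ⟨?_, ?_⟩, ?_, ?_⟩
  · intro T
    exact mul_nonneg (by positivity) (sum_nonneg fun a _ => (hνa1 a).nonneg T)
  · rw [← mul_sum, sum_comm]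
    rw [sum_congr rfl fun a _ => (hνa1 a).sum, sum_const, card_univ, Fintype.card_fin,
      nsmul_eq_mul, mul_one]
    field_simp
  · intro T hT
    have h1 : ∃ a, νa a T ≠ 0 := by
      by_contra h2
      simp only [not_exists, not_not] at h2
      apply hT
      simp [h2]
    obtain ⟨a, ha⟩ := h1
    have hIT := hνa2 a T ha
    have hTX : ∀ i, T i ∈ Xa a := by
      intro i
      by_contra h2
      have h3 := hνa3 a (T i)
      rw [if_neg h2, hIT.1 i] at h3
      simp only [Pr, Ex] at h3
      have h4 : νa a T * (if T i = T i then 1 else 0) ≤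
          ∑ T' : ι → V, νa a T' * (if T' i = T i then 1 else 0) := by
        refine single_le_sum (f := fun T' => νa a T' * (if T' i = T i then 1 else 0))
          (fun T' _ => mul_nonneg ((hνa1 a).nonneg T') ?_) (mem_univ T)
        split_ifs <;> norm_num
      rw [h3, if_pos rfl, mul_one] at h4
      exact ha (le_antisymm h4 ((hνa1 a).nonneg T))
    refine ⟨hIT, fun i => hXaX a (hTX i), fun v => ?_⟩
    have h5 : hits adj T v ≤ ((Xa a).filter (fun x => adj v x)).card := by
      unfold hits
      refine card_le_card_of_injOn T ?_ ?_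
      · intro i hi
        simp only [coe_filter, Set.mem_ofPred_eq, mem_univ, true_and] at hi ⊢
        exact ⟨hTX i, hi⟩
      · intro i _ j _ hij
        have := congrArg b hij
        rwa [hIT.1, hIT.1] at this
    have h6 : ((((Xa a).filter (fun x => adj v x)).card : ℕ) : ℝ) ≤
        k * ∑ x ∈ (Xa a).filter (fun x => adj v x), 1 / (u b X (b x) : ℝ) := by
      rw [mul_sum, card_eq_sum_ones]
      push_cast
      refine sum_le_sum fun x _ => ?_
      rw [mul_one_div, le_div_iff₀ (hu _), one_mul]
      exact_mod_cast hu1 (b x)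
    have h7 := hRa a v
    have h8 := hR v
    calc (hits adj T v : ℝ) ≤ (((Xa a).filter (fun x => adj v x)).card : ℕ) := by exact_mod_cast h5
      _ ≤ k * ∑ x ∈ (Xa a).filter (fun x => adj v x), 1 / (u b X (b x) : ℝ) := h6
      _ ≤ k * ((R b adj X v + η) / m) := mul_le_mul_of_nonneg_left h7 hk'.le
      _ ≤ k * ((1 / 2) / m) := by
          refine mul_le_mul_of_nonneg_left ?_ hk'.le
          refine div_le_div_of_nonneg_right ?_ hm'.le
          linarith
      _ = k / (2 * m) := by field_simp
      _ ≤ h := hh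
  · intro x hx
    rw [hPr]
    have h1 : ∑ a, Pr (νa a) (fun T => T (b x) = x) = 1 / (u b (Xa (f x)) (b x) : ℝ) := by
      rw [sum_congr rfl fun a _ => hνa3 a x, sum_eq_single (f x)]
      · rw [if_pos]
        simp [hXa, hx]
      · intro a _ ha
        rw [if_neg]
        simp only [hXa, mem_filter, not_and]
        intro _ h2
        exact ha h2.symm
      · intro h2
        exact absurd (mem_univ _) h2
    rw [h1]
    have h2 := hua (f x) (b x)
    have h3 := huapos (f x) (b x)
    have h4 := hu (b x)
    rw [div_le_iff₀ hm', le_div_iff₀ hm'] at h2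
    rw [div_mul_div_comm, one_mul, div_le_div_iff₀ h4 (by positivity),
      div_le_div_iff₀ (by positivity) h4]
    constructor
    · have h5 : (1 - 2 * η) * ((m : ℝ) * u b (Xa (f x)) (b x)) ≤
          (1 - 2 * η) * ((1 + η) * u b X (b x)) := by
        refine mul_le_mul_of_nonneg_left ?_ (by linarith)
        linarith [h2.2]
      nlinarith [mul_pos hη h4, mul_pos (mul_pos hη hη) h4]
    · have h5 : (1 + 2 * η) * ((1 - η) * u b X (b x)) ≤
          (1 + 2 * η) * ((m : ℝ) * u b (Xa (f x)) (b x)) := by
        refine mul_le_mul_of_nonneg_left ?_ (by linarith)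
        linarith [h2.1]
      nlinarith [mul_pos hη h4, mul_nonneg (mul_pos hη h4).le (by linarith : (0 : ℝ) ≤ 1 - 2 * η)]

end Pool.Agent.Helper88.SCN
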