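import Pool.Agent.Helper88.SCN.Defs

/-! # Module PHB: what `Phi ≤ 2` gives -/

set_option autoImplicit false

namespace Pool.Agent.Helper88.SCN

open Finset
open scoped Classical

/-- Counting the steps in which a block may be left out. -/
theorem K_le {ι : Type} (k N : ℕ) (g : ι → ℕ) (hN : 0 < N) (c : ℕ) (i : ι) :
    (K k N g c i : ℝ) ≤ k / (2 * N) + 1 := by
  have hcard : K k N g c i ≤ (range (⌈(k : ℝ) / (2 * N)⌉₊)).card := by
    unfold K
    apply Finset.card_le_card_of_injOn (fun c' => c' / N)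
    · intro c' hc'
      simp only [Finset.coe_filter, Set.mem_setOf_eq, mem_range, cand] at hc'
      obtain ⟨_, h2, _⟩ := hc'
      simp only [Finset.coe_range, Set.mem_Iio]
      rw [Nat.lt_ceil]
      have hN' : (0 : ℝ) < 2 * N := by positivity
      rw [lt_div_iff₀ hN']
      have h3 : (c' / N) * N ≤ c' := Nat.div_mul_le_self c' N
      have h4 : (c' / N) * (2 * N) < k := by
        calc (c' / N) * (2 * N) = 2 * ((c' / N) * N) := by ring
          _ ≤ 2 * c' := by omega
          _ < k := h2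
      exact_mod_cast h4
    · intro a ha b hb hab
      simp only [Finset.coe_filter, Set.mem_setOf_eq, mem_range, cand] at ha hb
      simp only at hab
      have h1 := Nat.div_add_mod a N
      have h2 := Nat.div_add_mod b N
      rw [← h1, ← h2, hab, ha.2.2, hb.2.2]
  rw [Finset.card_range] at hcard
  have h5 : ((⌈(k : ℝ) / (2 * N)⌉₊ : ℕ) : ℝ) < (k : ℝ) / (2 * N) + 1 := by
    apply Nat.ceil_lt_add_one
    positivity
  have h6 : (K k N g c i : ℝ) ≤ ((⌈(k : ℝ) / (2 * N)⌉₊ : ℕ) : ℝ) := by exact_mod_cast hcard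
  linarith

theorem le_K {ι : Type} (k N : ℕ) (g : ι → ℕ) (hN : 0 < N) (hg : ∀ i, g i < N) (c : ℕ)
    (hc : k ≤ 2 * c) (i : ι) : (k : ℝ) / (2 * N) - 1 ≤ K k N g c i := by
  have hcard : (range (k / (2 * N))).card ≤ K k N g c i := by
    unfold K
    apply Finset.card_le_card_of_injOn (fun q => N * q + g i)
    · intro q hq
      simp only [Finset.coe_range, Set.mem_Iio] at hq
      have h1 : (q + 1) * (2 * N) ≤ k := by
        have := Nat.div_mul_le_self k (2 * N)
        calc (q + 1) * (2 * N) ≤ (k / (2 * N)) * (2 * N) := Nat.mul_le_mul_right _ hq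
          _ ≤ k := this
      have h2 : 2 * (N * q + g i) < k := by
        have h3 := hg i
        calc 2 * (N * q + g i) < 2 * (N * q + N) := by omega
          _ = (q + 1) * (2 * N) := by ring
          _ ≤ k := h1
      simp only [Finset.coe_filter, Set.mem_setOf_eq, mem_range, cand]
      refine ⟨by omega, h2, ?_⟩
      rw [Nat.mul_add_mod]
      exact Nat.mod_eq_of_lt (hg i)
    · intro a _ b _ hab
      simp only at hab
      have h1 : N * a = N * b := by omega
      exact Nat.eq_of_mul_eq_mul_left hN h1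
  rw [Finset.card_range] at hcard
  have h1 : (k : ℝ) / (2 * N) < (k / (2 * N) : ℕ) + 1 := by
    have hN' : (0 : ℝ) < 2 * N := by positivity
    rw [div_lt_iff₀ hN']
    have h2 : k < (k / (2 * N) + 1) * (2 * N) := by
      have h3 := Nat.div_add_mod k (2 * N)
      have h4 := Nat.mod_lt k (show 0 < 2 * N by omega)
      calc k = 2 * N * (k / (2 * N)) + k % (2 * N) := h3.symm
        _ < 2 * N * (k / (2 * N)) + 2 * N := by omega
        _ = (k / (2 * N) + 1) * (2 * N) := by ring
    exact_mod_cast h2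
  have h2 : ((k / (2 * N) : ℕ) : ℝ) ≤ K k N g c i := by exact_mod_cast hcard
  linarith

/-- Bound on the drift factor. -/
theorem B_le {ι : Type} (k N : ℕ) (g : ι → ℕ) (hN : 0 < N) (d ε : ℝ) (c : ℕ) (hc : c ≤ k) (i : ι)
    (hk : 0 < k) (hd : 0 ≤ d) (hε : ε ≤ 1) (hsmall : 2 / (N : ℝ) + 4 / k + d * k ≤ ε / 40) :
    B k N g d c i ≤ 1 + ε / 20 := by
  unfold B
  have hk' : (0 : ℝ) < k := by exact_mod_cast hk
  have hN' : (0 : ℝ) < N := by exact_mod_cast hN
  have h1 : (1 + 4 / (k : ℝ)) ^ (K k N g c i) ≤ Real.exp (4 / k * K k N g c i) := by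
    rw [mul_comm, Real.exp_nat_mul]
    apply pow_le_pow_left₀ (by positivity)
    linarith [Real.add_one_le_exp (4 / (k : ℝ))]
  have h2 : (1 + d) ^ c ≤ Real.exp (d * c) := by
    rw [mul_comm, Real.exp_nat_mul]
    apply pow_le_pow_left₀ (by positivity)
    linarith [Real.add_one_le_exp d]
  have h3 : 4 / (k : ℝ) * K k N g c i ≤ 2 / N + 4 / k := by
    have h4 := K_le k N g hN c i
    calc 4 / (k : ℝ) * K k N g c i ≤ 4 / (k : ℝ) * (k / (2 * N) + 1) :=
          mul_le_mul_of_nonneg_left h4 (by positivity)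
      _ = 2 / N + 4 / k := by field_simp; ring
  have h5 : d * c ≤ d * k := mul_le_mul_of_nonneg_left (by exact_mod_cast hc) hd
  have h6 : (1 + 4 / (k : ℝ)) ^ (K k N g c i) * (1 + d) ^ c ≤
      Real.exp (4 / k * K k N g c i + d * c) := by
    rw [Real.exp_add]
    exact mul_le_mul h1 h2 (by positivity) (Real.exp_pos _).le
  have h7 : Real.exp (4 / k * K k N g c i + d * c) ≤ Real.exp (ε / 40) :=
    Real.exp_le_exp.mpr (by linarith)
  have hε0 : 0 ≤ ε / 40 := le_trans (by positivity) hsmall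
  have h8 : Real.exp (ε / 40) ≤ 1 + ε / 20 := by
    have h9 := Real.exp_bound_div_one_sub_of_interval hε0 (by linarith : ε / 40 < 1)
    refine h9.trans ?_
    rw [div_le_iff₀ (by linarith)]
    nlinarith
  linarith

theorem one_le_B {ι : Type} (k N : ℕ) (g : ι → ℕ) (d : ℝ) (c : ℕ) (i : ι) (hd : 0 ≤ d) :
    1 ≤ B k N g d c i := by
  unfold B
  have h1 : (1 : ℝ) ≤ (1 + 4 / (k : ℝ)) ^ (K k N g c i) := by
    apply one_le_pow₀
    have : (0 : ℝ) ≤ 4 / (k : ℝ) := by positivity
    linarith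
  have h2 : (1 : ℝ) ≤ (1 + d) ^ c := one_le_pow₀ (by linarith)
  nlinarith

/-- First consequence. -/
theorem R_le_of_Phi {V ι : Type} [Fintype V] [Fintype ι] [Nonempty V] [Nonempty ι] {b : V → ι}
    {adj : V → V → Prop} (k N : ℕ) (g : ι → ℕ) (hN : 0 < N) (d β ε lam mu g1 g2 : ℝ) (c : ℕ)
    (X : Finset V) (hc : c ≤ k) (hk : 0 < k) (hd : 0 ≤ d) (hε : 0 < ε) (hε1 : ε ≤ 1)
    (hlam : 0 < lam) (hg1 : 0 ≤ g1) (hg2 : 0 ≤ g2)
    (hsmall : 2 / (N : ℝ) + 4 / k + d * k ≤ ε / 40)
    (hdev : Real.log (2 * Fintype.card V) + k * g1 ≤ lam * (ε / 60))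
    (hPhi : Phi b adj k N g d β (1 / 2 - ε / 6) lam mu g1 g2 c X ≤ 2) (v : V) :
    R b adj X v ≤ 1 / 2 - ε / 10 := by
  have hV : (0 : ℝ) < Fintype.card V := by exact_mod_cast Fintype.card_pos
  have hI : (0 : ℝ) < Fintype.card ι := by exact_mod_cast Fintype.card_pos
  set P := Psi b adj k N g d c X v with hP
  -- the exponential term is at most `2 n`
  have h1 : Real.exp (lam * (P - (1 / 2 - ε / 6)) - c * g1) ≤ 2 * Fintype.card V := by
    unfold Phi at hPhi
    have h2 : Real.exp (lam * (P - (1 / 2 - ε / 6)) - c * g1) ≤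
        ∑ v, Real.exp (lam * (Psi b adj k N g d c X v - (1 / 2 - ε / 6)) - c * g1) :=
      Finset.single_le_sum (f := fun v => Real.exp (lam * (Psi b adj k N g d c X v -
        (1 / 2 - ε / 6)) - c * g1)) (fun _ _ => (Real.exp_pos _).le) (Finset.mem_univ v)
    have h3 : 0 ≤ (∑ i, Real.exp (mu * D b k N g β c X i - c * g2)) / (Fintype.card ι : ℝ) :=
      div_nonneg (Finset.sum_nonneg fun _ _ => (Real.exp_pos _).le) hI.le
    have h4 : (∑ v, Real.exp (lam * (Psi b adj k N g d c X v - (1 / 2 - ε / 6)) - c * g1)) /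
        (Fintype.card V : ℝ) ≤ 2 := by linarith
    rw [div_le_iff₀ hV] at h4
    linarith
  have h2 : lam * (P - (1 / 2 - ε / 6)) - c * g1 ≤ Real.log (2 * Fintype.card V) := by
    rw [Real.le_log_iff_exp_le (by positivity)]
    exact h1
  have h3 : (c : ℝ) * g1 ≤ k * g1 := mul_le_mul_of_nonneg_right (by exact_mod_cast hc) hg1
  have h4 : lam * (P - (1 / 2 - ε / 6)) ≤ lam * (ε / 60) := by linarith
  have h5 : P - (1 / 2 - ε / 6) ≤ ε / 60 := le_of_mul_le_mul_left h4 hlam
  -- compare `R` and `Psi`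
  have h6 : R b adj X v ≤ (1 + ε / 20) * P := by
    rw [hP]
    unfold R Psi
    rw [Finset.mul_sum]
    apply Finset.sum_le_sum
    intro x _
    have hB1 := one_le_B k N g d c (b x) hd
    have hB2 := B_le k N g hN d ε c hc (b x) hk hd hε1 hsmall
    have hB0 : 0 < B k N g d c (b x) := by linarith
    rcases Nat.eq_zero_or_pos (u b X (b x)) with hu | hu
    · simp [hu]
    · have hu' : (0 : ℝ) < u b X (b x) := by exact_mod_cast hu
      rw [mul_one_div, div_le_div_iff₀ hu' (by positivity)]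
      nlinarith
  have h7 : 0 ≤ 1 + ε / 20 := by positivity
  nlinarith

/-- Second consequence. -/
theorem u_ge_of_Phi {V ι : Type} [Fintype V] [Fintype ι] [Nonempty V] [Nonempty ι] {b : V → ι}
    {adj : V → V → Prop} (k N : ℕ) (g : ι → ℕ) (hN : 0 < N) (hg : ∀ i, g i < N)
    (d β ψ lam mu g1 g2 : ℝ) (c : ℕ) (X : Finset V) (hc : c ≤ k) (hk : 8 * N ≤ k)
    (hβ : 0 < β) (hβ1 : β ≤ 1) (hmu : mu = β / (16 * N)) (hg1 : 0 ≤ g1) (hg2 : g2 = mu ^ 2)
    (hcard : Fintype.card ι ≤ Fintype.card V)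
    (hlog : Real.log (2 * Fintype.card V) ≤ mu ^ 2 * k)
    (huc : ∀ i, k ≤ u b X i + c)
    (hPhi : Phi b adj k N g d β ψ lam mu g1 g2 c X ≤ 2) (i : ι) :
    β / (4 * N) * k ≤ u b X i := by
  have hV : (0 : ℝ) < Fintype.card V := by exact_mod_cast Fintype.card_pos
  have hI : (0 : ℝ) < Fintype.card ι := by exact_mod_cast Fintype.card_pos
  have hN' : (0 : ℝ) < N := by exact_mod_cast hN
  have hN1 : (1 : ℝ) ≤ N := by exact_mod_cast hN
  have hkN : 8 * (N : ℝ) ≤ k := by exact_mod_cast hk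
  have hk' : (0 : ℝ) < k := by linarith
  have hmu0 : 0 < mu := by rw [hmu]; positivity
  have huci : (k : ℝ) ≤ u b X i + c := by exact_mod_cast huc i
  rcases Nat.lt_or_ge (2 * c) k with h2c | h2c
  · have h2c' : 2 * (c : ℝ) < k := by exact_mod_cast h2c
    have h1 : β / (4 * N) * k ≤ k / 4 := by
      have h2 : β / (4 * N) ≤ 1 / 4 := by
        rw [div_le_div_iff₀ (by positivity) (by norm_num)]
        nlinarith
      nlinarith
    linarith
  · have hK := le_K k N g hN hg c h2c i
    have h1 : Real.exp (mu * D b k N g β c X i - c * g2) ≤ 2 * Fintype.card ι := by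
      unfold Phi at hPhi
      have h2 : Real.exp (mu * D b k N g β c X i - c * g2) ≤
          ∑ i, Real.exp (mu * D b k N g β c X i - c * g2) :=
        Finset.single_le_sum (f := fun i => Real.exp (mu * D b k N g β c X i - c * g2))
          (fun _ _ => (Real.exp_pos _).le) (Finset.mem_univ i)
      have h3 : 0 ≤ (∑ v, Real.exp (lam * (Psi b adj k N g d c X v - ψ) - c * g1)) /
          (Fintype.card V : ℝ) :=
        div_nonneg (Finset.sum_nonneg fun _ _ => (Real.exp_pos _).le) hV.le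
      have h4 : (∑ i, Real.exp (mu * D b k N g β c X i - c * g2)) /
          (Fintype.card ι : ℝ) ≤ 2 := by linarith
      rw [div_le_iff₀ hI] at h4
      linarith
    have h1' : Real.exp (mu * D b k N g β c X i - c * g2) ≤ 2 * Fintype.card V := by
      have : (Fintype.card ι : ℝ) ≤ Fintype.card V := by exact_mod_cast hcard
      linarith
    have h2 : mu * D b k N g β c X i - c * g2 ≤ Real.log (2 * Fintype.card V) := by
      rw [Real.le_log_iff_exp_le (by positivity)]
      exact h1'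
    have hck : (c : ℝ) ≤ k := by exact_mod_cast hc
    have h3 : mu * D b k N g β c X i ≤ mu * (2 * mu * k) := by
      have h4 : (c : ℝ) * g2 ≤ mu ^ 2 * k := by
        rw [hg2]
        nlinarith [sq_nonneg mu]
      nlinarith
    have h4 : D b k N g β c X i ≤ 2 * mu * k := le_of_mul_le_mul_left h3 hmu0
    unfold D at h4
    have h5 : 2 * mu * k = β / (8 * N) * k := by rw [hmu]; field_simp; ring
    have h6 : β * ((k : ℝ) / (2 * N) - 1) ≤ β * K k N g c i := mul_le_mul_of_nonneg_left hK hβ.le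
    have h7 : β / (4 * N) * k + β / (8 * N) * k + β ≤ β * ((k : ℝ) / (2 * N)) := by
      have h8 : β * ((k : ℝ) / (2 * N)) - (β / (4 * N) * k + β / (8 * N) * k + β) =
          β * (k / (8 * N) - 1) := by field_simp; ring
      have h9 : (1 : ℝ) ≤ k / (8 * N) := by
        rw [le_div_iff₀ (by positivity)]
        linarith
      nlinarith
    nlinarith

end Pool.Agent.Helper88.SCN
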