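import Pool.Agent.Helper88.SCN.Stage1

/-! # Module PRU: the lists of the final phase are large -/

set_option autoImplicit false

namespace Pool.Agent.Helper88.SCN

open Finset
open scoped Classical

/-- The list of an uncovered vertex `x` with missing colour `c` of its block. -/
noncomputable def LL {V ι : Type} [Fintype V] (b : V → ι) (adj : V → V → Prop) (q : ℝ)
    (φ : V → Option ℕ) (cc : V → ℕ) (x : V) : Finset V :=
  univ.filter (fun t => b t = b x ∧ φ t ≠ none ∧ (∀ z, φ z = some (cc x) → ¬ adj t z) ∧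
    (∀ z, adj x z → φ z ≠ φ t) ∧
    ((univ.filter (fun z => adj t z ∧ Vac b φ (b z) (cc x))).card : ℝ) ≤ q ∧
    ((univ.filter (fun z => adj x z ∧ ∀ c, φ t = some c → Vac b φ (b z) c)).card : ℝ) ≤ q)

theorem LL_large {V ι : Type} [Fintype V] [Fintype ι] {b : V → ι} {adj : V → V → Prop}
    (hS : Sys b adj) (k N : ℕ) (ε : ℝ) (hε : 0 < ε) (hε1 : ε ≤ 1) (hN : 1000 / ε ^ 2 ≤ N)
    (hk : 8 * N ≤ k) (φ : V → Option ℕ) (cc : V → ℕ) (hφ : PCol b adj k φ)
    (hblk : ∀ i, (univ.filter (fun v => b v = i)).card = k)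
    (hdeg : ∀ v, ((univ.filter (fun x => adj v x)).card : ℝ) ≤ (1 / 2 - ε / 6) * k)
    (hgood : ∀ i c, c < k → Vac b φ i c → (1 / 2 + ε / 20) * k ≤
          ((univ.filter (fun v => b v = i ∧ ∀ x, φ x = some c → ¬ adj v x)).card : ℝ))
    (hdef : ∀ i c, c < k → Vac b φ i c → ∑ v ∈ univ.filter (fun v => b v = i),
        ((univ.filter (fun x => adj v x ∧ Vac b φ (b x) c)).card : ℝ) ≤ (k : ℝ) ^ 2 / (2 * N))
    (hunc : ∀ i, ((univ.filter (fun x => b x = i ∧ φ x = none)).card : ℝ) ≤ k / N)
    (hvacc : ∀ i, (((range k).filter (fun c => Vac b φ i c)).card : ℝ) ≤ k / N)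
    (x : V) (hcc : cc x < k ∧ Vac b φ (b x) (cc x)) :
    ε / 12 * k ≤ ((LL b adj (12 * k / (ε * N)) φ cc x).card : ℝ) := by
  have hNr : (0 : ℝ) < N := lt_of_lt_of_le (by positivity) hN
  have hkr : (0 : ℝ) < k := by
    have : (8 : ℝ) * N ≤ k := by exact_mod_cast hk
    linarith
  have hq : 0 < 12 * k / (ε * N) := by positivity
  set q : ℝ := 12 * k / (ε * N) with hqdef
  set Bk : Finset V := univ.filter (fun t => b t = b x) with hBk
  set G : Finset V := univ.filter (fun v => b v = b x ∧ ∀ z, φ z = some (cc x) → ¬ adj v z) with hG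
  set B1 : Finset V := univ.filter (fun t => b t = b x ∧ φ t = none) with hB1
  set B2 : Finset V := univ.filter (fun t => b t = b x ∧ φ t ≠ none ∧ ∃ z, adj x z ∧ φ z = φ t)
    with hB2
  set n3 : V → ℕ := fun t => (univ.filter (fun z => adj t z ∧ Vac b φ (b z) (cc x))).card with hn3
  set n4 : V → ℕ := fun t =>
    (univ.filter (fun z => adj x z ∧ ∀ c, φ t = some c → Vac b φ (b z) c)).card with hn4
  set B3 : Finset V := Bk.filter (fun t => q < (n3 t : ℝ)) with hB3
  set B4 : Finset V := Bk.filter (fun t => φ t ≠ none ∧ q < (n4 t : ℝ)) with hB4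
  have hGc : (1 / 2 + ε / 20) * k ≤ (G.card : ℝ) := hgood (b x) (cc x) hcc.1 hcc.2
  have h1 : (B1.card : ℝ) ≤ k / N := hunc (b x)
  have h2 : (B2.card : ℝ) ≤ (1 / 2 - ε / 6) * k := by
    refine le_trans ?_ (hdeg x)
    have hch : ∀ t ∈ B2, ∃ z, adj x z ∧ φ z = φ t := fun t ht => (mem_filter.1 ht).2.2.2
    choose! z hz1 hz2 using hch
    have : B2.card ≤ (univ.filter (fun x' => adj x x')).card := by
      refine card_le_card_of_injOn z ?_ ?_
      · intro t ht
        simp only [coe_filter, mem_univ, true_and, Set.mem_ofPred_eq]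
        exact hz1 t ht
      · intro t ht t' ht' htt
        have e1 := hz2 t ht
        have e2 := hz2 t' ht'
        rw [htt, e2] at e1
        have m1 := (mem_filter.1 ht).2
        have m2 := (mem_filter.1 ht').2
        obtain ⟨c, hc⟩ := Option.ne_none_iff_exists'.1 m1.2.1
        rw [hc] at e1
        exact hφ.inj t t' c hc e1 (by rw [m1.1, m2.1])
    exact_mod_cast this
  have h3 : (B3.card : ℝ) ≤ ε * k / 24 := by
    have e1 : (B3.card : ℝ) * q ≤ (k : ℝ) ^ 2 / (2 * N) := by
      refine le_trans ?_ (hdef (b x) (cc x) hcc.1 hcc.2)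
      calc (B3.card : ℝ) * q = ∑ t ∈ B3, q := by rw [sum_const, nsmul_eq_mul]
        _ ≤ ∑ t ∈ B3, (n3 t : ℝ) := sum_le_sum fun t ht => (mem_filter.1 ht).2.le
        _ ≤ ∑ t ∈ Bk, (n3 t : ℝ) :=
          sum_le_sum_of_subset_of_nonneg (filter_subset _ _) fun t _ _ => Nat.cast_nonneg _
    have e2 : (k : ℝ) ^ 2 / (2 * N) = (ε * k / 24) * q := by
      rw [hqdef]
      field_simp
      norm_num
    rw [e2] at e1
    exact le_of_mul_le_mul_right e1 hq
  have h4 : (B4.card : ℝ) ≤ ε * k / 24 := by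
    have e1 : (B4.card : ℝ) * q ≤ (k : ℝ) ^ 2 / (2 * N) := by
      have e3 : ∑ t ∈ B4, (n4 t : ℝ) ≤ ∑ z ∈ univ.filter (fun z => adj x z),
          (((range k).filter (fun c => Vac b φ (b z) c)).card : ℝ) := by
        have e4 : ∑ t ∈ B4, n4 t = ∑ z ∈ univ.filter (fun z => adj x z),
            (B4.filter (fun t => ∀ c, φ t = some c → Vac b φ (b z) c)).card := by
          simp only [hn4, card_filter]
          rw [sum_comm]
          rw [sum_filter]
          refine sum_congr rfl fun z _ => ?_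
          by_cases hz : adj x z
          · simp [hz]
          · simp [hz]
        have e5 : ∀ z ∈ univ.filter (fun z => adj x z),
            (B4.filter (fun t => ∀ c, φ t = some c → Vac b φ (b z) c)).card ≤
              ((range k).filter (fun c => Vac b φ (b z) c)).card := by
          intro z _
          refine card_le_card_of_injOn (fun t => (φ t).getD 0) ?_ ?_
          · intro t ht
            rw [mem_coe, mem_filter] at ht
            obtain ⟨c, hc⟩ := Option.ne_none_iff_exists'.1 (mem_filter.1 ht.1).2.1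
            rw [mem_coe, mem_filter]
            beta_reduce
            rw [hc, Option.getD_some, mem_range]
            exact ⟨hφ.lt t c hc, ht.2 c hc⟩
          · intro t ht t' ht' htt
            rw [mem_coe, mem_filter] at ht ht'
            obtain ⟨c, hc⟩ := Option.ne_none_iff_exists'.1 (mem_filter.1 ht.1).2.1
            obtain ⟨c', hc'⟩ := Option.ne_none_iff_exists'.1 (mem_filter.1 ht'.1).2.1
            simp only [hc, hc', Option.getD_some] at htt
            subst htt
            have m1 := (mem_filter.1 (mem_filter.1 ht.1).1).2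
            have m2 := (mem_filter.1 (mem_filter.1 ht'.1).1).2
            exact hφ.inj t t' c hc hc' (by rw [m1, m2])
        have e6 : ∑ t ∈ B4, (n4 t : ℝ) = ((∑ t ∈ B4, n4 t : ℕ) : ℝ) := by push_cast; rfl
        rw [e6, e4]
        push_cast
        exact sum_le_sum fun z hz => by exact_mod_cast e5 z hz
      calc (B4.card : ℝ) * q = ∑ t ∈ B4, q := by rw [sum_const, nsmul_eq_mul]
        _ ≤ ∑ t ∈ B4, (n4 t : ℝ) := sum_le_sum fun t ht => (mem_filter.1 ht).2.2.le
        _ ≤ ∑ z ∈ univ.filter (fun z => adj x z),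
          (((range k).filter (fun c => Vac b φ (b z) c)).card : ℝ) := e3
        _ ≤ ∑ z ∈ univ.filter (fun z => adj x z), (k : ℝ) / N := sum_le_sum fun z _ => hvacc (b z)
        _ = ((univ.filter (fun z => adj x z)).card : ℝ) * (k / N) := by
          rw [sum_const, nsmul_eq_mul]
        _ ≤ ((1 / 2) * k) * (k / N) := by
          refine mul_le_mul_of_nonneg_right ?_ (by positivity)
          refine (hdeg x).trans ?_
          refine mul_le_mul_of_nonneg_right (by linarith) hkr.le
        _ = (k : ℝ) ^ 2 / (2 * N) := by field_simp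
    have e2 : (k : ℝ) ^ 2 / (2 * N) = (ε * k / 24) * q := by
      rw [hqdef]
      field_simp
      norm_num
    rw [e2] at e1
    exact le_of_mul_le_mul_right e1 hq
  have hsub : G ⊆ LL b adj q φ cc x ∪ (B1 ∪ (B2 ∪ (B3 ∪ B4))) := by
    intro t ht
    have hG' := (mem_filter.1 ht).2
    have hBt : t ∈ Bk := mem_filter.2 ⟨mem_univ _, hG'.1⟩
    simp only [mem_union]
    by_cases c1 : φ t = none
    · exact Or.inr (Or.inl (mem_filter.2 ⟨mem_univ _, hG'.1, c1⟩))
    by_cases c2 : ∃ z, adj x z ∧ φ z = φ t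
    · exact Or.inr (Or.inr (Or.inl (mem_filter.2 ⟨mem_univ _, hG'.1, c1, c2⟩)))
    by_cases c3 : q < (n3 t : ℝ)
    · exact Or.inr (Or.inr (Or.inr (Or.inl (mem_filter.2 ⟨hBt, c3⟩))))
    by_cases c4 : q < (n4 t : ℝ)
    · exact Or.inr (Or.inr (Or.inr (Or.inr (mem_filter.2 ⟨hBt, c1, c4⟩))))
    left
    unfold LL
    refine mem_filter.2 ⟨mem_univ _, hG'.1, c1, hG'.2, ?_, not_lt.1 c3, not_lt.1 c4⟩
    intro z hz hzt
    exact c2 ⟨z, hz, hzt⟩
  have hcard : G.card ≤ (LL b adj q φ cc x).card + (B1.card + (B2.card + (B3.card + B4.card))) := by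
    refine (card_le_card hsub).trans ?_
    refine (card_union_le _ _).trans (Nat.add_le_add_left ?_ _)
    refine (card_union_le _ _).trans (Nat.add_le_add_left ?_ _)
    refine (card_union_le _ _).trans (Nat.add_le_add_left ?_ _)
    exact card_union_le _ _
  have hcard' : (G.card : ℝ) ≤ (LL b adj q φ cc x).card +
      ((B1.card : ℝ) + ((B2.card : ℝ) + ((B3.card : ℝ) + B4.card))) := by
    exact_mod_cast hcard
  have hkN : (k : ℝ) / N ≤ ε / 20 * k := by
    rw [div_le_iff₀ hNr]
    have e1 : 1 ≤ ε / 20 * N := by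
      have e2 : ε / 20 * (1000 / ε ^ 2) ≤ ε / 20 * N := mul_le_mul_of_nonneg_left hN (by positivity)
      have e3 : ε / 20 * (1000 / ε ^ 2) = 50 / ε := by field_simp; norm_num
      have e4 : 1 ≤ 50 / ε := by rw [le_div_iff₀ hε]; linarith
      linarith
    nlinarith
  linarith

end Pool.Agent.Helper88.SCN
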