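import Pool.Agent.Helper88.SCN.PsiStep

/-! # Module PSE: one step of the exponential of the first functional -/

set_option autoImplicit false

namespace Pool.Agent.Helper88.SCN

open Finset
open scoped Classical

/-- If `f T = f0 + Δ T` with `|Δ T| ≤ (6 + H T) / q`, `0 ≤ H T ≤ h`, mean of `Δ` nonpositive and
mean of `H` at most `1`, then the mean of `exp (lam f)` grows at most by
`exp (49 h lam² / q²)`. -/
theorem exp_step {Ω : Type} [Fintype Ω] (ν : Ω → ℝ) (hν : IsProb ν) (f H : Ω → ℝ)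
    (f0 h q lam : ℝ) (hq : 0 < q) (hh : 1 ≤ h) (hlam : 0 ≤ lam) (hlam1 : lam * (7 * h / q) ≤ 1)
    (hH0 : ∀ T, 0 ≤ H T) (hHh : ∀ T, ν T ≠ 0 → H T ≤ h)
    (hinc : ∀ T, ν T ≠ 0 → |f T - f0| ≤ (6 + H T) / q)
    (hmean : Ex ν f ≤ f0) (hHm : Ex ν H ≤ 1) :
    Ex ν (fun T => Real.exp (lam * f T)) ≤
      Real.exp (lam * f0) * Real.exp (49 * h * lam ^ 2 / q ^ 2) := by
  have hE := Real.exp_pos (lam * f0)
  have key : ∀ T, ν T * Real.exp (lam * f T) ≤
      ν T * (Real.exp (lam * f0) * (1 + lam * (f T - f0) +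
        lam ^ 2 * ((6 + h) * (6 + H T) / q ^ 2))) := by
    intro T
    by_cases hT : ν T = 0
    · rw [hT, zero_mul, zero_mul]
    · refine mul_le_mul_of_nonneg_left ?_ (hν.nonneg T)
      have h1 := hinc T hT
      have h2 := hHh T hT
      have h3 := hH0 T
      have h4 : (6 + H T) / q ≤ 7 * h / q := by
        apply div_le_div_of_nonneg_right _ hq.le
        linarith
      have h5 : |lam * (f T - f0)| ≤ 1 := by
        rw [abs_mul, abs_of_nonneg hlam]
        exact (mul_le_mul_of_nonneg_left (h1.trans h4) hlam).trans hlam1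
      have h6 := (abs_le.1 (Real.abs_exp_sub_one_sub_id_le h5)).2
      have h7 : Real.exp (lam * f T) = Real.exp (lam * f0) * Real.exp (lam * (f T - f0)) := by
        rw [← Real.exp_add]
        congr 1
        ring
      rw [h7]
      refine mul_le_mul_of_nonneg_left ?_ hE.le
      have h8 : (lam * (f T - f0)) ^ 2 ≤ lam ^ 2 * ((6 + h) * (6 + H T) / q ^ 2) := by
        rw [mul_pow]
        refine mul_le_mul_of_nonneg_left ?_ (sq_nonneg lam)
        have h9 : (f T - f0) ^ 2 ≤ ((6 + H T) / q) ^ 2 := by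
          rw [← sq_abs (f T - f0)]
          exact pow_le_pow_left₀ (abs_nonneg _) h1 2
        refine h9.trans ?_
        rw [div_pow]
        apply div_le_div_of_nonneg_right _ (sq_nonneg q)
        nlinarith
      linarith
  have hsum : ∑ T, ν T * (Real.exp (lam * f0) * (1 + lam * (f T - f0) +
      lam ^ 2 * ((6 + h) * (6 + H T) / q ^ 2))) =
      Real.exp (lam * f0) * (1 + lam * (Ex ν f - f0) +
        lam ^ 2 * ((6 + h) * (6 + Ex ν H) / q ^ 2)) := by
    have e1 : ∀ T, ν T * (Real.exp (lam * f0) * (1 + lam * (f T - f0) +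
        lam ^ 2 * ((6 + h) * (6 + H T) / q ^ 2))) =
        Real.exp (lam * f0) * (1 - lam * f0 + lam ^ 2 * ((6 + h) * 6 / q ^ 2)) * ν T +
        Real.exp (lam * f0) * lam * (ν T * f T) +
        Real.exp (lam * f0) * (lam ^ 2 * ((6 + h) / q ^ 2)) * (ν T * H T) := by
      intro T
      ring
    rw [Finset.sum_congr rfl fun T _ => e1 T, Finset.sum_add_distrib, Finset.sum_add_distrib,
      ← Finset.mul_sum, ← Finset.mul_sum, ← Finset.mul_sum, hν.sum]
    unfold Ex
    ring
  have h1 : Ex ν (fun T => Real.exp (lam * f T)) ≤ Real.exp (lam * f0) *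
      (1 + lam * (Ex ν f - f0) + lam ^ 2 * ((6 + h) * (6 + Ex ν H) / q ^ 2)) := by
    rw [← hsum]
    exact Finset.sum_le_sum fun T _ => key T
  refine h1.trans (mul_le_mul_of_nonneg_left ?_ hE.le)
  have h2 : lam * (Ex ν f - f0) ≤ 0 := mul_nonpos_of_nonneg_of_nonpos hlam (by linarith)
  have h3 : lam ^ 2 * ((6 + h) * (6 + Ex ν H) / q ^ 2) ≤ 49 * h * lam ^ 2 / q ^ 2 := by
    have h4 : (6 + h) * (6 + Ex ν H) / q ^ 2 ≤ 49 * h / q ^ 2 := by
      apply div_le_div_of_nonneg_right _ (sq_nonneg q)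
      nlinarith
    calc lam ^ 2 * ((6 + h) * (6 + Ex ν H) / q ^ 2) ≤ lam ^ 2 * (49 * h / q ^ 2) :=
          mul_le_mul_of_nonneg_left h4 (sq_nonneg lam)
      _ = 49 * h * lam ^ 2 / q ^ 2 := by ring
  have h5 := Real.add_one_le_exp (49 * h * lam ^ 2 / q ^ 2)
  linarith

end Pool.Agent.Helper88.SCN
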