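import Pool.Agent.Helper88.SCN.Defs

/-! # Module PSI: one step of the first exponential functional -/

set_option autoImplicit false
set_option linter.unusedSectionVars false

namespace Pool.Agent.Helper88.SCN

open Finset
open scoped Classical

section

variable {V ι : Type} [Fintype V] [Fintype ι] {b : V → ι} {adj : V → V → Prop}

/-- Neighbours of `v` in `X` in the block `j`. -/
private noncomputable def nn (b : V → ι) (adj : V → V → Prop) (X : Finset V) (v : V) (j : ι) : ℕ :=
  (X.filter (fun x => adj v x ∧ b x = j)).card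

private theorem psi_eq (k N : ℕ) (g : ι → ℕ) (d : ℝ) (c : ℕ) (X : Finset V) (v : V) :
    Psi b adj k N g d c X v = ∑ j, (nn b adj X v j : ℝ) / (u b X j * B k N g d c j) := by
  unfold Psi
  rw [← Finset.sum_fiberwise (X.filter (fun x => adj v x)) b]
  apply Finset.sum_congr rfl
  intro j _
  have h1 : ∀ x ∈ (X.filter (fun x => adj v x)).filter (fun x => b x = j),
      1 / ((u b X (b x) : ℝ) * B k N g d c (b x)) = 1 / ((u b X j : ℝ) * B k N g d c j) := by
    intro x hx
    have : b x = j := (mem_filter.1 hx).2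
    rw [this]
  rw [Finset.sum_congr rfl h1, Finset.sum_const, nsmul_eq_mul, filter_filter]
  unfold nn
  ring

private theorem R_eq (X : Finset V) (v : V) :
    R b adj X v = ∑ j, (nn b adj X v j : ℝ) / u b X j := by
  unfold R
  rw [← Finset.sum_fiberwise (X.filter (fun x => adj v x)) b]
  apply Finset.sum_congr rfl
  intro j _
  have h1 : ∀ x ∈ (X.filter (fun x => adj v x)).filter (fun x => b x = j),
      1 / (u b X (b x) : ℝ) = 1 / (u b X j : ℝ) := by
    intro x hx
    have : b x = j := (mem_filter.1 hx).2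
    rw [this]
  rw [Finset.sum_congr rfl h1, Finset.sum_const, nsmul_eq_mul, filter_filter]
  unfold nn
  ring

private theorem u_next (X : Finset V) (T : ι → V) (vac : ι → Prop) (hb : ∀ i, b (T i) = i)
    (hX : ∀ i, T i ∈ X) (j : ι) :
    (u b (next b X T vac) j : ℝ) = u b X j - (if vac j then 0 else 1) := by
  unfold u next
  by_cases hj : vac j
  · rw [if_pos hj, sub_zero]
    congr 2
    ext x
    simp only [mem_filter]
    constructor
    · rintro ⟨⟨h1, _⟩, h3⟩
      exact ⟨h1, h3⟩
    · rintro ⟨h1, h3⟩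
      refine ⟨⟨h1, ?_⟩, h3⟩
      rintro ⟨_, h5⟩
      exact h5 (by rw [h3]; exact hj)
  · rw [if_neg hj]
    have h1 : (X.filter (fun x => ¬ (T (b x) = x ∧ ¬ vac (b x)))).filter (fun x => b x = j) =
        (X.filter (fun x => b x = j)).erase (T j) := by
      ext x
      simp only [mem_filter, mem_erase]
      constructor
      · rintro ⟨⟨h1, h2⟩, h3⟩
        refine ⟨?_, h1, h3⟩
        intro h4
        apply h2
        rw [h3]
        exact ⟨h4.symm, hj⟩
      · rintro ⟨h1, h2, h3⟩
        refine ⟨⟨h2, ?_⟩, h3⟩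
        rw [h3]
        rintro ⟨h4, _⟩
        exact h1 h4.symm
    have h2 : T j ∈ X.filter (fun x => b x = j) := mem_filter.2 ⟨hX j, hb j⟩
    rw [h1, card_erase_of_mem h2, Nat.cast_sub (card_pos.2 ⟨_, h2⟩)]
    simp

private theorem nn_next (X : Finset V) (v : V) (T : ι → V) (vac : ι → Prop)
    (hb : ∀ i, b (T i) = i) (hX : ∀ i, T i ∈ X) (j : ι) :
    (nn b adj (next b X T vac) v j : ℝ) =
      nn b adj X v j - (if vac j then 0 else (if adj v (T j) then 1 else 0)) := by
  unfold nn next
  by_cases hj : vac j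
  · rw [if_pos hj, sub_zero]
    congr 2
    ext x
    simp only [mem_filter]
    constructor
    · rintro ⟨⟨h1, _⟩, h3⟩
      exact ⟨h1, h3⟩
    · rintro ⟨h1, h3⟩
      refine ⟨⟨h1, ?_⟩, h3⟩
      rintro ⟨_, h5⟩
      exact h5 (by rw [h3.2]; exact hj)
  · rw [if_neg hj]
    have h1 : (X.filter (fun x => ¬ (T (b x) = x ∧ ¬ vac (b x)))).filter
        (fun x => adj v x ∧ b x = j) =
        (X.filter (fun x => adj v x ∧ b x = j)).erase (T j) := by
      ext x
      simp only [mem_filter, mem_erase]
      constructor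
      · rintro ⟨⟨h1, h2⟩, h0, h3⟩
        refine ⟨?_, h1, h0, h3⟩
        intro h4
        apply h2
        rw [h3]
        exact ⟨h4.symm, hj⟩
      · rintro ⟨h1, h2, h0, h3⟩
        refine ⟨⟨h2, ?_⟩, h0, h3⟩
        rw [h3]
        rintro ⟨h4, _⟩
        exact h1 h4.symm
    rw [h1]
    by_cases ha : adj v (T j)
    · rw [if_pos ha]
      have h2 : T j ∈ X.filter (fun x => adj v x ∧ b x = j) := mem_filter.2 ⟨hX j, ha, hb j⟩
      rw [card_erase_of_mem h2, Nat.cast_sub (card_pos.2 ⟨_, h2⟩)]
      simp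
    · rw [if_neg ha, sub_zero, erase_eq_of_notMem]
      simp [ha]

private theorem nn_le_u (X : Finset V) (v : V) (j : ι) : nn b adj X v j ≤ u b X j := by
  unfold nn u
  apply card_le_card
  intro x hx
  simp only [mem_filter] at hx ⊢
  exact ⟨hx.1, hx.2.2⟩

/-- Pathwise estimate in one block. -/
private theorem blockA (n uu Bo B' q c ξ : ℝ) (hn : 0 ≤ n) (hq : 2 ≤ q) (hu : q ≤ uu)
    (hB : 1 ≤ Bo) (hBB : Bo ≤ B') (hB6 : (1 - 6 / q) * B' ≤ Bo) (hc : c = 0 ∨ c = 1)
    (hξ0 : 0 ≤ ξ) (hξn : ξ ≤ n) (hξc : ξ ≤ c) :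
    |(n - ξ) / ((uu - c) * B') - n / (uu * Bo)| ≤ n / (uu * Bo) * (6 / q) + ξ / q := by
  have hq0 : 0 < q := by linarith
  have hu0 : 0 < uu := by linarith
  have hB0 : 0 < Bo := by linarith
  have hB'0 : 0 < B' := by linarith
  have hc1 : c ≤ 1 := by rcases hc with h | h <;> linarith
  have hc0 : 0 ≤ c := by rcases hc with h | h <;> linarith
  have huc : 0 < uu - c := by linarith
  have hz : 0 ≤ n / (uu * Bo) := by positivity
  rw [abs_le]
  constructor
  · -- lower
    have h1 : (n - ξ) / (uu * B') ≤ (n - ξ) / ((uu - c) * B') := by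
      apply div_le_div_of_nonneg_left (by linarith) (by positivity)
      apply mul_le_mul_of_nonneg_right _ hB'0.le
      linarith
    have h2 : n / (uu * Bo) - (n - ξ) / (uu * B') ≤ n / (uu * Bo) * (6 / q) + ξ / q := by
      have e1 : (n - ξ) / (uu * B') = n / (uu * B') - ξ / (uu * B') := by ring
      rw [e1]
      have h3 : ξ / (uu * B') ≤ ξ / q := by
        apply div_le_div_of_nonneg_left hξ0 hq0
        nlinarith
      have h4 : n / (uu * Bo) - n / (uu * B') ≤ n / (uu * Bo) * (6 / q) := by
        have h5 : n / (uu * Bo) * (1 - 6 / q) ≤ n / (uu * B') := by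
          rw [div_mul_eq_mul_div, div_le_div_iff₀ (by positivity) (by positivity)]
          have : n * (uu * ((1 - 6 / q) * B')) ≤ n * (uu * Bo) := by
            apply mul_le_mul_of_nonneg_left _ hn
            exact mul_le_mul_of_nonneg_left hB6 hu0.le
          nlinarith
        linarith
      linarith
    linarith
  · -- upper
    have h1 : (n - ξ) / ((uu - c) * B') ≤ n / ((uu - 1) * Bo) := by
      apply div_le_div₀ hn (by linarith) (by nlinarith)
      apply mul_le_mul (by linarith) hBB hB0.le huc.le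
    have h2 : n / ((uu - 1) * Bo) - n / (uu * Bo) ≤ n / (uu * Bo) * (6 / q) := by
      have hu1 : 0 < uu - 1 := by linarith
      have e1 : n / ((uu - 1) * Bo) = n / (uu * Bo) * (uu / (uu - 1)) := by
        field_simp
      rw [e1]
      have h3 : uu / (uu - 1) ≤ 1 + 6 / q := by
        rw [div_le_iff₀ hu1]
        have h4 : 6 / q * (uu - 1) ≥ 1 := by
          rw [ge_iff_le, div_mul_eq_mul_div, le_div_iff₀ hq0]
          linarith
        linarith
      nlinarith
    have h3 : 0 ≤ ξ / q := by positivity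
    linarith

/-- Mean estimate, not a candidate. -/
private theorem blockB (n uu Bo q δ d m : ℝ) (hn : 0 ≤ n) (hq : 2 ≤ q) (hu : q ≤ uu)
    (hB : 1 ≤ Bo) (hδ : 0 ≤ δ) (hd : d = 2 * δ / q) (hm : (1 - δ) * n / uu ≤ m) :
    (n - m) / ((uu - 1) * (Bo * (1 + d))) ≤ n / (uu * Bo) := by
  have hq0 : 0 < q := by linarith
  have hu0 : 0 < uu := by linarith
  have hB0 : 0 < Bo := by linarith
  have hu1 : 0 < uu - 1 := by linarith
  have hd0 : 0 ≤ d := by rw [hd]; positivity
  have hdδ : δ ≤ (uu - 1) * d := by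
    rw [hd, mul_div_assoc', le_div_iff₀ hq0]
    nlinarith
  rw [div_le_div_iff₀ (by positivity) (by positivity)]
  have h1 : (n - m) * uu ≤ n * (uu - 1 + δ) := by
    have : (1 - δ) * n ≤ m * uu := by
      rwa [div_le_iff₀ hu0] at hm
    nlinarith
  have h2 : n * (uu - 1 + δ) ≤ n * ((uu - 1) * (1 + d)) := by
    apply mul_le_mul_of_nonneg_left _ hn
    nlinarith
  calc (n - m) * (uu * Bo) = ((n - m) * uu) * Bo := by ring
    _ ≤ (n * ((uu - 1) * (1 + d))) * Bo :=
        mul_le_mul_of_nonneg_right (h1.trans h2) hB0.le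
    _ = n * ((uu - 1) * (Bo * (1 + d))) := by ring

/-- Candidate. -/
private theorem blockC (n uu Bo B' k c ξ : ℝ) (hn : 0 ≤ n) (hk : 4 ≤ k) (hu : k / 2 ≤ uu)
    (hu2 : 2 ≤ uu) (hB : 1 ≤ Bo) (hB' : Bo * (1 + 4 / k) ≤ B') (hc : c = 0 ∨ c = 1)
    (hξ0 : 0 ≤ ξ) :
    (n - ξ) / ((uu - c) * B') ≤ n / (uu * Bo) := by
  have hk0 : 0 < k := by linarith
  have hu0 : 0 < uu := by linarith
  have hB0 : 0 < Bo := by linarith
  have h4k : 0 < 4 / k := by positivity
  have hB'0 : 0 < B' := by nlinarith
  have hu1 : 0 < uu - 1 := by linarith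
  have hc1 : c ≤ 1 := by rcases hc with h | h <;> linarith
  have huc : 0 < uu - c := by linarith
  calc (n - ξ) / ((uu - c) * B') ≤ n / ((uu - 1) * B') := by
        apply div_le_div₀ hn (by linarith) (by positivity)
        apply mul_le_mul_of_nonneg_right _ hB'0.le
        linarith
    _ ≤ n / (uu * Bo) := by
        apply div_le_div_of_nonneg_left hn (by positivity)
        have h1 : uu ≤ (uu - 1) * (1 + 4 / k) := by
          have : 1 ≤ (uu - 1) * (4 / k) := by
            rw [mul_div_assoc', le_div_iff₀ hk0]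
            linarith
          linarith
        calc uu * Bo ≤ (uu - 1) * (1 + 4 / k) * Bo := mul_le_mul_of_nonneg_right h1 hB0.le
          _ = (uu - 1) * (Bo * (1 + 4 / k)) := by ring
          _ ≤ (uu - 1) * B' := mul_le_mul_of_nonneg_left hB' hu1.le

private theorem B_succ (k N : ℕ) (g : ι → ℕ) (d : ℝ) (c : ℕ) (j : ι) :
    B k N g d (c + 1) j = B k N g d c j * ((if cand k N g c j then 1 + 4 / (k : ℝ) else 1) *
      (1 + d)) := by
  unfold B
  have hK : K k N g (c + 1) j = K k N g c j + (if cand k N g c j then 1 else 0) := by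
    unfold K
    rw [range_add_one, filter_insert]
    by_cases h : cand k N g c j
    · rw [if_pos h, if_pos h, card_insert_of_notMem (by simp)]
    · rw [if_neg h, if_neg h, add_zero]
  rw [hK, pow_add, pow_succ (1 + d)]
  by_cases h : cand k N g c j
  · rw [if_pos h, if_pos h, pow_one]
    ring
  · rw [if_neg h, if_neg h, pow_zero]
    ring

private theorem one_le_B' (k N : ℕ) (g : ι → ℕ) (d : ℝ) (hd : 0 ≤ d) (c : ℕ) (j : ι) :
    1 ≤ B k N g d c j := by
  unfold B
  have h1 : (1 : ℝ) ≤ (1 + 4 / (k : ℝ)) ^ (K k N g c j) := by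
    apply one_le_pow₀
    have : (0 : ℝ) ≤ 4 / (k : ℝ) := by positivity
    linarith
  have h2 : (1 : ℝ) ≤ (1 + d) ^ c := one_le_pow₀ (by linarith)
  nlinarith

private theorem ex_sum {Ω J : Type} [Fintype Ω] [Fintype J] (ν : Ω → ℝ) (f : J → Ω → ℝ) :
    Ex ν (fun T => ∑ j, f j T) = ∑ j, Ex ν (f j) := by
  unfold Ex
  rw [Finset.sum_comm]
  apply Finset.sum_congr rfl
  intro T _
  rw [Finset.mul_sum]

private theorem ex_mono {Ω : Type} [Fintype Ω] (ν : Ω → ℝ) (hν : IsProb ν) (f g : Ω → ℝ)
    (h : ∀ T, ν T ≠ 0 → f T ≤ g T) : Ex ν f ≤ Ex ν g := by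
  unfold Ex
  apply Finset.sum_le_sum
  intro T _
  by_cases hT : ν T = 0
  · simp [hT]
  · exact mul_le_mul_of_nonneg_left (h T hT) (hν.nonneg T)

private theorem ex_congr {Ω : Type} [Fintype Ω] (ν : Ω → ℝ) (f g : Ω → ℝ)
    (h : ∀ T, ν T ≠ 0 → f T = g T) : Ex ν f = Ex ν g := by
  unfold Ex
  apply Finset.sum_congr rfl
  intro T _
  by_cases hT : ν T = 0
  · simp [hT]
  · rw [h T hT]

private theorem ex_const {Ω : Type} [Fintype Ω] (ν : Ω → ℝ) (hν : IsProb ν) (a : ℝ) :
    Ex ν (fun _ => a) = a := by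
  unfold Ex
  rw [← Finset.sum_mul, hν.sum, one_mul]

/-- Indicator of `adj v (T j)` as a sum over the possible values of `T j`. -/
private theorem ind_eq (X : Finset V) (v : V) (j : ι) (T : ι → V) (hb : b (T j) = j)
    (hX : T j ∈ X) :
    (if adj v (T j) then (1 : ℝ) else 0) =
      ∑ x ∈ X.filter (fun x => adj v x ∧ b x = j), if T (b x) = x then 1 else 0 := by
  have h1 : ∀ x ∈ X.filter (fun x => adj v x ∧ b x = j),
      (if T (b x) = x then (1 : ℝ) else 0) = if T j = x then 1 else 0 := by
    intro x hx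
    rw [(mem_filter.1 hx).2.2]
  rw [Finset.sum_congr rfl h1, Finset.sum_ite_eq]
  by_cases ha : adj v (T j)
  · rw [if_pos ha, if_pos (mem_filter.2 ⟨hX, ha, hb⟩)]
  · rw [if_neg ha, if_neg (by simp [ha])]

private theorem pr_adj (X : Finset V) (v : V) (j : ι) (ν : (ι → V) → ℝ)
    (hT : ∀ T, ν T ≠ 0 → b (T j) = j ∧ T j ∈ X) : Pr ν (fun T => adj v (T j)) =
      ∑ x ∈ X.filter (fun x => adj v x ∧ b x = j), Pr ν (fun T => T (b x) = x) := by
  unfold Pr Ex
  rw [Finset.sum_comm]
  apply Finset.sum_congr rfl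
  intro T _
  by_cases hTν : ν T = 0
  · simp [hTν]
  · obtain ⟨h3, h4⟩ := hT T hTν
    show ν T * (if adj v (T j) then (1 : ℝ) else 0) =
      ∑ x ∈ X.filter (fun x => adj v x ∧ b x = j), ν T * (if T (b x) = x then (1 : ℝ) else 0)
    rw [ind_eq X v j T h3 h4, Finset.mul_sum]

end

/-- Pathwise bound and expectation bound of the increment of `Psi`. -/
theorem psi_inc {V ι : Type} [Fintype V] [Fintype ι] {b : V → ι} {adj : V → V → Prop}
    (hS : Sys b adj) (k N : ℕ) (g : ι → ℕ) (κ δ d h : ℝ) (c : ℕ) (X : Finset V) (v : V)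
    (vac : (ι → V) → ι → Prop) (ν : (ι → V) → ℝ) (hν : IsProb ν)
    (hk : 4 ≤ k) (hκ : 0 < κ) (hκ1 : κ ≤ 1) (hκk : 2 ≤ κ * k) (hδ : 0 ≤ δ) (hδ1 : δ ≤ 1)
    (hd : d = 2 * δ / (κ * k))
    (hu0 : ∀ i, κ * k ≤ u b X i) (huc : ∀ i, k ≤ u b X i + c)
    (hR : (1 + δ) * R b adj X v ≤ 1)
    (hT : ∀ T, ν T ≠ 0 → IsIT b adj T ∧ (∀ i, T i ∈ X) ∧ (hits adj T v : ℝ) ≤ h)
    (hmarg : ∀ x ∈ X, (1 - δ) / u b X (b x) ≤ Pr ν (fun T => T (b x) = x) ∧
        Pr ν (fun T => T (b x) = x) ≤ (1 + δ) / u b X (b x))
    (hvac : ∀ T i, vac T i → cand k N g c i) :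
    (∀ T, ν T ≠ 0 →
      |Psi b adj k N g d (c + 1) (next b X T (vac T)) v - Psi b adj k N g d c X v| ≤
        (6 + hits adj T v) / (κ * k)) ∧
    Ex ν (fun T => Psi b adj k N g d (c + 1) (next b X T (vac T)) v) ≤ Psi b adj k N g d c X v ∧
    Ex ν (fun T => (hits adj T v : ℝ)) ≤ 1 := by
  have hk0 : (4 : ℝ) ≤ k := by exact_mod_cast hk
  have hq0 : 0 < κ * k := by linarith
  have hd0 : 0 ≤ d := by rw [hd]; positivity
  have hB1 : ∀ j, 1 ≤ B k N g d c j := one_le_B' k N g d hd0 c
  have hRnn : R b adj X v ≤ 1 := by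
    have h0 : 0 ≤ R b adj X v := by
      unfold R
      exact Finset.sum_nonneg (fun _ _ => by positivity)
    nlinarith
  have hPsiR : Psi b adj k N g d c X v ≤ R b adj X v := by
    rw [psi_eq, R_eq]
    apply Finset.sum_le_sum
    intro j _
    have : (0 : ℝ) < u b X j := by linarith [hu0 j]
    apply div_le_div_of_nonneg_left (Nat.cast_nonneg _) this
    nlinarith [hB1 j]
  have hhits : ∀ T : ι → V, (hits adj T v : ℝ) = ∑ j, if adj v (T j) then (1 : ℝ) else 0 := by
    intro T
    unfold hits
    rw [← Finset.sum_filter]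
    simp
  -- the value after the step
  have hval : ∀ T, ν T ≠ 0 → Psi b adj k N g d (c + 1) (next b X T (vac T)) v =
      ∑ j, ((nn b adj X v j : ℝ) - (if vac T j then 0 else (if adj v (T j) then 1 else 0))) /
        (((u b X j : ℝ) - (if vac T j then 0 else 1)) * B k N g d (c + 1) j) := by
    intro T hTν
    obtain ⟨h1, h2, _⟩ := hT T hTν
    rw [psi_eq]
    apply Finset.sum_congr rfl
    intro j _
    rw [u_next X T (vac T) h1.1 h2 j, nn_next X v T (vac T) h1.1 h2 j]
  have hξn : ∀ T, ν T ≠ 0 → ∀ j,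
      (if vac T j then (0 : ℝ) else (if adj v (T j) then 1 else 0)) ≤ nn b adj X v j := by
    intro T hTν j
    obtain ⟨h1, h2, _⟩ := hT T hTν
    split_ifs with h3 h4
    · exact Nat.cast_nonneg _
    · have : 0 < nn b adj X v j := card_pos.2 ⟨T j, mem_filter.2 ⟨h2 j, h4, h1.1 j⟩⟩
      exact_mod_cast this
    · exact Nat.cast_nonneg _
  refine ⟨?_, ?_, ?_⟩
  · intro T hTν
    rw [hval T hTν, psi_eq, ← Finset.sum_sub_distrib]
    refine le_trans (Finset.abs_sum_le_sum_abs _ _) ?_
    have hblk : ∀ j, |((nn b adj X v j : ℝ) -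
        (if vac T j then 0 else (if adj v (T j) then 1 else 0))) /
        (((u b X j : ℝ) - (if vac T j then 0 else 1)) * B k N g d (c + 1) j) -
        (nn b adj X v j : ℝ) / (u b X j * B k N g d c j)| ≤
        (nn b adj X v j : ℝ) / (u b X j * B k N g d c j) * (6 / (κ * k)) +
          (if vac T j then (0 : ℝ) else (if adj v (T j) then 1 else 0)) / (κ * k) := by
      intro j
      apply blockA _ _ _ _ _ _ _ (Nat.cast_nonneg _) hκk (hu0 j) (hB1 j)
      · rw [B_succ]
        have h1 : (1 : ℝ) ≤ if cand k N g c j then 1 + 4 / (k : ℝ) else 1 := by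
          split_ifs
          · have : (0 : ℝ) ≤ 4 / (k : ℝ) := by positivity
            linarith
          · exact le_rfl
        have h2 : (1 : ℝ) ≤ (if cand k N g c j then 1 + 4 / (k : ℝ) else 1) * (1 + d) := by
          nlinarith
        nlinarith [hB1 j]
      · rw [B_succ]
        set a : ℝ := if cand k N g c j then 1 + 4 / (k : ℝ) else 1 with ha
        have ha1 : a ≤ 1 + 4 / (κ * k) := by
          rw [ha]
          split_ifs
          · have : 4 / (k : ℝ) ≤ 4 / (κ * k) := by
              apply div_le_div_of_nonneg_left (by norm_num) hq0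
              nlinarith
            linarith
          · have : 0 ≤ 4 / (κ * (k : ℝ)) := by positivity
            linarith
        have ha0 : 1 ≤ a := by
          rw [ha]
          split_ifs
          · have : (0 : ℝ) ≤ 4 / (k : ℝ) := by positivity
            linarith
          · exact le_rfl
        have hd1 : d ≤ 2 / (κ * k) := by
          rw [hd]
          apply div_le_div_of_nonneg_right _ hq0.le
          linarith
        have h6 : (1 - 6 / (κ * k)) * (a * (1 + d)) ≤ 1 := by
          set r := 1 / (κ * (k : ℝ)) with hr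
          have hr0 : 0 < r := by positivity
          have e4 : 4 / (κ * (k : ℝ)) = 4 * r := by rw [hr]; ring
          have e2 : 2 / (κ * (k : ℝ)) = 2 * r := by rw [hr]; ring
          have e6 : 6 / (κ * (k : ℝ)) = 6 * r := by rw [hr]; ring
          rw [e4] at ha1
          rw [e2] at hd1
          rw [e6]
          by_cases hr6 : 1 - 6 * r ≤ 0
          · have : 0 ≤ a * (1 + d) := by positivity
            nlinarith
          · push Not at hr6
            have h7 : a * (1 + d) ≤ (1 + 4 * r) * (1 + 2 * r) := by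
              apply mul_le_mul ha1 (by linarith) (by linarith) (by linarith)
            have h8 : (1 - 6 * r) * (a * (1 + d)) ≤
                (1 - 6 * r) * ((1 + 4 * r) * (1 + 2 * r)) :=
              mul_le_mul_of_nonneg_left h7 hr6.le
            nlinarith [mul_pos hr0 hr0, mul_pos (mul_pos hr0 hr0) hr0]
        calc (1 - 6 / (κ * k)) * (B k N g d c j * (a * (1 + d)))
            = B k N g d c j * ((1 - 6 / (κ * k)) * (a * (1 + d))) := by ring
          _ ≤ B k N g d c j * 1 :=
              mul_le_mul_of_nonneg_left h6 (by linarith [hB1 j])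
          _ = B k N g d c j := mul_one _
      · split_ifs
        · exact Or.inl rfl
        · exact Or.inr rfl
      · split_ifs <;> norm_num
      · exact hξn T hTν j
      · split_ifs <;> norm_num
    refine le_trans (Finset.sum_le_sum (fun j _ => hblk j)) ?_
    rw [Finset.sum_add_distrib, ← Finset.sum_mul, ← Finset.sum_div, ← psi_eq]
    have h1 : Psi b adj k N g d c X v * (6 / (κ * k)) ≤ 6 / (κ * k) := by
      have : 0 ≤ 6 / (κ * (k : ℝ)) := by positivity
      nlinarith
    have h2 : (∑ j, (if vac T j then (0 : ℝ) else (if adj v (T j) then 1 else 0))) / (κ * k) ≤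
        (hits adj T v : ℝ) / (κ * k) := by
      apply div_le_div_of_nonneg_right _ hq0.le
      rw [hhits T]
      apply Finset.sum_le_sum
      intro j _
      split_ifs <;> norm_num
    rw [add_div]
    linarith
  · -- mean
    rw [ex_congr ν _ _ hval, ex_sum ν
      (fun j T => ((nn b adj X v j : ℝ) -
        (if vac T j then 0 else (if adj v (T j) then 1 else 0))) /
        (((u b X j : ℝ) - (if vac T j then 0 else 1)) * B k N g d (c + 1) j)), psi_eq]
    apply Finset.sum_le_sum
    intro j _
    by_cases hcj : cand k N g c j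
    · -- candidate
      have h1 : ∀ T, ν T ≠ 0 → ((nn b adj X v j : ℝ) -
        (if vac T j then 0 else (if adj v (T j) then 1 else 0))) /
        (((u b X j : ℝ) - (if vac T j then 0 else 1)) * B k N g d (c + 1) j) ≤
          (nn b adj X v j : ℝ) / (u b X j * B k N g d c j) := by
        intro T hTν
        apply blockC _ _ _ _ (k : ℝ) _ _ (Nat.cast_nonneg _) hk0 _ _ (hB1 j)
        · rw [B_succ, if_pos hcj]
          have h4k : (0 : ℝ) ≤ 4 / (k : ℝ) := by positivity
          have hBj := hB1 j
          have : B k N g d c j * (1 + 4 / (k : ℝ)) ≤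
              B k N g d c j * (1 + 4 / (k : ℝ)) * (1 + d) := by
            have h5 : 0 ≤ B k N g d c j * (1 + 4 / (k : ℝ)) := by positivity
            nlinarith
          linarith [this]
        · split_ifs
          · exact Or.inl rfl
          · exact Or.inr rfl
        · split_ifs <;> norm_num
        · have h2 : k ≤ u b X j + c := huc j
          have h3 : 2 * c < k := hcj.1
          have h4 : k ≤ 2 * u b X j := by omega
          have h5 : (k : ℝ) ≤ 2 * u b X j := by exact_mod_cast h4
          linarith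
        · linarith [hu0 j]
      refine le_trans (ex_mono ν hν _ _ h1) (le_of_eq ?_)
      exact ex_const ν hν _
    · -- not a candidate
      have hnv : ∀ T, ¬ vac T j := fun T h => hcj (hvac T j h)
      have h1 : Ex ν (fun T => ((nn b adj X v j : ℝ) -
        (if vac T j then 0 else (if adj v (T j) then 1 else 0))) /
        (((u b X j : ℝ) - (if vac T j then 0 else 1)) * B k N g d (c + 1) j)) =
          ((nn b adj X v j : ℝ) - Pr ν (fun T => adj v (T j))) /
            (((u b X j : ℝ) - 1) * (B k N g d c j * (1 + d))) := by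
        rw [B_succ, if_neg hcj, one_mul]
        unfold Pr
        have e1 : (nn b adj X v j : ℝ) = Ex ν (fun _ => (nn b adj X v j : ℝ)) :=
          (ex_const ν hν _).symm
        conv_rhs => rw [e1]
        unfold Ex
        rw [← Finset.sum_sub_distrib, Finset.sum_div]
        apply Finset.sum_congr rfl
        intro T _
        simp only [hnv T, if_false]
        by_cases ha : adj v (T j)
        · simp only [ha, if_true]
          ring
        · simp only [ha, if_false]
          ring
      rw [h1]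
      apply blockB _ _ _ (κ * k) δ d _ (Nat.cast_nonneg _) hκk (hu0 j) (hB1 j) hδ hd
      -- lower bound of the probability
      have h2 : Pr ν (fun T => adj v (T j)) =
          ∑ x ∈ X.filter (fun x => adj v x ∧ b x = j), Pr ν (fun T => T (b x) = x) :=
        pr_adj X v j ν (fun T hTν => ⟨(hT T hTν).1.1 j, (hT T hTν).2.1 j⟩)
      rw [h2]
      calc (1 - δ) * (nn b adj X v j : ℝ) / u b X j
          = ∑ x ∈ X.filter (fun x => adj v x ∧ b x = j), (1 - δ) / u b X j := by
            rw [Finset.sum_const, nsmul_eq_mul]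
            unfold nn
            ring
        _ ≤ _ := by
            apply Finset.sum_le_sum
            intro x hx
            obtain ⟨hxX, _, hxj⟩ := mem_filter.1 hx
            have := (hmarg x hxX).1
            rw [hxj] at this
            rw [hxj]
            exact this
  · -- hits
    have h1 : Ex ν (fun T => (hits adj T v : ℝ)) = ∑ j, Pr ν (fun T => adj v (T j)) := by
      simp only [hhits]
      exact ex_sum ν (fun j T => if adj v (T j) then (1 : ℝ) else 0)
    rw [h1]
    have h2 : ∀ j, Pr ν (fun T => adj v (T j)) ≤ (1 + δ) * ((nn b adj X v j : ℝ) / u b X j) := by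
      intro j
      have h2 : Pr ν (fun T => adj v (T j)) =
          ∑ x ∈ X.filter (fun x => adj v x ∧ b x = j), Pr ν (fun T => T (b x) = x) :=
        pr_adj X v j ν (fun T hTν => ⟨(hT T hTν).1.1 j, (hT T hTν).2.1 j⟩)
      rw [h2]
      calc ∑ x ∈ X.filter (fun x => adj v x ∧ b x = j), Pr ν (fun T => T (b x) = x)
          ≤ ∑ x ∈ X.filter (fun x => adj v x ∧ b x = j), (1 + δ) / u b X j := by
            apply Finset.sum_le_sum
            intro x hx
            obtain ⟨hxX, _, hxj⟩ := mem_filter.1 hx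
            have := (hmarg x hxX).2
            rw [hxj] at this
            rw [hxj]
            exact this
        _ = (1 + δ) * ((nn b adj X v j : ℝ) / u b X j) := by
            rw [Finset.sum_const, nsmul_eq_mul]
            unfold nn
            ring
    refine le_trans (Finset.sum_le_sum (fun j _ => h2 j)) ?_
    rw [← Finset.mul_sum, ← R_eq]
    exact hR

end Pool.Agent.Helper88.SCN
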