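import Pool.Agent.Helper88.SCN.Step

/-! # Module STA: the partial colouring produced by the process -/

set_option autoImplicit false

namespace Pool.Agent.Helper88.SCN

open Finset
open scoped Classical

/-- The colour `c` is missing in the block `i`. -/
def Vac {V ι : Type} (b : V → ι) (φ : V → Option ℕ) (i : ι) (c : ℕ) : Prop :=
  ∀ x, b x = i → φ x ≠ some c

/-- A partial colouring: proper and injective on blocks, colours less than `k`. -/
structure PCol {V ι : Type} (b : V → ι) (adj : V → V → Prop) (k : ℕ) (φ : V → Option ℕ) :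
    Prop where
  lt : ∀ x c, φ x = some c → c < k
  proper : ∀ x y c, φ x = some c → φ y = some c → ¬ adj x y
  inj : ∀ x y c, φ x = some c → φ y = some c → b x = b y → x = y

/-- Base of the induction: the potential of the full vertex set in step `0`. -/
theorem phi_zero {V ι : Type} [Fintype V] [Fintype ι] [Nonempty V] [Nonempty ι] {b : V → ι}
    {adj : V → V → Prop} (k N : ℕ) (g : ι → ℕ) (d β ε lam mu g1 g2 : ℝ) (hk : 0 < k)
    (hlam : 0 ≤ lam) (hblk : ∀ i, (univ.filter (fun v => b v = i)).card = k)
    (hdeg : ∀ v, ((univ.filter (fun x => adj v x)).card : ℝ) ≤ (1 / 2 - ε / 6) * k) :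
    Phi b adj k N g d β (1 / 2 - ε / 6) lam mu g1 g2 0 univ ≤ 2 := by
  have hk' : (0 : ℝ) < k := by exact_mod_cast hk
  have hu : ∀ i, u b univ i = k := fun i => hblk i
  have hK : ∀ i, K k N g 0 i = 0 := by
    intro i
    simp [K]
  have hB : ∀ i, B k N g d 0 i = 1 := by
    intro i
    simp [B, hK]
  have hPsi : ∀ v, Psi b adj k N g d 0 univ v ≤ 1 / 2 - ε / 6 := by
    intro v
    unfold Psi
    simp only [hu, hB, mul_one]
    rw [Finset.sum_const, nsmul_eq_mul, mul_one_div, div_le_iff₀ hk']
    exact hdeg v
  have hD : ∀ i, D b k N g β 0 univ i = 0 := by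
    intro i
    simp [D, hK, hu]
  unfold Phi
  have hV : (0 : ℝ) < Fintype.card V := by exact_mod_cast Fintype.card_pos
  have hι : (0 : ℝ) < Fintype.card ι := by exact_mod_cast Fintype.card_pos
  have h1 : (∑ v, Real.exp (lam * (Psi b adj k N g d 0 univ v - (1 / 2 - ε / 6)) -
      ((0 : ℕ) : ℝ) * g1)) / (Fintype.card V : ℝ) ≤ 1 := by
    rw [div_le_one hV]
    calc _ ≤ ∑ v : V, (1 : ℝ) := by
          apply Finset.sum_le_sum
          intro v _
          rw [Real.exp_le_one_iff]
          have := hPsi v
          push_cast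
          nlinarith
      _ = Fintype.card V := by simp
  have h2 : (∑ i, Real.exp (mu * D b k N g β 0 univ i - ((0 : ℕ) : ℝ) * g2)) /
      (Fintype.card ι : ℝ) ≤ 1 := by
    rw [div_le_one hι]
    simp [hD]
  linarith

theorem stage1 {V ι : Type} [Fintype V] [Fintype ι] [Nonempty V] [Nonempty ι] {b : V → ι}
    {adj : V → V → Prop} (hS : Sys b adj) (k N m : ℕ) (g : ι → ℕ) (ε κ η d h lam mu g1 g2 : ℝ)
    (hC : Cst (Fintype.card V) k N m ε κ η d h lam mu g1 g2) (hg : ∀ i, g i < N)
    (hcard : Fintype.card ι ≤ Fintype.card V)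
    (hblk : ∀ i, (univ.filter (fun v => b v = i)).card = k)
    (hdeg : ∀ v, ((univ.filter (fun x => adj v x)).card : ℝ) ≤ (1 / 2 - ε / 6) * k) :
    ∃ φ : V → Option ℕ, PCol b adj k φ ∧
      (∀ i c, c < k → Vac b φ i c → cand k N g c i ∧
        (1 / 2 + ε / 20) * k ≤
          ((univ.filter (fun v => b v = i ∧ ∀ x, φ x = some c → ¬ adj v x)).card : ℝ)) ∧
      ∀ v, R b adj (univ.filter (fun x => φ x = none)) v ≤ 1 / 2 := by
  have hN0 := hC.N0
  have hk0 : 0 < k := by
    have := hC.k8
    omega
  have main : ∀ c, c ≤ k → ∃ (X : Finset V) (φ : V → Option ℕ),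
      (∀ x, φ x = none ↔ x ∈ X) ∧ (∀ x a, φ x = some a → a < c) ∧
      (∀ x y a, φ x = some a → φ y = some a → ¬ adj x y) ∧
      (∀ x y a, φ x = some a → φ y = some a → b x = b y → x = y) ∧
      (∀ i a, a < c → Vac b φ i a → cand k N g a i ∧
        (1 / 2 + ε / 20) * k ≤
          ((univ.filter (fun v => b v = i ∧ ∀ x, φ x = some a → ¬ adj v x)).card : ℝ)) ∧
      (∀ i, k ≤ u b X i + c) ∧
      Phi b adj k N g d (ε / 20) (1 / 2 - ε / 6) lam mu g1 g2 c X ≤ 2 := by
    intro c
    induction c with
    | zero =>
      intro _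
      refine ⟨univ, fun _ => none, by simp, by simp, by simp, by simp, by simp, ?_, ?_⟩
      · intro i
        have : u b univ i = k := hblk i
        omega
      · exact phi_zero k N g d (ε / 20) ε lam mu g1 g2 hk0 hC.lam0.le hblk hdeg
    | succ c ih =>
      intro hc
      obtain ⟨X, φ, h1, h2, h3, h4, h5, h6, h7⟩ := ih (by omega)
      obtain ⟨T, hT, hTX, hPhi0⟩ := step hS k N m g ε κ η d h lam mu g1 g2 hC hg hcard hblk c X
        (by omega) h6 h7
      obtain ⟨vac, hvac, hPhi⟩ : ∃ vac : ι → Prop,
          (∀ i, vac i → cand k N g c i ∧ good b adj k (ε / 20) T i) ∧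
          Phi b adj k N g d (ε / 20) (1 / 2 - ε / 6) lam mu g1 g2 (c + 1)
            (next b X T vac) ≤ 2 := ⟨_, fun _ h => h, hPhi0⟩
      have hmem : ∀ x, x ∈ next b X T vac ↔ x ∈ X ∧ ¬ (T (b x) = x ∧ ¬ vac (b x)) := by
        intro x
        unfold next
        simp only [mem_filter]
      let φ' : V → Option ℕ := fun x => if x ∈ X ∧ T (b x) = x ∧ ¬ vac (b x) then some c else φ x
      have hφ'1 : ∀ x, φ' x = some c ↔ x ∈ X ∧ T (b x) = x ∧ ¬ vac (b x) := by
        intro x
        constructor
        · intro hx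
          by_contra hcon
          have : φ' x = φ x := if_neg hcon
          rw [this] at hx
          exact absurd (h2 x c hx) (lt_irrefl c)
        · intro hx
          exact if_pos hx
      have hφ'2 : ∀ x a, a < c → (φ' x = some a ↔ φ x = some a) := by
        intro x a ha
        by_cases hx : x ∈ X ∧ T (b x) = x ∧ ¬ vac (b x)
        · have e1 : φ' x = some c := if_pos hx
          rw [e1, (h1 x).2 hx.1]
          simp only [Option.some.injEq, reduceCtorEq, iff_false]
          omega
        · have e1 : φ' x = φ x := if_neg hx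
          rw [e1]
      have hφ'3 : ∀ x a, φ' x = some a → a < c + 1 := by
        intro x a hx
        by_cases hx' : x ∈ X ∧ T (b x) = x ∧ ¬ vac (b x)
        · have e1 : φ' x = some c := if_pos hx'
          rw [e1] at hx
          injection hx with hx
          omega
        · have e1 : φ' x = φ x := if_neg hx'
          rw [e1] at hx
          have := h2 x a hx
          omega
      refine ⟨next b X T vac, φ', ?_, hφ'3, ?_, ?_, ?_, ?_, hPhi⟩
      · intro x
        by_cases hx : x ∈ X ∧ T (b x) = x ∧ ¬ vac (b x)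
        · have e1 : φ' x = some c := if_pos hx
          rw [e1]
          simp only [reduceCtorEq, false_iff]
          intro h8
          exact ((hmem x).1 h8).2 hx.2
        · have e1 : φ' x = φ x := if_neg hx
          rw [e1, h1 x]
          constructor
          · intro h8
            exact (hmem x).2 ⟨h8, fun h9 => hx ⟨h8, h9⟩⟩
          · intro h8
            exact ((hmem x).1 h8).1
      · intro x y a hx hy
        rcases Nat.lt_succ_iff_lt_or_eq.1 (hφ'3 x a hx) with ha | ha
        · exact h3 x y a ((hφ'2 x a ha).1 hx) ((hφ'2 y a ha).1 hy)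
        · subst ha
          have e1 := ((hφ'1 x).1 hx).2.1
          have e2 := ((hφ'1 y).1 hy).2.1
          rw [← e1, ← e2]
          exact hT.2 _ _
      · intro x y a hx hy hxy
        rcases Nat.lt_succ_iff_lt_or_eq.1 (hφ'3 x a hx) with ha | ha
        · exact h4 x y a ((hφ'2 x a ha).1 hx) ((hφ'2 y a ha).1 hy) hxy
        · subst ha
          have e1 := ((hφ'1 x).1 hx).2.1
          have e2 := ((hφ'1 y).1 hy).2.1
          rw [← e1, ← e2, hxy]
      · intro i a ha hv
        rcases Nat.lt_succ_iff_lt_or_eq.1 ha with ha' | ha'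
        · have hv' : Vac b φ i a := fun x hx hx' => hv x hx ((hφ'2 x a ha').2 hx')
          obtain ⟨e1, e2⟩ := h5 i a ha' hv'
          refine ⟨e1, le_trans e2 (le_of_eq ?_)⟩
          congr 2
          ext v
          simp only [mem_filter, mem_univ, true_and, hφ'2 _ a ha']
        · subst ha'
          have hvi : vac i := by
            by_contra hcon
            refine hv (T i) (hT.1 i) ((hφ'1 (T i)).2 ⟨hTX i, ?_, ?_⟩)
            · rw [hT.1 i]
            · rw [hT.1 i]
              exact hcon
          refine ⟨(hvac i hvi).1, le_trans (hvac i hvi).2 ?_⟩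
          refine Nat.cast_le.2 (card_le_card ?_)
          intro v hv1
          simp only [mem_filter, mem_univ, true_and] at hv1 ⊢
          refine ⟨hv1.1, ?_⟩
          intro x hx hadj
          have e1 := ((hφ'1 x).1 hx).2.1
          rw [← e1] at hadj
          exact hv1.2 _ hadj
      · intro i
        have h8 := h6 i
        have h9 : u b X i ≤ u b (next b X T vac) i + 1 := by
          unfold u
          calc (X.filter (fun x => b x = i)).card
              ≤ (insert (T i) ((next b X T vac).filter (fun x => b x = i))).card := by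
                apply card_le_card
                intro x hx
                obtain ⟨hx1, hx2⟩ := mem_filter.1 hx
                by_cases hx3 : x = T i
                · exact mem_insert.2 (Or.inl hx3)
                · refine mem_insert_of_mem (mem_filter.2 ⟨(hmem x).2 ⟨hx1, ?_⟩, hx2⟩)
                  rintro ⟨hx4, _⟩
                  rw [hx2] at hx4
                  exact hx3 hx4.symm
            _ ≤ _ := card_insert_le _ _
        omega
  obtain ⟨X, φ, h1, h2, h3, h4, h5, h6, h7⟩ := main k le_rfl
  refine ⟨φ, ⟨h2, h3, h4⟩, fun i c hc hv => h5 i c hc hv, ?_⟩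
  intro v
  have hX : univ.filter (fun x => φ x = none) = X := by
    ext x
    simp [h1]
  rw [hX]
  have hκk := hC.κk
  have hη := hC.η0
  have hd0 : 0 ≤ d := by
    rw [hC.ddef]
    apply div_nonneg <;> linarith
  have hg1 : 0 ≤ g1 := by
    rw [hC.g1def]
    have := hC.h1
    positivity
  have hg2 : 0 ≤ g2 := by
    rw [hC.g2def]
    positivity
  have h8 := R_le_of_Phi k N g hN0 d (ε / 20) ε lam mu g1 g2 k X le_rfl hk0 hd0 hC.ε0 hC.ε1
    hC.lam0 hg1 hg2 hC.small hC.dev h7 v
  have := hC.ε0
  linarith

end Pool.Agent.Helper88.SCN
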