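import Pool.Agent.Helper88.SCN.OneStep
import Pool.Agent.Helper88.SCN.PsiExp
import Pool.Agent.Helper88.SCN.DStep
import Pool.Agent.Helper88.SCN.GoodP
import Pool.Agent.Helper88.SCN.PhiBd

/-! # Module STE: one step of the process -/

set_option autoImplicit false

namespace Pool.Agent.Helper88.SCN

open Finset
open scoped Classical

/-- The numerical conditions; `n` is the number of vertices. -/
structure Cst (n k N m : ℕ) (ε κ η d h lam mu g1 g2 : ℝ) : Prop where
  ε0 : 0 < ε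
  ε1 : ε ≤ 1
  N0 : 0 < N
  Nε : 1000 / ε ^ 2 ≤ N
  m0 : 0 < m
  k8 : 8 * N ≤ k
  κdef : κ = ε / 20 / (4 * N)
  κk : 2 ≤ κ * k
  η0 : 0 < η
  ηε : η ≤ ε / 200
  ddef : d = 2 * (2 * η) / (κ * k)
  small : 2 / (N : ℝ) + 4 / k + d * k ≤ ε / 40
  big : 2 * (m : ℝ) * ((n : ℝ) + n) * Real.exp (-(η ^ 2 * κ * k / (4 * m))) < 1
  hh : (k : ℝ) / (2 * m) ≤ h
  h1 : 1 ≤ h
  lam0 : 0 < lam
  lam1 : lam * (7 * h / (κ * k)) ≤ 1
  g1def : g1 = 49 * h * lam ^ 2 / (κ * k) ^ 2
  dev : Real.log (2 * n) + k * g1 ≤ lam * (ε / 60)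
  mudef : mu = ε / 20 / (16 * N)
  g2def : g2 = mu ^ 2
  logn : Real.log (2 * n) ≤ mu ^ 2 * k

theorem exists_le_of_Ex {Ω : Type} [Fintype Ω] (ν : Ω → ℝ) (hν : IsProb ν) (f : Ω → ℝ) (a : ℝ)
    (h : Ex ν f ≤ a) : ∃ T, ν T ≠ 0 ∧ f T ≤ a := by
  by_contra hcon
  push Not at hcon
  have h1 : ∃ T, ν T ≠ 0 := by
    by_contra hh
    push Not at hh
    have := hν.sum
    rw [Finset.sum_eq_zero (fun T _ => hh T)] at this
    exact zero_ne_one this
  obtain ⟨T0, hT0⟩ := h1
  have h2 : ∑ T, ν T * a < ∑ T, ν T * f T := by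
    apply Finset.sum_lt_sum
    · intro T _
      by_cases hT : ν T = 0
      · rw [hT]; simp
      · exact mul_le_mul_of_nonneg_left (hcon T hT).le (hν.nonneg T)
    · refine ⟨T0, mem_univ _, ?_⟩
      exact mul_lt_mul_of_pos_left (hcon T0 hT0)
        (lt_of_le_of_ne (hν.nonneg T0) (Ne.symm hT0))
  rw [← Finset.sum_mul, hν.sum, one_mul] at h2
  unfold Ex at h
  linarith

theorem Ex_const_mul {Ω : Type} [Fintype Ω] (ν : Ω → ℝ) (f : Ω → ℝ) (a : ℝ) :
    Ex ν (fun T => a * f T) = a * Ex ν f := by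
  unfold Ex
  rw [Finset.mul_sum]
  apply Finset.sum_congr rfl
  intro T _
  ring

theorem Ex_sum_div {Ω α : Type} [Fintype Ω] [Fintype α] (ν : Ω → ℝ) (f : α → Ω → ℝ) (a : ℝ) :
    Ex ν (fun T => (∑ v, f v T) / a) = (∑ v, Ex ν (f v)) / a := by
  unfold Ex
  rw [Finset.sum_comm, Finset.sum_div]
  apply Finset.sum_congr rfl
  intro T _
  rw [← Finset.mul_sum]
  ring

theorem Ex_add {Ω : Type} [Fintype Ω] (ν : Ω → ℝ) (f g : Ω → ℝ) :
    Ex ν (fun T => f T + g T) = Ex ν f + Ex ν g := by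
  unfold Ex
  rw [← Finset.sum_add_distrib]
  apply Finset.sum_congr rfl
  intro T _
  ring

theorem step {V ι : Type} [Fintype V] [Fintype ι] [Nonempty V] [Nonempty ι] {b : V → ι}
    {adj : V → V → Prop} (hS : Sys b adj) (k N m : ℕ) (g : ι → ℕ) (ε κ η d h lam mu g1 g2 : ℝ)
    (hC : Cst (Fintype.card V) k N m ε κ η d h lam mu g1 g2) (hg : ∀ i, g i < N)
    (hcard : Fintype.card ι ≤ Fintype.card V)
    (hblk : ∀ i, (univ.filter (fun v => b v = i)).card = k)
    (c : ℕ) (X : Finset V) (hc : c < k) (huc : ∀ i, k ≤ u b X i + c)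
    (hPhi : Phi b adj k N g d (ε / 20) (1 / 2 - ε / 6) lam mu g1 g2 c X ≤ 2) :
    ∃ T : ι → V, IsIT b adj T ∧ (∀ i, T i ∈ X) ∧
      Phi b adj k N g d (ε / 20) (1 / 2 - ε / 6) lam mu g1 g2 (c + 1)
        (next b X T (fun i => cand k N g c i ∧ good b adj k (ε / 20) T i)) ≤ 2 := by
  have hε := hC.ε0
  have hε1 := hC.ε1
  have hN := hC.N0
  have hN' : (0 : ℝ) < N := by exact_mod_cast hN
  have hN1 : (1 : ℝ) ≤ N := by exact_mod_cast hN
  have hk8 := hC.k8
  have hk : 0 < k := by omega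
  have hk4 : 4 ≤ k := by omega
  have hκ : 0 < κ := by rw [hC.κdef]; positivity
  have hκ1 : κ ≤ 1 := by
    rw [hC.κdef, div_le_one (by positivity)]
    linarith
  have hκk := hC.κk
  have hη := hC.η0
  have hd : 0 ≤ d := by rw [hC.ddef]; positivity
  have hg1 : 0 ≤ g1 := by
    rw [hC.g1def]
    have := hC.h1
    positivity
  have hg2 : 0 ≤ g2 := by rw [hC.g2def]; positivity
  have hR : ∀ v, R b adj X v ≤ 1 / 2 - ε / 10 := fun v =>
    R_le_of_Phi k N g hN d (ε / 20) ε lam mu g1 g2 c X hc.le hk hd hε hε1 hC.lam0 hg1 hg2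
      hC.small hC.dev hPhi v
  have hu0 : ∀ i, κ * k ≤ u b X i := by
    intro i
    have := u_ge_of_Phi (adj := adj) k N g hN hg d (ε / 20) (1 / 2 - ε / 6) lam mu g1 g2 c X hc.le hk8
      (by positivity) (by linarith) hC.mudef hg1 hC.g2def hcard hC.logn huc hPhi i
    rw [hC.κdef]
    exact this
  have hu1 : ∀ i, u b X i ≤ k := by
    intro i
    rw [← hblk i]
    unfold u
    apply Finset.card_le_card
    intro x hx
    rw [mem_filter] at hx ⊢
    exact ⟨mem_univ _, hx.2⟩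
  have hηε := hC.ηε
  have hbig : 2 * (m : ℝ) * ((Fintype.card V : ℝ) + Fintype.card ι) *
      Real.exp (-(η ^ 2 * κ * k / (4 * m))) < 1 := by
    refine lt_of_le_of_lt ?_ hC.big
    have : (Fintype.card ι : ℝ) ≤ Fintype.card V := by exact_mod_cast hcard
    gcongr
  obtain ⟨ν, hν, hsup, hmarg⟩ := oneStep hS k m κ η ε h X hk hC.m0 hκ hη (by linarith) hε1 hu0
    (fun i => hu1 i) hR hbig hC.hh
  set vac : (ι → V) → ι → Prop := fun T i => cand k N g c i ∧ good b adj k (ε / 20) T i with hvacdef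
  have hvac : ∀ T i, vac T i → cand k N g c i := fun T i hh => hh.1
  -- first functional
  have hA : ∀ v : V, Ex ν (fun T => Real.exp (lam * (Psi b adj k N g d (c + 1)
      (next b X T (vac T)) v - (1 / 2 - ε / 6)) - ((c + 1 : ℕ) : ℝ) * g1)) ≤
      Real.exp (lam * (Psi b adj k N g d c X v - (1 / 2 - ε / 6)) - c * g1) := by
    intro v
    have hRv : (1 + 2 * η) * R b adj X v ≤ 1 := by
      have h1 := hR v
      have h2 : R b adj X v ≤ 1 / 2 := by linarith
      have h3 : (1 + 2 * η) * R b adj X v ≤ (1 + 2 * η) * (1 / 2) := by gcongr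
      linarith
    obtain ⟨p1, p2, p3⟩ := psi_inc hS k N g κ (2 * η) d h c X v vac ν hν hk4 hκ hκ1 hκk
      (by positivity) (by linarith) hC.ddef hu0 huc hRv
      (fun T hT => ⟨(hsup T hT).1, (hsup T hT).2.1, (hsup T hT).2.2 v⟩) hmarg hvac
    have hq : (0 : ℝ) < κ * k := by positivity
    have key := exp_step ν hν (fun T => Psi b adj k N g d (c + 1) (next b X T (vac T)) v)
      (fun T => (hits adj T v : ℝ)) (Psi b adj k N g d c X v) h (κ * k) lam hq hC.h1 hC.lam0.le
      hC.lam1 (fun T => Nat.cast_nonneg _) (fun T hT => (hsup T hT).2.2 v) p1 p2 p3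
    have e1 : (fun T => Real.exp (lam * (Psi b adj k N g d (c + 1)
        (next b X T (vac T)) v - (1 / 2 - ε / 6)) - ((c + 1 : ℕ) : ℝ) * g1)) =
        fun T => Real.exp (-(lam * (1 / 2 - ε / 6)) - ((c : ℝ) + 1) * g1) *
          Real.exp (lam * Psi b adj k N g d (c + 1) (next b X T (vac T)) v) := by
      funext T
      rw [← Real.exp_add]
      congr 1
      push_cast
      ring
    rw [e1, Ex_const_mul]
    calc _ ≤ Real.exp (-(lam * (1 / 2 - ε / 6)) - ((c : ℝ) + 1) * g1) *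
          (Real.exp (lam * Psi b adj k N g d c X v) * Real.exp (49 * h * lam ^ 2 / (κ * k) ^ 2)) :=
          mul_le_mul_of_nonneg_left key (Real.exp_pos _).le
      _ = _ := by
          rw [← hC.g1def, ← Real.exp_add, ← Real.exp_add]
          congr 1
          ring
  -- second functional
  have hB : ∀ i : ι, Ex ν (fun T => Real.exp (mu * D b k N g (ε / 20) (c + 1)
      (next b X T (vac T)) i - ((c + 1 : ℕ) : ℝ) * g2)) ≤
      Real.exp (mu * D b k N g (ε / 20) c X i - c * g2) := by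
    intro i
    have hmu0 : 0 ≤ mu := by rw [hC.mudef]; positivity
    have hmu1 : mu ≤ 1 := by
      rw [hC.mudef, div_le_one (by positivity)]
      linarith
    have hp : cand k N g c i → ε / 20 ≤ Pr ν (fun T => vac T i) := by
      intro hcand
      have h1 := good_prob hS k ε (2 * η) X ν hν hk hε hε1 (by positivity) (by linarith) hblk hR
        (fun T hT => ⟨(hsup T hT).1, (hsup T hT).2.1⟩) (fun x hx => (hmarg x hx).2) i
      have e2 : (fun T => vac T i) = fun T => good b adj k (ε / 20) T i := by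
        funext T
        rw [hvacdef]
        simp [hcand]
      rw [e2]; exact h1
    have key := d_step k N g (ε / 20) mu c X i vac ν hν (by positivity) (by linarith) hmu0 hmu1
      (fun T hT => ⟨(hsup T hT).1.1, (hsup T hT).2.1⟩) hvac hp
    have e1 : (fun T => Real.exp (mu * D b k N g (ε / 20) (c + 1)
        (next b X T (vac T)) i - ((c + 1 : ℕ) : ℝ) * g2)) =
        fun T => Real.exp (-(((c : ℝ) + 1) * g2)) *
          Real.exp (mu * D b k N g (ε / 20) (c + 1) (next b X T (vac T)) i) := by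
      funext T
      rw [← Real.exp_add]
      congr 1
      push_cast
      ring
    rw [e1, Ex_const_mul]
    calc _ ≤ Real.exp (-(((c : ℝ) + 1) * g2)) *
          (Real.exp (mu * D b k N g (ε / 20) c X i) * Real.exp (mu ^ 2)) :=
          mul_le_mul_of_nonneg_left key (Real.exp_pos _).le
      _ = _ := by
          rw [← hC.g2def, ← Real.exp_add, ← Real.exp_add]
          congr 1
          ring
  -- the mean
  have hmean : Ex ν (fun T => Phi b adj k N g d (ε / 20) (1 / 2 - ε / 6) lam mu g1 g2 (c + 1)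
      (next b X T (vac T))) ≤ 2 := by
    unfold Phi
    rw [Ex_add, Ex_sum_div, Ex_sum_div]
    refine le_trans ?_ hPhi
    unfold Phi
    gcongr with v _ i _
    · exact hA v
    · exact hB i
  obtain ⟨T, hT0, hT⟩ := exists_le_of_Ex ν hν _ 2 hmean
  exact ⟨T, (hsup T hT0).1, (hsup T hT0).2.1, hT⟩

end Pool.Agent.Helper88.SCN
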