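import Pool.Agent.Helper88.SCN.Constel

/-! # Module WEI: the weighted transversal theorem (Aharoni, Berger, Ziv), integer weights -/

set_option autoImplicit false

namespace Pool.Agent.Helper88.SCN

open Finset
open scoped Classical

section

variable {V ι : Type} [Fintype V] [Fintype ι] {b : V → ι} {adj : V → V → Prop}

/-- Number of elements of `X` adjacent to `x`. -/
private noncomputable def cn (adj : V → V → Prop) (X : Finset V) (x : V) : ℤ :=
  ((X.filter (fun x' => adj x' x)).card : ℤ)

private theorem sum_fib (b : V → ι) (f : V → ℝ) :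
    ∑ x, f x = ∑ i, ∑ x ∈ univ.filter (fun x => b x = i), f x :=
  (Finset.sum_fiberwise univ b f).symm

private theorem sum_cn (y : V → ℝ) (hyN : ∀ z, ∑ x ∈ univ.filter (fun x => adj z x), y x ≤ 1 / 2)
    (X : Finset V) : ∑ x, (cn adj X x : ℝ) * y x ≤ (X.card : ℝ) / 2 := by
  have h1 : ∀ x, (cn adj X x : ℝ) * y x = ∑ x' ∈ X, if adj x' x then y x else 0 := by
    intro x
    rw [← Finset.sum_filter, Finset.sum_const, nsmul_eq_mul]
    simp [cn]
  rw [Finset.sum_congr rfl (fun x _ => h1 x), Finset.sum_comm]
  calc ∑ x' ∈ X, ∑ x, (if adj x' x then y x else 0)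
      ≤ ∑ x' ∈ X, (1 / 2 : ℝ) := by
        apply Finset.sum_le_sum
        intro x' _
        rw [← Finset.sum_filter]
        exact hyN x'
    _ = (X.card : ℝ) / 2 := by
        rw [Finset.sum_const, nsmul_eq_mul]
        ring

/-- Exchange step. -/
private theorem exchange (hS : Sys b adj) (w : V → ℤ) (L : Finset V)
    (hL : ∀ x ∈ L, ∀ x', b x' = b x → w x' ≤ w x)
    (hL' : ∀ x, x ∉ L → ∃ x' , b x' = b x ∧ w x < w x')
    (I : Finset ι) (X Y : Finset V) (hY : ∀ y ∈ Y, y ∈ L ∧ b y ∈ I)
    (hYinj : ∀ y ∈ Y, ∀ y' ∈ Y, b y = b y' → y = y') (hYind : ∀ y ∈ Y, ∀ y' ∈ Y, ¬ adj y y')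
    (hYc : Y.card + 1 = I.card)
    (hdom : ∀ z ∈ L, b z ∈ I → ∃ x ∈ X ∪ Y, adj x z) (T' : ι → V) (hT' : IsIT b adj T') :
    ∃ T, IsIT b adj T ∧
      ∑ i, (w (T' i) + (if i ∈ I then 1 else 0) - cn adj X (T' i) - cn adj Y (T' i)) ≤
        ∑ i, w (T i) + 1 := by
  -- a largest closed subset
  obtain ⟨B, hB, hmax⟩ := Finset.exists_max_image
    (Y.powerset.filter (fun B => ∀ y ∈ B, ∀ j, j ∉ B.image b → ¬ adj y (T' j)))
    Finset.card ⟨∅, by simp⟩
  simp only [mem_filter, mem_powerset] at hB hmax
  obtain ⟨hBY, hBc⟩ := hB
  have hout : ∀ y ∈ Y, y ∉ B → ∃ j, j ∉ B.image b ∧ adj y (T' j) := by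
    intro y hy hyB
    by_contra hcon
    push Not at hcon
    have h1 := hmax (insert y B) ⟨insert_subset hy hBY, by
      intro z hz j hj
      have hj' : j ∉ B.image b := by
        intro h
        apply hj
        rw [image_insert]
        exact mem_insert_of_mem h
      rcases mem_insert.1 hz with rfl | hz1
      · exact hcon j hj'
      · exact hBc z hz1 j hj'⟩
    rw [card_insert_of_notMem hyB] at h1
    omega
  let T : ι → V := fun i => if h : ∃ y ∈ B, b y = i then h.choose else T' i
  have hT1 : ∀ y ∈ B, T (b y) = y := by
    intro y hy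
    have h : ∃ y' ∈ B, b y' = b y := ⟨y, hy, rfl⟩
    have h2 : T (b y) = h.choose := dif_pos h
    rw [h2]
    exact hYinj _ (hBY h.choose_spec.1) _ (hBY hy) h.choose_spec.2
  have hT2 : ∀ i, i ∉ B.image b → T i = T' i := by
    intro i hi
    have h : ¬ ∃ y ∈ B, b y = i := by
      rintro ⟨y, hy, rfl⟩
      exact hi (mem_image_of_mem b hy)
    exact dif_neg h
  have hIT : IsIT b adj T := by
    constructor
    · intro i
      by_cases hi : i ∈ B.image b
      · obtain ⟨y, hy, rfl⟩ := mem_image.1 hi
        rw [hT1 y hy]
      · rw [hT2 i hi]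
        exact hT'.1 i
    · intro i j
      by_cases hi : i ∈ B.image b
      · obtain ⟨y, hy, rfl⟩ := mem_image.1 hi
        rw [hT1 y hy]
        by_cases hj : j ∈ B.image b
        · obtain ⟨y', hy', rfl⟩ := mem_image.1 hj
          rw [hT1 y' hy']
          exact hYind y (hBY hy) y' (hBY hy')
        · rw [hT2 j hj]
          exact hBc y hy j hj
      · rw [hT2 i hi]
        by_cases hj : j ∈ B.image b
        · obtain ⟨y', hy', rfl⟩ := mem_image.1 hj
          rw [hT1 y' hy']
          intro h
          exact hBc y' hy' i hi (hS.symm _ _ h)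
        · rw [hT2 j hj]
          exact hT'.2 i j
  refine ⟨T, hIT, ?_⟩
  have hcn0 : ∀ (Z : Finset V) (x : V), 0 ≤ cn adj Z x := fun Z x => Int.natCast_nonneg _
  -- reformulation
  have hsumI : ∑ i, (if i ∈ I then (1 : ℤ) else 0) = I.card := by
    rw [← Finset.sum_filter]
    simp
  have hgoal : (Y.card : ℤ) ≤
      ∑ i, (w (T i) - w (T' i) + cn adj X (T' i) + cn adj Y (T' i)) := by
    rw [← Finset.sum_add_sum_compl (B.image b)]
    have hin : (B.card : ℤ) ≤ ∑ i ∈ B.image b,
        (w (T i) - w (T' i) + cn adj X (T' i) + cn adj Y (T' i)) := by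
      have hcardB : (B.image b).card = B.card := by
        apply Finset.card_image_of_injOn
        intro x hx y hy hxy
        exact hYinj x (hBY hx) y (hBY hy) hxy
      calc (B.card : ℤ) = ∑ i ∈ B.image b, (1 : ℤ) := by
            rw [Finset.sum_const, hcardB]
            simp
        _ ≤ _ := by
            apply Finset.sum_le_sum
            intro i hi
            obtain ⟨y, hy, rfl⟩ := mem_image.1 hi
            rw [hT1 y hy]
            have hyL := (hY y (hBY hy)).1
            have hyI := (hY y (hBY hy)).2
            have hw : w (T' (b y)) ≤ w y := hL y hyL _ (hT'.1 (b y))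
            by_cases hTL : T' (b y) ∈ L
            · obtain ⟨x, hx, hadj⟩ := hdom _ hTL (by rw [hT'.1]; exact hyI)
              have h1 : 1 ≤ cn adj X (T' (b y)) + cn adj Y (T' (b y)) := by
                rcases mem_union.1 hx with h | h
                · have : 1 ≤ cn adj X (T' (b y)) := by
                    have : 0 < (X.filter (fun x' => adj x' (T' (b y)))).card :=
                      card_pos.2 ⟨x, mem_filter.2 ⟨h, hadj⟩⟩
                    unfold cn
                    omega
                  have := hcn0 Y (T' (b y))
                  omega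
                · have : 1 ≤ cn adj Y (T' (b y)) := by
                    have : 0 < (Y.filter (fun x' => adj x' (T' (b y)))).card :=
                      card_pos.2 ⟨x, mem_filter.2 ⟨h, hadj⟩⟩
                    unfold cn
                    omega
                  have := hcn0 X (T' (b y))
                  omega
              omega
            · obtain ⟨x', hx', hlt⟩ := hL' _ hTL
              have h2 : w x' ≤ w y := hL y hyL x' (by rw [hx', hT'.1])
              have h3 := hcn0 X (T' (b y))
              have h4 := hcn0 Y (T' (b y))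
              omega
    have hout' : ((Y \ B).card : ℤ) ≤ ∑ i ∈ (B.image b)ᶜ,
        (w (T i) - w (T' i) + cn adj X (T' i) + cn adj Y (T' i)) := by
      have h1 : ∑ i ∈ (B.image b)ᶜ, cn adj Y (T' i) ≤ ∑ i ∈ (B.image b)ᶜ,
          (w (T i) - w (T' i) + cn adj X (T' i) + cn adj Y (T' i)) := by
        apply Finset.sum_le_sum
        intro i hi
        rw [hT2 i (mem_compl.1 hi)]
        have := hcn0 X (T' i)
        omega
      refine le_trans ?_ h1
      have h2 : ∑ i ∈ (B.image b)ᶜ, cn adj Y (T' i) =
          ∑ y ∈ Y, ∑ i ∈ (B.image b)ᶜ, if adj y (T' i) then (1 : ℤ) else 0 := by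
        rw [Finset.sum_comm]
        apply Finset.sum_congr rfl
        intro i _
        rw [← Finset.sum_filter]
        simp [cn]
      rw [h2]
      calc ((Y \ B).card : ℤ) = ∑ y ∈ Y \ B, (1 : ℤ) := by simp
        _ ≤ ∑ y ∈ Y \ B, ∑ i ∈ (B.image b)ᶜ, (if adj y (T' i) then (1 : ℤ) else 0) := by
            apply Finset.sum_le_sum
            intro y hy
            obtain ⟨hyY, hyB⟩ := mem_sdiff.1 hy
            obtain ⟨j, hj, hadj⟩ := hout y hyY hyB
            have h5 := Finset.single_le_sum (f := fun i => if adj y (T' i) then (1 : ℤ) else 0)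
              (s := (B.image b)ᶜ) (fun i _ => by positivity) (mem_compl.2 hj)
            simpa [hadj] using h5
        _ ≤ ∑ y ∈ Y, ∑ i ∈ (B.image b)ᶜ, (if adj y (T' i) then (1 : ℤ) else 0) := by
            apply Finset.sum_le_sum_of_subset_of_nonneg sdiff_subset
            intro y _ _
            exact Finset.sum_nonneg (fun i _ => by positivity)
    have hc : (Y.card : ℤ) = B.card + (Y \ B).card := by
      have := card_sdiff_add_card_eq_card hBY
      omega
    omega
  have e1 : ∑ i, (w (T i) - w (T' i) + cn adj X (T' i) + cn adj Y (T' i)) =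
      ∑ i, w (T i) - ∑ i, (w (T' i) - cn adj X (T' i) - cn adj Y (T' i)) := by
    rw [← Finset.sum_sub_distrib]
    apply Finset.sum_congr rfl
    intro i _
    ring
  have e2 : ∑ i, (w (T' i) + (if i ∈ I then 1 else 0) - cn adj X (T' i) - cn adj Y (T' i)) =
      I.card + ∑ i, (w (T' i) - cn adj X (T' i) - cn adj Y (T' i)) := by
    rw [← hsumI, ← Finset.sum_add_distrib]
    apply Finset.sum_congr rfl
    intro i _
    ring
  rw [e2]
  rw [e1] at hgoal
  omega

end

theorem weighted {V ι : Type} [Fintype V] [Fintype ι] {b : V → ι} {adj : V → V → Prop}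
    (hS : Sys b adj) (y : V → ℝ) (hy0 : ∀ x, 0 ≤ y x)
    (hy1 : ∀ i, ∑ x ∈ univ.filter (fun x => b x = i), y x = 1)
    (hyN : ∀ z, ∑ x ∈ univ.filter (fun x => adj z x), y x ≤ 1 / 2) (w : V → ℤ) :
    ∃ T : ι → V, IsIT b adj T ∧ ∑ x, (w x : ℝ) * y x ≤ ∑ i, (w (T i) : ℝ) := by
  have hne : ∀ i, (univ.filter (fun x => b x = i)).Nonempty := by
    intro i
    by_contra h
    rw [not_nonempty_iff_eq_empty] at h
    have := hy1 i
    rw [h] at this
    simp at this
  let mx : (V → ℤ) → ι → ℤ := fun w i => (univ.filter (fun x => b x = i)).sup' (hne i) w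
  have hle : ∀ (w : V → ℤ) (x : V), w x ≤ mx w (b x) := fun w x =>
    Finset.le_sup' w (by simp)
  have hatt : ∀ (w : V → ℤ) (i : ι), ∃ x, b x = i ∧ w x = mx w i := by
    intro w i
    obtain ⟨x, hx, hx'⟩ := Finset.exists_mem_eq_sup' (hne i) w
    exact ⟨x, by simpa using hx, hx'.symm⟩
  have hmu : ∀ w : V → ℤ, ∑ x, (w x : ℝ) * y x ≤ ∑ i, (mx w i : ℝ) := by
    intro w
    rw [sum_fib b]
    apply Finset.sum_le_sum
    intro i _
    calc ∑ x ∈ univ.filter (fun x => b x = i), (w x : ℝ) * y x
        ≤ ∑ x ∈ univ.filter (fun x => b x = i), (mx w i : ℝ) * y x := by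
          apply Finset.sum_le_sum
          intro x hx
          have hbx : b x = i := by simpa using hx
          apply mul_le_mul_of_nonneg_right _ (hy0 x)
          have := hle w x
          rw [hbx] at this
          exact_mod_cast this
      _ = (mx w i : ℝ) := by rw [← Finset.mul_sum, hy1 i, mul_one]
  have main : ∀ (n : ℕ) (w : V → ℤ), ∑ i, (mx w i : ℝ) - ∑ x, (w x : ℝ) * y x < n →
      ∃ T : ι → V, IsIT b adj T ∧ ∑ x, (w x : ℝ) * y x ≤ ∑ i, (w (T i) : ℝ) := by
    intro n
    induction n with
    | zero =>
      intro w hw
      have := hmu w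
      push_cast at hw
      linarith
    | succ n ih =>
      intro w hw
      let L : Finset V := univ.filter (fun x => w x = mx w (b x))
      by_cases hL : ∃ T : ι → V, IsIT b adj T ∧ ∀ i, T i ∈ L
      · obtain ⟨T, hT, hTL⟩ := hL
        refine ⟨T, hT, (hmu w).trans (le_of_eq ?_)⟩
        apply Finset.sum_congr rfl
        intro i _
        have := (mem_filter.1 (hTL i)).2
        rw [this, hT.1]
      · obtain ⟨I, X, Y, hI, hY, hYinj, hYind, hYc, hXc, hdom⟩ := constel hS L hL
        let w' : V → ℤ := fun x => w x + (if b x ∈ I then 1 else 0) - cn adj X x - cn adj Y x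
        have hcn0 : ∀ (Z : Finset V) (x : V), 0 ≤ cn adj Z x := fun Z x => Int.natCast_nonneg _
        have hmax : ∀ i, mx w' i ≤ mx w i := by
          intro i
          obtain ⟨x, hx, hx'⟩ := hatt w' i
          rw [← hx']
          have h1 := hle w x
          rw [hx] at h1
          have h2 := hcn0 X x
          have h3 := hcn0 Y x
          by_cases hbI : b x ∈ I
          · have hw'x : w' x = w x + 1 - cn adj X x - cn adj Y x := by simp [w', hbI]
            by_cases hxL : x ∈ L
            · obtain ⟨x', hx'1, hadj⟩ := hdom x hxL hbI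
              have h4 : 1 ≤ cn adj X x + cn adj Y x := by
                rcases mem_union.1 hx'1 with h | h
                · have : 0 < (X.filter (fun x' => adj x' x)).card :=
                    card_pos.2 ⟨x', mem_filter.2 ⟨h, hadj⟩⟩
                  have h5 : 1 ≤ cn adj X x := by
                    unfold cn
                    omega
                  omega
                · have : 0 < (Y.filter (fun x' => adj x' x)).card :=
                    card_pos.2 ⟨x', mem_filter.2 ⟨h, hadj⟩⟩
                  have h5 : 1 ≤ cn adj Y x := by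
                    unfold cn
                    omega
                  omega
              omega
            · have h4 : w x ≠ mx w (b x) := fun h => hxL (by simp [L, h])
              rw [hx] at h4
              omega
          · have hw'x : w' x = w x + 0 - cn adj X x - cn adj Y x := by simp [w', hbI]
            omega
        have hsum : ∑ x, (w x : ℝ) * y x + 1 ≤ ∑ x, (w' x : ℝ) * y x := by
          have e1 : ∑ x, (w' x : ℝ) * y x = ∑ x, (w x : ℝ) * y x +
              ∑ x, (if b x ∈ I then y x else 0) - ∑ x, (cn adj X x : ℝ) * y x -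
              ∑ x, (cn adj Y x : ℝ) * y x := by
            rw [← Finset.sum_add_distrib, ← Finset.sum_sub_distrib, ← Finset.sum_sub_distrib]
            apply Finset.sum_congr rfl
            intro x _
            by_cases hbI : b x ∈ I
            · simp only [w', hbI, if_true]
              push_cast
              ring
            · simp only [w', hbI, if_false]
              push_cast
              ring
          have e2 : ∑ x, (if b x ∈ I then y x else 0) = I.card := by
            rw [sum_fib b]
            have : ∀ i, ∑ x ∈ univ.filter (fun x => b x = i), (if b x ∈ I then y x else 0) =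
                if i ∈ I then (1 : ℝ) else 0 := by
              intro i
              by_cases hi : i ∈ I
              · rw [if_pos hi, ← hy1 i]
                apply Finset.sum_congr rfl
                intro x hx
                have hbx : b x = i := by simpa using hx
                rw [hbx, if_pos hi]
              · rw [if_neg hi]
                apply Finset.sum_eq_zero
                intro x hx
                have hbx : b x = i := by simpa using hx
                rw [hbx, if_neg hi]
            rw [Finset.sum_congr rfl (fun i _ => this i), ← Finset.sum_filter]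
            simp
          have e3 := sum_cn (adj := adj) y hyN X
          have e4 := sum_cn (adj := adj) y hyN Y
          rw [e1, e2]
          have e5 : (X.card : ℝ) + 1 ≤ I.card := by exact_mod_cast hXc
          have e6 : (Y.card : ℝ) + 1 = I.card := by exact_mod_cast hYc
          linarith
        obtain ⟨T', hT', hT'w⟩ := ih w' (by
          have h1 : ∑ i, (mx w' i : ℝ) ≤ ∑ i, (mx w i : ℝ) := by
            apply Finset.sum_le_sum
            intro i _
            exact_mod_cast hmax i
          push_cast at hw
          linarith)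
        obtain ⟨T, hT, hTw⟩ := exchange hS w L
          (by
            intro x hx x' hx'
            have h1 := (mem_filter.1 hx).2
            have h2 := hle w x'
            rw [hx'] at h2
            omega)
          (by
            intro x hx
            obtain ⟨x', hx', hx''⟩ := hatt w (b x)
            refine ⟨x', hx', ?_⟩
            have h1 := hle w x
            have h2 : w x ≠ mx w (b x) := fun h => hx (by simp [L, h])
            omega) I X Y hY hYinj hYind hYc hdom T' hT'
        refine ⟨T, hT, ?_⟩
        have h1 : (∑ i, (w' (T' i) : ℝ)) ≤ ∑ i, (w (T i) : ℝ) + 1 := by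
          have h2 : ∑ i, w' (T' i) ≤ ∑ i, w (T i) + 1 := by
            refine le_trans (le_of_eq ?_) hTw
            apply Finset.sum_congr rfl
            intro i _
            simp only [w', hT'.1]
          exact_mod_cast h2
        linarith
  obtain ⟨n, hn⟩ := exists_nat_gt (∑ i, (mx w i : ℝ) - ∑ x, (w x : ℝ) * y x)
  exact main n w hn

end Pool.Agent.Helper88.SCN
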